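import Pool.Agent.H53.CL.Emb

/-!
Root systems in which the reflections permute the coordinates up to sign, with parallel simple roots.
-/

set_option autoImplicit false

namespace Pool.Agent.H53.CL

open Pool.Agent.Helper741 Pool.Agent.TH107 CoxeterSystem Pool.Agent.X201.AT
open Pool.Agent.H53.VA Pool.Agent.R665.She Pool.Agent.H53.VS

/-- as `Cls`, but long simple roots may be parallel: they have the same coordinates up to sign and are
orthogonal -/
structure Cl2 {B I : Type} [Fintype B] [DecidableEq B] [Fintype I] (M : CoxeterMatrix B)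
    (al : B → I → ℝ) (S : Set B) : Prop where
  form : ∀ s t, -2 * cc M s t = ∑ k, al s k * al t k
  sign : ∀ s t, s ≠ t → (∀ k, al s k * al t k ≤ 0) ∨
    (M s t = 2 ∧ s ∉ S ∧ t ∉ S ∧ ∀ k, al s k ^ 2 = al t k ^ 2)
  long : ∀ s, s ∉ S → ∀ k, al s k ^ 2 = 0 ∨ al s k ^ 2 = 1
  short : ∀ s, s ∈ S → ∀ k, al s k ^ 2 = 0 ∨ al s k ^ 2 = 2
  ref : ∀ s, ∃ (σ : Equiv.Perm I) (ε : I → ℝ), (∀ k, ε k ^ 2 = 1) ∧
    ∀ (u : I → ℝ) k, u k - (∑ m, u m * al s m) * al s k = ε k * u (σ k)
  lab : ∀ s t, s ≠ t → M s t = 0 ∨ M s t = 2 ∨ (M s t = 3 ∧ s ∉ S ∧ t ∉ S) ∨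
    (M s t = 4 ∧ (s ∈ S ∧ t ∉ S ∨ s ∉ S ∧ t ∈ S))

section

variable {B I : Type} [Fintype B] [DecidableEq B] [Fintype I] {M : CoxeterMatrix B}
variable {al : B → I → ℝ} {S : Set B}

theorem Cl2.coroot (h : Cl2 M al S) (s : B) (v : B → ℝ) :
    coroot M s v = ∑ k, co al v k * al s k := by
  rw [coroot_apply]
  unfold co
  simp only [Finset.sum_mul]
  rw [Finset.sum_comm]
  apply Finset.sum_congr rfl
  intro j _
  rw [h.form, Finset.sum_mul]
  apply Finset.sum_congr rfl
  intro k _
  ring

theorem Cl2.sg (h : Cl2 M al S) (s : B) (v : B → ℝ) (k : I) :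
    co al (sg M s v) k = co al v k - (∑ m, co al v m * al s m) * al s k := by
  have h0 : Pool.Agent.Helper741.sg M s v = v + (-(Pool.Agent.Helper741.coroot M s v)) • ee s := by
    rw [sg_apply]
    module
  rw [h0, ← h.coroot]
  unfold co
  simp only [Pi.add_apply, Pi.smul_apply, smul_eq_mul, add_mul, Finset.sum_add_distrib]
  have h1 : ∑ x, -(Pool.Agent.Helper741.coroot M s v) * ee s x * al x k =
      -(Pool.Agent.Helper741.coroot M s v) * al s k := by
    simp [ee, Pi.single_apply]
  rw [h1]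
  ring

variable {W : Type} [Group W] (cs : CoxeterSystem M W)

theorem Cl2.geo (h : Cl2 M al S) (w : W) : ∃ (σ : Equiv.Perm I) (ε : I → ℝ), (∀ k, ε k ^ 2 = 1) ∧
    ∀ (v : B → ℝ) k, co al (geo cs w v) k = ε k * co al v (σ k) := by
  induction w using cs.simple_induction_left with
  | one => exact ⟨1, fun _ => 1, fun _ => one_pow 2, fun v k => by rw [map_one, one_mul]; rfl⟩
  | mul_simple_left w i ih =>
    obtain ⟨σ, ε, h1, h2⟩ := ih
    obtain ⟨τ, δ, h3, h4⟩ := h.ref i
    refine ⟨τ.trans σ, fun k => δ k * ε (τ k), fun k => ?_, fun v k => ?_⟩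
    · rw [mul_pow, h3, h1, one_mul]
    · rw [← geo_geo, geo_simple, h.sg, h4, h2]
      simp only [Equiv.trans_apply]
      ring

variable {p : B → ℕ} {K : Type} {N : CoxeterMatrix K} {q : K → ℕ} {r : K → (B → ℝ)}

/-- pairs in a configuration -/
theorem Cl2.pair (h : Cl2 M al S) (hr : ConfS cs p N q r) (i j : K) :
    ∃ s t, N i j = M s t ∧ N i j ≠ 0 ∧ q i = p s ∧ q j = p t ∧
      ∃ (σ : Equiv.Perm I) (ε : I → ℝ), (∀ k, ε k ^ 2 = 1) ∧
        (∀ k, co al (r i) k = ε k * al s (σ k)) ∧ ∀ k, co al (r j) k = ε k * al t (σ k) := by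
  obtain ⟨w, s, t, h1, h2, h3, h4, h5, h6⟩ := hr i j
  obtain ⟨σ, ε, h7, h8⟩ := h.geo cs w
  refine ⟨s, t, h1, h2, h3, h4, σ, ε, h7, fun k => ?_, fun k => ?_⟩
  · rw [h5, h8, co_ee]
  · rw [h6, h8, co_ee]

theorem Cl2.self (h : Cl2 M al S) (s : B) : ∑ k, al s k ^ 2 = 2 := by
  have h1 := h.form s s
  rw [cc_self] at h1
  have h2 : ∑ k, al s k ^ 2 = ∑ k, al s k * al s k := Finset.sum_congr rfl fun k _ => pow_two _
  rw [h2, ← h1]
  norm_num

theorem Cl2.short_iff (h : Cl2 M al S) {i : K} {s : B} (σ : Equiv.Perm I) (ε : I → ℝ)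
    (h1 : ∀ k, ε k ^ 2 = 1) (h2 : ∀ k, co al (r i) k = ε k * al s (σ k)) :
    Short al r i ↔ s ∈ S := by
  constructor
  · rintro ⟨k, hk⟩
    by_contra hs
    rw [h2, mul_pow, h1, one_mul] at hk
    rcases h.long s hs (σ k) with h3 | h3 <;> rw [h3] at hk <;> norm_num at hk
  · intro hs
    by_contra hcon
    unfold Short at hcon
    push Not at hcon
    have h3 : ∀ k, al s k ^ 2 = 0 := by
      intro k
      refine (h.short s hs k).resolve_right fun h4 => hcon (σ.symm k) ?_
      rw [h2, mul_pow, h1, one_mul, Equiv.apply_symm_apply, h4]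
    have h4 := h.self s
    rw [Finset.sum_congr rfl fun k _ => h3 k] at h4
    simp at h4

theorem Cl2.root_self (h : Cl2 M al S) (hr : ConfS cs p N q r) (i : K) :
    ∑ k, co al (r i) k ^ 2 = 2 := by
  obtain ⟨s, t, -, -, -, -, σ, ε, h1, h2, -⟩ := h.pair cs hr i i
  rw [← h.self s, ← Equiv.sum_comp σ (fun k => al s k ^ 2)]
  apply Finset.sum_congr rfl
  intro k _
  rw [h2, mul_pow, h1, one_mul]

/-- values of the coordinates -/
theorem Cl2.vals (h : Cl2 M al S) (hr : ConfS cs p N q r) (i : K) :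
    (Short al r i → ∀ k, co al (r i) k ^ 2 = 0 ∨ co al (r i) k ^ 2 = 2) ∧
      (¬ Short al r i → ∀ k, co al (r i) k ^ 2 = 0 ∨ co al (r i) k ^ 2 = 1) := by
  obtain ⟨s, t, -, -, -, -, σ, ε, h1, h2, -⟩ := h.pair cs hr i i
  rw [h.short_iff σ ε h1 h2]
  constructor
  · intro hs k
    rw [h2, mul_pow, h1, one_mul]
    exact h.short s hs _
  · intro hs k
    rw [h2, mul_pow, h1, one_mul]
    exact h.long s hs _

/-- the orders -/
theorem Cl2.order (h : Cl2 M al S) (hr : ConfS cs p N q r) (i : K) :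
    ∃ s, q i = p s ∧ (Short al r i ↔ s ∈ S) := by
  obtain ⟨s, t, -, -, h3, -, σ, ε, h1, h2, -⟩ := h.pair cs hr i i
  exact ⟨s, h3, h.short_iff σ ε h1 h2⟩

/-- the roots `i` and `j` have the same coordinates up to sign -/
def Par (al : B → I → ℝ) (r : K → (B → ℝ)) (i j : K) : Prop :=
  ∀ k, co al (r i) k ^ 2 = co al (r j) k ^ 2

omit [DecidableEq B] [Fintype I] in
theorem Par.refl (i : K) : Par al r i i := fun _ => rfl

omit [DecidableEq B] [Fintype I] in
theorem Par.symm {i j : K} (h : Par al r i j) : Par al r j i := fun k => (h k).symm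

omit [DecidableEq B] [Fintype I] in
theorem Par.trans {i j l : K} (h : Par al r i j) (h' : Par al r j l) : Par al r i l :=
  fun k => (h k).trans (h' k)

/-- the product of two different roots -/
theorem Cl2.prod (h : Cl2 M al S) (hr : ConfS cs p N q r) {i j : K} (hij : i ≠ j) :
    (N i j = 2 ∧ ∑ k, co al (r i) k * co al (r j) k = 0) ∨
      (N i j = 3 ∧ (¬ Short al r i ∧ ¬ Short al r j) ∧
        ∑ k, co al (r i) k * co al (r j) k = -1) ∨
      (N i j = 4 ∧ (Short al r i ∧ ¬ Short al r j ∨ ¬ Short al r i ∧ Short al r j) ∧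
        ∑ k, co al (r i) k * co al (r j) k = -√2) := by
  obtain ⟨s, t, h3, h4, -, -, σ, ε, h1, h2, h2'⟩ := h.pair cs hr i j
  have hst : s ≠ t := by
    rintro rfl
    exact N.off_diagonal i j hij (h3.trans (M.diagonal s))
  have hsum : ∑ k, co al (r i) k * co al (r j) k = -2 * cc M s t := by
    rw [h.form, ← Equiv.sum_comp σ (fun k => al s k * al t k)]
    apply Finset.sum_congr rfl
    intro k _
    rw [h2, h2']
    have h5 : ε k * al s (σ k) * (ε k * al t (σ k)) = ε k ^ 2 * (al s (σ k) * al t (σ k)) := by ring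
    rw [h5, h1, one_mul]
  rw [h.short_iff σ ε h1 h2, h.short_iff σ ε h1 h2', hsum, h3]
  rw [h3] at h4
  unfold cc
  rcases h.lab s t hst with h5 | h5 | h5 | h5
  · exact absurd h5 h4
  · left
    refine ⟨h5, ?_⟩
    rw [h5, cos2]
    ring
  · right; left
    refine ⟨h5.1, h5.2, ?_⟩
    rw [h5.1, cos3]
    ring
  · right; right
    refine ⟨h5.1, h5.2, ?_⟩
    rw [h5.1, cos4]
    ring

/-- the two cases -/
theorem Cl2.cases (h : Cl2 M al S) (hr : ConfS cs p N q r) {i j : K} (hij : i ≠ j) :
    (¬ Par al r i j ∧ ∀ k, co al (r i) k * co al (r j) k ≤ 0) ∨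
      (Par al r i j ∧ N i j = 2 ∧ ¬ Short al r i ∧ ¬ Short al r j) := by
  obtain ⟨s, t, h3, -, -, -, σ, ε, h1, h2, h2'⟩ := h.pair cs hr i j
  have hst : s ≠ t := by
    rintro rfl
    exact N.off_diagonal i j hij (h3.trans (M.diagonal s))
  rcases h.sign s t hst with h5 | h5
  · left
    have hneg : ∀ k, co al (r i) k * co al (r j) k ≤ 0 := by
      intro k
      rw [h2, h2']
      have h6 : ε k * al s (σ k) * (ε k * al t (σ k)) = ε k ^ 2 * (al s (σ k) * al t (σ k)) := by
        ring
      rw [h6, h1, one_mul]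
      exact h5 _
    refine ⟨fun hp => ?_, hneg⟩
    have h6 : ∀ k, co al (r i) k * co al (r j) k = -(co al (r i) k ^ 2) := by
      intro k
      have h7 := hp k
      rcases sq_eq_sq_iff_eq_or_eq_neg.1 h7 with h8 | h8
      · have h9 := hneg k
        rw [h8] at h9 ⊢
        have h10 : 0 ≤ co al (r j) k * co al (r j) k := mul_self_nonneg _
        rw [pow_two]
        linarith
      · rw [h8]
        ring
    have h7 : ∑ k, co al (r i) k * co al (r j) k = -2 := by
      rw [Finset.sum_congr rfl fun k _ => h6 k, Finset.sum_neg_distrib, h.root_self cs hr i]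
    have h8 : √(2 : ℝ) < 2 := by
      rw [Real.sqrt_lt' (by norm_num)]
      norm_num
    rcases h.prod cs hr hij with ⟨-, h9⟩ | ⟨-, -, h9⟩ | ⟨-, -, h9⟩ <;> rw [h7] at h9
    · norm_num at h9
    · norm_num at h9
    · linarith
  · right
    refine ⟨fun k => ?_, h3.trans h5.1, ?_, ?_⟩
    · rw [h2, h2', mul_pow, mul_pow, h1, one_mul, one_mul]
      exact h5.2.2.2 _
    · rw [h.short_iff σ ε h1 h2]
      exact h5.2.1
    · rw [h.short_iff σ ε h1 h2']
      exact h5.2.2.1

/-- neighbours -/
theorem Cl2.adj_iff (h : Cl2 M al S) (hr : ConfS cs p N q r) {i j : K} (hij : ¬ Par al r i j) :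
    N i j ≠ 2 ↔ ∃ k, co al (r i) k * co al (r j) k < 0 := by
  have hne : i ≠ j := fun h' => hij (h' ▸ Par.refl i)
  have hneg : ∀ k, co al (r i) k * co al (r j) k ≤ 0 := by
    rcases h.cases cs hr hne with h1 | h1
    · exact h1.2
    · exact absurd h1.1 hij
  constructor
  · intro hN
    by_contra hcon
    push Not at hcon
    have h6 : ∀ k, co al (r i) k * co al (r j) k = 0 := fun k => le_antisymm (hneg k) (hcon k)
    have h7 : ∑ k, co al (r i) k * co al (r j) k = 0 := by
      rw [Finset.sum_congr rfl fun k _ => h6 k, Finset.sum_const_zero]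
    have h8 : 0 < √(2 : ℝ) := by positivity
    rcases h.prod cs hr hne with ⟨h9, -⟩ | ⟨-, -, h9⟩ | ⟨-, -, h9⟩
    · exact hN h9
    · rw [h7] at h9
      norm_num at h9
    · rw [h7] at h9
      linarith
  · rintro ⟨k, hk⟩ hN
    have h7 : ∑ k, co al (r i) k * co al (r j) k < 0 := by
      rw [← Finset.sum_const_zero (s := (Finset.univ : Finset I))]
      exact Finset.sum_lt_sum (fun l _ => hneg l) ⟨k, Finset.mem_univ _, hk⟩
    rcases h.prod cs hr hne with ⟨-, h9⟩ | ⟨h9, -⟩ | ⟨h9, -⟩
    · linarith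
    · omega
    · omega

/-- neighbours depend only on the classes -/
theorem Cl2.adj_congr (h : Cl2 M al S) (hr : ConfS cs p N q r) {i j i' j' : K}
    (hij : ¬ Par al r i j) (hi : Par al r i i') (hj : Par al r j j') : N i j ≠ 2 → N i' j' ≠ 2 := by
  have hij' : ¬ Par al r i' j' := fun h' => hij ((hi.trans h').trans hj.symm)
  have hne' : i' ≠ j' := fun h' => hij' (h' ▸ Par.refl i')
  rw [h.adj_iff cs hr hij, h.adj_iff cs hr hij']
  rintro ⟨k, hk⟩
  refine ⟨k, lt_of_le_of_ne ?_ ?_⟩
  · rcases h.cases cs hr hne' with h1 | h1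
    · exact h1.2 k
    · exact absurd h1.1 hij'
  · have h1 : co al (r i) k ≠ 0 := left_ne_zero_of_mul hk.ne
    have h2 : co al (r j) k ≠ 0 := right_ne_zero_of_mul hk.ne
    apply mul_ne_zero
    · intro h3
      have h4 := hi k
      rw [h3] at h4
      exact h1 (pow_eq_zero_iff (two_ne_zero) |>.1 (h4.trans (by norm_num)))
    · intro h3
      have h4 := hj k
      rw [h3] at h4
      exact h2 (pow_eq_zero_iff (two_ne_zero) |>.1 (h4.trans (by norm_num)))

/-- different neighbours share different coordinates -/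
theorem Cl2.share_ne (h : Cl2 M al S) (hr : ConfS cs p N q r) {i a b : K} (hab : ¬ Par al r a b)
    {k l : I} (hk : co al (r i) k * co al (r a) k < 0) (hl : co al (r i) l * co al (r b) l < 0) :
    k ≠ l := by
  rintro rfl
  have hne : a ≠ b := fun h' => hab (h' ▸ Par.refl a)
  have h1 : co al (r a) k * co al (r b) k ≤ 0 := by
    rcases h.cases cs hr hne with h1 | h1
    · exact h1.2 k
    · exact absurd h1.1 hab
  have h2 : 0 < (co al (r i) k * co al (r a) k) * (co al (r i) k * co al (r b) k) :=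
    mul_pos_of_neg_of_neg hk hl
  have h3 : (co al (r i) k * co al (r a) k) * (co al (r i) k * co al (r b) k) =
      co al (r i) k ^ 2 * (co al (r a) k * co al (r b) k) := by ring
  rw [h3] at h2
  have h4 : co al (r i) k ^ 2 * (co al (r a) k * co al (r b) k) ≤ 0 :=
    mul_nonpos_of_nonneg_of_nonpos (sq_nonneg _) h1
  linarith

theorem Cl2.one_le (h : Cl2 M al S) (hr : ConfS cs p N q r) (i : K) {k : I}
    (hk : co al (r i) k ≠ 0) : 1 ≤ co al (r i) k ^ 2 := by
  have h2 : co al (r i) k ^ 2 ≠ 0 := pow_ne_zero 2 hk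
  by_cases hs : Short al r i
  · rcases (h.vals cs hr i).1 hs k with h3 | h3
    · exact absurd h3 h2
    · rw [h3]; norm_num
  · rcases (h.vals cs hr i).2 hs k with h3 | h3
    · exact absurd h3 h2
    · rw [h3]

/-- at most two classes of neighbours -/
theorem Cl2.deg (h : Cl2 M al S) (hr : ConfS cs p N q r) (i a b c : K) (ha : ¬ Par al r i a)
    (hb : ¬ Par al r i b) (hc : ¬ Par al r i c) (hNa : N i a ≠ 2) (hNb : N i b ≠ 2)
    (hNc : N i c ≠ 2) : Par al r a b ∨ Par al r b c ∨ Par al r a c := by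
  classical
  by_contra hcon
  push Not at hcon
  obtain ⟨hab, hbc, hac⟩ := hcon
  obtain ⟨k, hk⟩ := (h.adj_iff cs hr ha).1 hNa
  obtain ⟨l, hl⟩ := (h.adj_iff cs hr hb).1 hNb
  obtain ⟨m, hm⟩ := (h.adj_iff cs hr hc).1 hNc
  have hkl := h.share_ne cs hr hab hk hl
  have hlm := h.share_ne cs hr hbc hl hm
  have hkm := h.share_ne cs hr hac hk hm
  have h1 := h.root_self cs hr i
  have h2 : ∑ x ∈ ({k, l, m} : Finset I), co al (r i) x ^ 2 ≤ ∑ x, co al (r i) x ^ 2 :=
    Finset.sum_le_sum_of_subset_of_nonneg (Finset.subset_univ _) fun _ _ _ => sq_nonneg _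
  rw [Finset.sum_insert (by simp [hkl, hkm]), Finset.sum_insert (by simp [hlm]),
    Finset.sum_singleton, h1] at h2
  have h3 := h.one_le cs hr i (left_ne_zero_of_mul hk.ne)
  have h4 := h.one_le cs hr i (left_ne_zero_of_mul hl.ne)
  have h5 := h.one_le cs hr i (left_ne_zero_of_mul hm.ne)
  linarith

/-- short roots, and roots with a parallel root, have at most one class of neighbours -/
theorem Cl2.deg_special (h : Cl2 M al S) (hr : ConfS cs p N q r) (i a b : K) (ha : ¬ Par al r i a)
    (hb : ¬ Par al r i b) (hNa : N i a ≠ 2) (hNb : N i b ≠ 2)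
    (hs : Short al r i ∨ ∃ j, j ≠ i ∧ Par al r i j) : Par al r a b := by
  classical
  by_contra hab
  obtain ⟨k, hk⟩ := (h.adj_iff cs hr ha).1 hNa
  obtain ⟨l, hl⟩ := (h.adj_iff cs hr hb).1 hNb
  have hkl := h.share_ne cs hr hab hk hl
  have h1 := h.root_self cs hr i
  rcases hs with hs | ⟨j, hji, hj⟩
  · have hge : ∀ k, co al (r i) k ≠ 0 → 2 ≤ co al (r i) k ^ 2 := by
      intro k hk
      have h2 : co al (r i) k ^ 2 ≠ 0 := pow_ne_zero 2 hk
      rcases (h.vals cs hr i).1 hs k with h3 | h3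
      · exact absurd h3 h2
      · rw [h3]
    have h2 : ∑ x ∈ ({k, l} : Finset I), co al (r i) x ^ 2 ≤ ∑ x, co al (r i) x ^ 2 :=
      Finset.sum_le_sum_of_subset_of_nonneg (Finset.subset_univ _) fun _ _ _ => sq_nonneg _
    rw [Finset.sum_insert (by simp [hkl]), Finset.sum_singleton, h1] at h2
    have h3 := hge k (left_ne_zero_of_mul hk.ne)
    have h4 := hge l (left_ne_zero_of_mul hl.ne)
    linarith
  · -- the product of `i` and the parallel root `j`
    have hij0 : ∑ k, co al (r i) k * co al (r j) k = 0 := by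
      rcases h.prod cs hr hji.symm with h2 | h2 | h2
      · exact h2.2
      · rcases h.cases cs hr hji.symm with h3 | h3
        · exact absurd hj h3.1
        · omega
      · rcases h.cases cs hr hji.symm with h3 | h3
        · exact absurd hj h3.1
        · omega
    -- at a shared coordinate the two have the same sign
    have hpos : ∀ (c : K) (m : I), ¬ Par al r i c → co al (r i) m * co al (r c) m < 0 →
        co al (r i) m * co al (r j) m = co al (r i) m ^ 2 := by
      intro c m hc hm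
      have hjc : ¬ Par al r j c := fun h' => hc (hj.trans h')
      have hne : j ≠ c := fun h' => hjc (h' ▸ Par.refl j)
      have h2 : co al (r j) m * co al (r c) m ≤ 0 := by
        rcases h.cases cs hr hne with h3 | h3
        · exact h3.2 m
        · exact absurd h3.1 hjc
      rcases sq_eq_sq_iff_eq_or_eq_neg.1 (hj m) with h3 | h3
      · rw [← h3]
        ring
      · exfalso
        rw [h3] at hm
        linarith
    have h2 : ∑ x ∈ ({k, l} : Finset I), (co al (r i) x * co al (r j) x + co al (r i) x ^ 2) ≤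
        ∑ x, (co al (r i) x * co al (r j) x + co al (r i) x ^ 2) := by
      refine Finset.sum_le_sum_of_subset_of_nonneg (Finset.subset_univ _) fun x _ _ => ?_
      rcases sq_eq_sq_iff_eq_or_eq_neg.1 (hj x) with h3 | h3
      · rw [← h3]
        nlinarith [sq_nonneg (co al (r i) x)]
      · have h4 : co al (r j) x = -co al (r i) x := by linarith
        rw [h4]
        nlinarith [sq_nonneg (co al (r i) x)]
    rw [Finset.sum_insert (by simp [hkl]), Finset.sum_singleton, Finset.sum_add_distrib, hij0, h1,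
      hpos a k ha hk, hpos b l hb hl] at h2
    have h3 := h.one_le cs hr i (left_ne_zero_of_mul hk.ne)
    have h4 := h.one_le cs hr i (left_ne_zero_of_mul hl.ne)
    linarith

/-- at most two roots in a class -/
theorem Cl2.par_three (h : Cl2 M al S) (hr : ConfS cs p N q r) (a b c : K) (hab : Par al r a b)
    (hac : Par al r a c) : a = b ∨ b = c ∨ a = c := by
  by_contra hcon
  push Not at hcon
  obtain ⟨h1, h2, h3⟩ := hcon
  have hz : ∀ i j : K, i ≠ j → Par al r i j → ∑ k, co al (r i) k * co al (r j) k = 0 ∧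
      ¬ Short al r i := by
    intro i j hij hp
    rcases h.cases cs hr hij with h4 | h4
    · exact absurd hp h4.1
    · refine ⟨?_, h4.2.2.1⟩
      rcases h.prod cs hr hij with h5 | h5 | h5
      · exact h5.2
      · omega
      · omega
  have hbc : Par al r b c := hab.symm.trans hac
  have e1 := (hz a b h1 hab).1
  have e2 := (hz b c h2 hbc).1
  have e3 := (hz a c h3 hac).1
  have hs := (hz a b h1 hab).2
  have s1 := h.root_self cs hr a
  have s2 := h.root_self cs hr b
  have s3 := h.root_self cs hr c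
  have hm : ∀ k, ∃ m : ℕ, (co al (r a) k + co al (r b) k + co al (r c) k) ^ 2 =
      co al (r a) k ^ 2 + 8 * m := by
    intro k
    have h4 := hab k
    have h5 := hac k
    rcases (h.vals cs hr a).2 hs k with h6 | h6
    · refine ⟨0, ?_⟩
      have h7 : co al (r a) k = 0 := pow_eq_zero_iff two_ne_zero |>.1 h6
      have h8 : co al (r b) k = 0 := pow_eq_zero_iff two_ne_zero |>.1 (h4 ▸ h6)
      have h9 : co al (r c) k = 0 := pow_eq_zero_iff two_ne_zero |>.1 (h5 ▸ h6)
      rw [h7, h8, h9]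
      norm_num
    · rcases sq_eq_sq_iff_eq_or_eq_neg.1 h4 with h7 | h7 <;>
        rcases sq_eq_sq_iff_eq_or_eq_neg.1 h5 with h8 | h8
      · refine ⟨1, ?_⟩
        rw [← h7, ← h8]
        push_cast
        linear_combination 8 * h6
      · refine ⟨0, ?_⟩
        have h9 : co al (r c) k = -co al (r a) k := by linarith
        rw [← h7, h9]
        push_cast
        ring
      · refine ⟨0, ?_⟩
        have h9 : co al (r b) k = -co al (r a) k := by linarith
        rw [← h8, h9]
        push_cast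
        ring
      · refine ⟨0, ?_⟩
        have h9 : co al (r c) k = -co al (r a) k := by linarith
        have h10 : co al (r b) k = -co al (r a) k := by linarith
        rw [h9, h10]
        push_cast
        ring
  choose m hm using hm
  have h6 : ∑ k, (co al (r a) k + co al (r b) k + co al (r c) k) ^ 2 = 6 := by
    have h7 : ∀ k, (co al (r a) k + co al (r b) k + co al (r c) k) ^ 2 =
        co al (r a) k ^ 2 + co al (r b) k ^ 2 + co al (r c) k ^ 2 +
          2 * (co al (r a) k * co al (r b) k) + 2 * (co al (r b) k * co al (r c) k) +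
          2 * (co al (r a) k * co al (r c) k) := fun k => by ring
    rw [Finset.sum_congr rfl fun k _ => h7 k]
    simp only [Finset.sum_add_distrib, ← Finset.mul_sum]
    rw [s1, s2, s3, e1, e2, e3]
    norm_num
  rw [Finset.sum_congr rfl fun k _ => hm k, Finset.sum_add_distrib, s1, ← Finset.mul_sum] at h6
  have h7 : (8 : ℝ) * ((∑ k, m k : ℕ) : ℝ) = 4 := by
    push_cast
    linarith
  have h8 : 8 * (∑ k, m k : ℕ) = 4 := by exact_mod_cast h7
  omega

end

end Pool.Agent.H53.CL
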