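import Pool.Agent.H53.CL.Path

/-!
Root systems in which the reflections permute the coordinates up to sign.
-/

set_option autoImplicit false

namespace Pool.Agent.H53.CL

open Pool.Agent.Helper741 Pool.Agent.TH107 CoxeterSystem Pool.Agent.X201.AT
open Pool.Agent.H53.VA Pool.Agent.R665.She Pool.Agent.H53.VS

/-- simple roots `al s` with coordinates `0, ±1`, and `0, ±√2` for the short roots `s ∈ S` -/
structure Cls {B I : Type} [Fintype B] [DecidableEq B] [Fintype I] (M : CoxeterMatrix B)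
    (al : B → I → ℝ) (S : Set B) : Prop where
  form : ∀ s t, -2 * cc M s t = ∑ k, al s k * al t k
  sign : ∀ s t, s ≠ t → ∀ k, al s k * al t k ≤ 0
  long : ∀ s, s ∉ S → ∀ k, al s k ^ 2 = 0 ∨ al s k ^ 2 = 1
  short : ∀ s, s ∈ S → ∀ k, al s k ^ 2 = 0 ∨ al s k ^ 2 = 2
  ref : ∀ s, ∃ (σ : Equiv.Perm I) (ε : I → ℝ), (∀ k, ε k ^ 2 = 1) ∧
    ∀ (u : I → ℝ) k, u k - (∑ m, u m * al s m) * al s k = ε k * u (σ k)
  lab : ∀ s t, s ≠ t → M s t = 0 ∨ M s t = 2 ∨ (M s t = 3 ∧ s ∉ S ∧ t ∉ S) ∨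
    (M s t = 4 ∧ (s ∈ S ∧ t ∉ S ∨ s ∉ S ∧ t ∈ S))

section

variable {B I : Type} [Fintype B] [DecidableEq B] [Fintype I] {M : CoxeterMatrix B}
variable {al : B → I → ℝ} {S : Set B}

/-- the coordinates of a vector -/
noncomputable def co (al : B → I → ℝ) (v : B → ℝ) (k : I) : ℝ := ∑ s, v s * al s k

omit [Fintype I] in
theorem co_ee (s : B) (k : I) : co al (ee s) k = al s k := by
  unfold co ee
  simp [Pi.single_apply]

theorem Cls.coroot (h : Cls M al S) (s : B) (v : B → ℝ) :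
    coroot M s v = ∑ k, co al v k * al s k := by
  rw [coroot_apply]
  unfold co
  simp only [Finset.sum_mul]
  rw [Finset.sum_comm]
  apply Finset.sum_congr rfl
  intro j _
  rw [h.form, Finset.sum_mul]
  apply Finset.sum_congr rfl
  intro k _
  ring

theorem Cls.bil (h : Cls M al S) (v w : B → ℝ) :
    bil M v w = ∑ k, co al v k * co al w k := by
  unfold Pool.Agent.Helper741.bil
  simp only [h.coroot, Finset.mul_sum]
  rw [Finset.sum_comm]
  apply Finset.sum_congr rfl
  intro k _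
  unfold co
  rw [Finset.sum_mul]
  apply Finset.sum_congr rfl
  intro s _
  ring

theorem Cls.sg (h : Cls M al S) (s : B) (v : B → ℝ) (k : I) :
    co al (sg M s v) k = co al v k - (∑ m, co al v m * al s m) * al s k := by
  have h0 : Pool.Agent.Helper741.sg M s v = v + (-(Pool.Agent.Helper741.coroot M s v)) • ee s := by
    rw [sg_apply]
    module
  rw [h0, ← h.coroot]
  unfold co
  simp only [Pi.add_apply, Pi.smul_apply, smul_eq_mul, add_mul, Finset.sum_add_distrib]
  have h1 : ∑ x, -(Pool.Agent.Helper741.coroot M s v) * ee s x * al x k =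
      -(Pool.Agent.Helper741.coroot M s v) * al s k := by
    simp [ee, Pi.single_apply]
  rw [h1]
  ring

variable {W : Type} [Group W] (cs : CoxeterSystem M W)

theorem Cls.geo (h : Cls M al S) (w : W) : ∃ (σ : Equiv.Perm I) (ε : I → ℝ), (∀ k, ε k ^ 2 = 1) ∧
    ∀ (v : B → ℝ) k, co al (geo cs w v) k = ε k * co al v (σ k) := by
  induction w using cs.simple_induction_left with
  | one => exact ⟨1, fun _ => 1, fun _ => one_pow 2, fun v k => by rw [map_one, one_mul]; rfl⟩
  | mul_simple_left w i ih =>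
    obtain ⟨σ, ε, h1, h2⟩ := ih
    obtain ⟨τ, δ, h3, h4⟩ := h.ref i
    refine ⟨τ.trans σ, fun k => δ k * ε (τ k), fun k => ?_, fun v k => ?_⟩
    · rw [mul_pow, h3, h1, one_mul]
    · rw [← geo_geo, geo_simple, h.sg, h4, h2]
      simp only [Equiv.trans_apply]
      ring

variable {p : B → ℕ} {K : Type} {N : CoxeterMatrix K} {q : K → ℕ} {r : K → (B → ℝ)}

/-- pairs in a configuration -/
theorem Cls.pair (h : Cls M al S) (hr : ConfS cs p N q r) (i j : K) :
    ∃ s t, N i j = M s t ∧ N i j ≠ 0 ∧ q i = p s ∧ q j = p t ∧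
      ∃ (σ : Equiv.Perm I) (ε : I → ℝ), (∀ k, ε k ^ 2 = 1) ∧
        (∀ k, co al (r i) k = ε k * al s (σ k)) ∧ ∀ k, co al (r j) k = ε k * al t (σ k) := by
  obtain ⟨w, s, t, h1, h2, h3, h4, h5, h6⟩ := hr i j
  obtain ⟨σ, ε, h7, h8⟩ := h.geo cs w
  refine ⟨s, t, h1, h2, h3, h4, σ, ε, h7, fun k => ?_, fun k => ?_⟩
  · rw [h5, h8, co_ee]
  · rw [h6, h8, co_ee]

/-- the root `i` is short -/
def Short (al : B → I → ℝ) (r : K → (B → ℝ)) (i : K) : Prop := ∃ k, co al (r i) k ^ 2 = 2

theorem Cls.self (h : Cls M al S) (s : B) : ∑ k, al s k ^ 2 = 2 := by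
  have h1 := h.form s s
  rw [cc_self] at h1
  have h2 : ∑ k, al s k ^ 2 = ∑ k, al s k * al s k := Finset.sum_congr rfl fun k _ => pow_two _
  rw [h2, ← h1]
  norm_num

theorem Cls.short_iff (h : Cls M al S) {i : K} {s : B} (σ : Equiv.Perm I) (ε : I → ℝ)
    (h1 : ∀ k, ε k ^ 2 = 1) (h2 : ∀ k, co al (r i) k = ε k * al s (σ k)) :
    Short al r i ↔ s ∈ S := by
  constructor
  · rintro ⟨k, hk⟩
    by_contra hs
    rw [h2, mul_pow, h1, one_mul] at hk
    rcases h.long s hs (σ k) with h3 | h3 <;> rw [h3] at hk <;> norm_num at hk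
  · intro hs
    by_contra hcon
    unfold Short at hcon
    push Not at hcon
    have h3 : ∀ k, al s k ^ 2 = 0 := by
      intro k
      refine (h.short s hs k).resolve_right fun h4 => hcon (σ.symm k) ?_
      rw [h2, mul_pow, h1, one_mul, Equiv.apply_symm_apply, h4]
    have h4 := h.self s
    rw [Finset.sum_congr rfl fun k _ => h3 k] at h4
    simp at h4

theorem Cls.root_self (h : Cls M al S) (hr : ConfS cs p N q r) (i : K) :
    ∑ k, co al (r i) k ^ 2 = 2 := by
  obtain ⟨s, t, -, -, -, -, σ, ε, h1, h2, -⟩ := h.pair cs hr i i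
  rw [← h.self s, ← Equiv.sum_comp σ (fun k => al s k ^ 2)]
  apply Finset.sum_congr rfl
  intro k _
  rw [h2, mul_pow, h1, one_mul]

/-- values of the coordinates -/
theorem Cls.vals (h : Cls M al S) (hr : ConfS cs p N q r) (i : K) :
    (Short al r i → ∀ k, co al (r i) k ^ 2 = 0 ∨ co al (r i) k ^ 2 = 2) ∧
      (¬ Short al r i → ∀ k, co al (r i) k ^ 2 = 0 ∨ co al (r i) k ^ 2 = 1) := by
  obtain ⟨s, t, -, -, -, -, σ, ε, h1, h2, -⟩ := h.pair cs hr i i
  rw [h.short_iff σ ε h1 h2]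
  constructor
  · intro hs k
    rw [h2, mul_pow, h1, one_mul]
    exact h.short s hs _
  · intro hs k
    rw [h2, mul_pow, h1, one_mul]
    exact h.long s hs _

/-- the orders -/
theorem Cls.order (h : Cls M al S) (hr : ConfS cs p N q r) (i : K) :
    ∃ s, q i = p s ∧ (Short al r i ↔ s ∈ S) := by
  obtain ⟨s, t, -, -, h3, -, σ, ε, h1, h2, -⟩ := h.pair cs hr i i
  exact ⟨s, h3, h.short_iff σ ε h1 h2⟩

theorem Cls.neg (h : Cls M al S) (hr : ConfS cs p N q r) {i j : K} (hij : i ≠ j) (k : I) :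
    co al (r i) k * co al (r j) k ≤ 0 := by
  obtain ⟨s, t, h3, -, -, -, σ, ε, h1, h2, h2'⟩ := h.pair cs hr i j
  have hst : s ≠ t := by
    rintro rfl
    exact N.off_diagonal i j hij (h3.trans (M.diagonal s))
  rw [h2, h2']
  have h4 : ε k * al s (σ k) * (ε k * al t (σ k)) = ε k ^ 2 * (al s (σ k) * al t (σ k)) := by ring
  rw [h4, h1, one_mul]
  exact h.sign s t hst _

/-- labels -/
theorem Cls.label (h : Cls M al S) (hr : ConfS cs p N q r) {i j : K} (hij : i ≠ j)
    (hN : N i j ≠ 2) : (N i j = 3 ∧ ¬ Short al r i ∧ ¬ Short al r j) ∨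
      (N i j = 4 ∧ (Short al r i ∧ ¬ Short al r j ∨ ¬ Short al r i ∧ Short al r j)) := by
  obtain ⟨s, t, h3, h4, -, -, σ, ε, h1, h2, h2'⟩ := h.pair cs hr i j
  have hst : s ≠ t := by
    rintro rfl
    exact N.off_diagonal i j hij (h3.trans (M.diagonal s))
  rw [h.short_iff σ ε h1 h2, h.short_iff σ ε h1 h2', h3]
  rw [h3] at h4 hN
  rcases h.lab s t hst with h5 | h5 | h5 | h5
  · exact absurd h5 h4
  · exact absurd h5 hN
  · exact Or.inl h5
  · exact Or.inr h5

/-- neighbours share a coordinate -/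
theorem Cls.share (h : Cls M al S) (hr : ConfS cs p N q r) {i j : K} (hij : i ≠ j)
    (hN : N i j ≠ 2) : ∃ k, co al (r i) k * co al (r j) k < 0 := by
  obtain ⟨s, t, h3, h4, -, -, σ, ε, h1, h2, h2'⟩ := h.pair cs hr i j
  have hst : s ≠ t := by
    rintro rfl
    exact N.off_diagonal i j hij (h3.trans (M.diagonal s))
  by_contra hcon
  push Not at hcon
  have h6 : ∀ k, al s k * al t k = 0 := by
    intro k
    apply le_antisymm (h.sign s t hst k)
    have h7 := hcon (σ.symm k)
    rw [h2, h2', Equiv.apply_symm_apply] at h7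
    have h8 : ε (σ.symm k) * al s k * (ε (σ.symm k) * al t k) =
      ε (σ.symm k) ^ 2 * (al s k * al t k) := by ring
    rwa [h8, h1, one_mul] at h7
  have h7 := h.form s t
  rw [Finset.sum_congr rfl fun k _ => h6 k, Finset.sum_const_zero] at h7
  have h8 : cc M s t = 0 := by linarith
  rw [h3] at h4 hN
  unfold cc at h8
  rcases h.lab s t hst with h5 | h5 | h5 | h5
  · exact h4 h5
  · exact hN h5
  · rw [h5.1] at h8
    have h9 : Real.cos (Real.pi / ((3 : ℕ) : ℝ)) = 1 / 2 := by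
      push_cast
      exact Real.cos_pi_div_three
    rw [h9] at h8
    norm_num at h8
  · rw [h5.1] at h8
    have h9 : Real.cos (Real.pi / ((4 : ℕ) : ℝ)) = √2 / 2 := by
      push_cast
      exact Real.cos_pi_div_four
    rw [h9] at h8
    have h10 : (0 : ℝ) < √2 := by positivity
    linarith

/-- different neighbours share different coordinates -/
theorem Cls.share_ne (h : Cls M al S) (hr : ConfS cs p N q r) {i a b : K} (hab : a ≠ b)
    {k l : I} (hk : co al (r i) k * co al (r a) k < 0) (hl : co al (r i) l * co al (r b) l < 0) :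
    k ≠ l := by
  rintro rfl
  have h1 := h.neg cs hr hab k
  have h2 : 0 < (co al (r i) k * co al (r a) k) * (co al (r i) k * co al (r b) k) :=
    mul_pos_of_neg_of_neg hk hl
  have h3 : (co al (r i) k * co al (r a) k) * (co al (r i) k * co al (r b) k) =
      co al (r i) k ^ 2 * (co al (r a) k * co al (r b) k) := by ring
  rw [h3] at h2
  have h4 : co al (r i) k ^ 2 * (co al (r a) k * co al (r b) k) ≤ 0 :=
    mul_nonpos_of_nonneg_of_nonpos (sq_nonneg _) h1
  linarith

/-- at most two neighbours -/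
theorem Cls.deg (h : Cls M al S) (hr : ConfS cs p N q r) (i a b c : K) (ha : i ≠ a) (hb : i ≠ b)
    (hc : i ≠ c) (hNa : N i a ≠ 2) (hNb : N i b ≠ 2) (hNc : N i c ≠ 2) :
    a = b ∨ b = c ∨ a = c := by
  classical
  by_contra hcon
  push Not at hcon
  obtain ⟨hab, hbc, hac⟩ := hcon
  obtain ⟨k, hk⟩ := h.share cs hr ha hNa
  obtain ⟨l, hl⟩ := h.share cs hr hb hNb
  obtain ⟨m, hm⟩ := h.share cs hr hc hNc
  have hkl := h.share_ne cs hr hab hk hl
  have hlm := h.share_ne cs hr hbc hl hm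
  have hkm := h.share_ne cs hr hac hk hm
  have h1 := h.root_self cs hr i
  have hge : ∀ k, co al (r i) k ≠ 0 → 1 ≤ co al (r i) k ^ 2 := by
    intro k hk
    have h2 : co al (r i) k ^ 2 ≠ 0 := pow_ne_zero 2 hk
    by_cases hs : Short al r i
    · rcases (h.vals cs hr i).1 hs k with h3 | h3
      · exact absurd h3 h2
      · rw [h3]; norm_num
    · rcases (h.vals cs hr i).2 hs k with h3 | h3
      · exact absurd h3 h2
      · rw [h3]
  have h2 : ∑ x ∈ ({k, l, m} : Finset I), co al (r i) x ^ 2 ≤ ∑ x, co al (r i) x ^ 2 :=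
    Finset.sum_le_sum_of_subset_of_nonneg (Finset.subset_univ _) fun _ _ _ => sq_nonneg _
  rw [Finset.sum_insert (by simp [hkl, hkm]), Finset.sum_insert (by simp [hlm]),
    Finset.sum_singleton, h1] at h2
  have h3 := hge k (left_ne_zero_of_mul hk.ne)
  have h4 := hge l (left_ne_zero_of_mul hl.ne)
  have h5 := hge m (left_ne_zero_of_mul hm.ne)
  linarith

/-- short roots have at most one neighbour -/
theorem Cls.deg_short (h : Cls M al S) (hr : ConfS cs p N q r) (i a b : K) (ha : i ≠ a)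
    (hb : i ≠ b) (hNa : N i a ≠ 2) (hNb : N i b ≠ 2) (hs : Short al r i) : a = b := by
  classical
  by_contra hab
  obtain ⟨k, hk⟩ := h.share cs hr ha hNa
  obtain ⟨l, hl⟩ := h.share cs hr hb hNb
  have hkl := h.share_ne cs hr hab hk hl
  have h1 := h.root_self cs hr i
  have hge : ∀ k, co al (r i) k ≠ 0 → 2 ≤ co al (r i) k ^ 2 := by
    intro k hk
    have h2 : co al (r i) k ^ 2 ≠ 0 := pow_ne_zero 2 hk
    rcases (h.vals cs hr i).1 hs k with h3 | h3
    · exact absurd h3 h2
    · rw [h3]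
  have h2 : ∑ x ∈ ({k, l} : Finset I), co al (r i) x ^ 2 ≤ ∑ x, co al (r i) x ^ 2 :=
    Finset.sum_le_sum_of_subset_of_nonneg (Finset.subset_univ _) fun _ _ _ => sq_nonneg _
  rw [Finset.sum_insert (by simp [hkl]), Finset.sum_singleton, h1] at h2
  have h3 := hge k (left_ne_zero_of_mul hk.ne)
  have h4 := hge l (left_ne_zero_of_mul hl.ne)
  linarith

end

end Pool.Agent.H53.CL
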