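import Mathlib

/-!
The Coxeter matrices of the classical affine types and of type `D`, and the orders.
-/

set_option autoImplicit false

namespace Pool.Agent.H53.CL

/-- the vertices of the affine diagrams of classical type: a path `0, …, n`, and a second copy of the
vertex `0` if `a = true`, of the vertex `n` if `b = true` -/
abbrev ClV (n : ℕ) (a b : Bool) : Type :=
  {v : Fin (n + 1) × Bool // v.2 = false ∨ ((v.1 : ℕ) = 0 ∧ a = true) ∨ ((v.1 : ℕ) = n ∧ b = true)}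

/-- the affine diagrams of classical type: the edges of the path have the label `3`, but the edge at
the end `0` has the label `4` if `a = false`, the edge at the end `n` if `b = false`. The second copies
of the ends have the same neighbours as the ends, and the label `2` with them. Type affine `C_n` for
`a = b = false`, affine `B_{n+1}` for `a ≠ b`, and affine `D_{n+2}` for `a = b = true` -/
def cla (n : ℕ) (a b : Bool) : CoxeterMatrix (ClV n a b) where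
  M := fun v w => if v = w then 1 else
    if (v.1.1 : ℕ) + 1 = w.1.1 ∨ (w.1.1 : ℕ) + 1 = v.1.1 then
      (if (((v.1.1 : ℕ) = 0 ∨ (w.1.1 : ℕ) = 0) ∧ a = false) ∨
        (((v.1.1 : ℕ) = n ∨ (w.1.1 : ℕ) = n) ∧ b = false) then 4 else 3) else 2
  isSymm := by
    ext v w
    show (if w = v then 1 else
    if (w.1.1 : ℕ) + 1 = v.1.1 ∨ (v.1.1 : ℕ) + 1 = w.1.1 then
      (if (((w.1.1 : ℕ) = 0 ∨ (v.1.1 : ℕ) = 0) ∧ a = false) ∨
        (((w.1.1 : ℕ) = n ∨ (v.1.1 : ℕ) = n) ∧ b = false) then 4 else 3) else 2) =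
      (if v = w then 1 else
    if (v.1.1 : ℕ) + 1 = w.1.1 ∨ (w.1.1 : ℕ) + 1 = v.1.1 then
      (if (((v.1.1 : ℕ) = 0 ∨ (w.1.1 : ℕ) = 0) ∧ a = false) ∨
        (((v.1.1 : ℕ) = n ∨ (w.1.1 : ℕ) = n) ∧ b = false) then 4 else 3) else 2)
    have e1 : (w = v) ↔ (v = w) := ⟨Eq.symm, Eq.symm⟩
    have e2 : ((w.1.1 : ℕ) + 1 = v.1.1 ∨ (v.1.1 : ℕ) + 1 = w.1.1) ↔
      ((v.1.1 : ℕ) + 1 = w.1.1 ∨ (w.1.1 : ℕ) + 1 = v.1.1) := or_comm
    have e3 : ((w.1.1 : ℕ) = 0 ∨ (v.1.1 : ℕ) = 0) ↔ ((v.1.1 : ℕ) = 0 ∨ (w.1.1 : ℕ) = 0) := or_comm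
    have e4 : ((w.1.1 : ℕ) = n ∨ (v.1.1 : ℕ) = n) ↔ ((v.1.1 : ℕ) = n ∨ (w.1.1 : ℕ) = n) := or_comm
    simp only [e1, e2, e3, e4]
  diagonal := fun i => if_pos rfl
  off_diagonal := fun v w h => by
    show (if v = w then 1 else
    if (v.1.1 : ℕ) + 1 = w.1.1 ∨ (w.1.1 : ℕ) + 1 = v.1.1 then
      (if (((v.1.1 : ℕ) = 0 ∨ (w.1.1 : ℕ) = 0) ∧ a = false) ∨
        (((v.1.1 : ℕ) = n ∨ (w.1.1 : ℕ) = n) ∧ b = false) then 4 else 3) else 2) ≠ 1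
    rw [if_neg h]
    split_ifs <;> norm_num

theorem cla_apply (n : ℕ) (a b : Bool) (v w : ClV n a b) : cla n a b v w = if v = w then 1 else
    if (v.1.1 : ℕ) + 1 = w.1.1 ∨ (w.1.1 : ℕ) + 1 = v.1.1 then
      (if (((v.1.1 : ℕ) = 0 ∨ (w.1.1 : ℕ) = 0) ∧ a = false) ∨
        (((v.1.1 : ℕ) = n ∨ (w.1.1 : ℕ) = n) ∧ b = false) then 4 else 3) else 2 := rfl

/-- orders: `c` for the long roots, `e` and `e'` at the ends which are short roots -/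
def ordCl (n : ℕ) (a b : Bool) (c e e' : ℕ) (v : ClV n a b) : ℕ :=
  if (v.1.1 : ℕ) = 0 ∧ a = false then e else if (v.1.1 : ℕ) = n ∧ b = false then e' else c

/-- orders in type `B` -/
def ordB (n c c₁ : ℕ) (i : Fin n) : ℕ := if (i : ℕ) + 1 = n then c₁ else c

/-- the Coxeter matrix of type `D_k`: the path `0, …, k - 2`, with the vertex `k - 1` joined to
`k - 3` -/
def typeD (k : ℕ) : CoxeterMatrix (Fin k) where
  M := fun i j => if i = j then 1 else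
    if ((i : ℕ) + 1 = j ∧ (j : ℕ) + 1 < k) ∨ ((j : ℕ) + 1 = i ∧ (i : ℕ) + 1 < k) ∨
      ((i : ℕ) + 2 = j ∧ (j : ℕ) + 1 = k) ∨ ((j : ℕ) + 2 = i ∧ (i : ℕ) + 1 = k) then 3 else 2
  isSymm := by
    ext i j
    show (if j = i then 1 else
    if ((j : ℕ) + 1 = i ∧ (i : ℕ) + 1 < k) ∨ ((i : ℕ) + 1 = j ∧ (j : ℕ) + 1 < k) ∨
      ((j : ℕ) + 2 = i ∧ (i : ℕ) + 1 = k) ∨ ((i : ℕ) + 2 = j ∧ (j : ℕ) + 1 = k) then 3 else 2) =
      (if i = j then 1 else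
    if ((i : ℕ) + 1 = j ∧ (j : ℕ) + 1 < k) ∨ ((j : ℕ) + 1 = i ∧ (i : ℕ) + 1 < k) ∨
      ((i : ℕ) + 2 = j ∧ (j : ℕ) + 1 = k) ∨ ((j : ℕ) + 2 = i ∧ (i : ℕ) + 1 = k) then 3 else 2)
    by_cases h : i = j
    · rw [if_pos h, if_pos h.symm]
    · rw [if_neg h, if_neg (Ne.symm h)]
      by_cases h1 : ((i : ℕ) + 1 = j ∧ (j : ℕ) + 1 < k) ∨ ((j : ℕ) + 1 = i ∧ (i : ℕ) + 1 < k) ∨
        ((i : ℕ) + 2 = j ∧ (j : ℕ) + 1 = k) ∨ ((j : ℕ) + 2 = i ∧ (i : ℕ) + 1 = k)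
      · rw [if_pos h1, if_pos (by omega)]
      · rw [if_neg h1, if_neg (by omega)]
  diagonal := fun i => if_pos rfl
  off_diagonal := fun i j h => by
    show (if i = j then 1 else
    if ((i : ℕ) + 1 = j ∧ (j : ℕ) + 1 < k) ∨ ((j : ℕ) + 1 = i ∧ (i : ℕ) + 1 < k) ∨
      ((i : ℕ) + 2 = j ∧ (j : ℕ) + 1 = k) ∨ ((j : ℕ) + 2 = i ∧ (i : ℕ) + 1 = k) then 3 else 2) ≠ 1
    rw [if_neg h]
    split_ifs <;> norm_num

end Pool.Agent.H53.CL
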