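import Pool.Agent.H53.CL.FCls2
import Pool.Agent.H53.CL.ECls

/-!
Virtual Shephard groups of classical affine types in classes closed under extensions.
-/

set_option autoImplicit false

namespace Pool.Agent.H53.CL.E

open Pool.Agent.Helper741 Pool.Agent.TH107 CoxeterSystem Pool.Agent.X201.AT
open Pool.Agent.H53.VA Pool.Agent.R665.She Pool.Agent.H53.VS
open Pool.Agent.R779.BC (ExtCl ext_hom)

variable {C : ∀ (G : Type) [Group G], Prop} (hC : ExtCl C)
variable (hcox : ∀ (B : Type) [Finite B] (M : CoxeterMatrix B), C M.Group)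

include hC hcox

/-- **general criterion** -/
theorem vs_cl2 {B I : Type} [Fintype B] [DecidableEq B] [Fintype I] {M : CoxeterMatrix B}
    {al : B → I → ℝ} {S : Set B} (h : Cl2 M al S) {p : B → ℕ} (hg : Good M p) (c : ℕ) (hc : Even c)
    (E : Set ℕ) (hE : ∀ e ∈ E, Even e) (hne : E.Nonempty) (hp : ∀ s, s ∉ S → p s = c)
    (hp' : ∀ s, s ∈ S → p s ∈ E) (hcyc : ∀ n : ℕ, 3 ≤ n → C (Sh (cyc n) fun _ => c))
    (hcla : ∀ (n : ℕ) (a b : Bool), 1 ≤ n → (a = true ∨ b = true ∨ 2 ≤ n) →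
      (a = false → S.Nonempty) → (b = false → S.Nonempty) →
      (a = false → b = false → ¬ S.Subsingleton) →
      ∀ e ∈ E, ∀ e' ∈ E, C (Sh (cla n a b) (ordCl n a b c e e'))) :
    C (VirtualShephard M p) := by
  rw [Pool.Agent.H53.VS.E.vs_conf _ hC hcox hg]
  intro K _ N q r hr hI
  rcases h.emb_cla _ c hc E hE hne hp hp' hr hI with ⟨m, h3, f, hf⟩ |
    ⟨n, a, b, h1, h2, h3, h4, h5, e, he, e', he', f, hf⟩
  · exact hC.sub _ _ f hf (hcyc m h3)
  · exact hC.sub _ _ f hf (hcla n a b h1 h2 h3 h4 h5 e he e' he')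

/-- **no short roots** -/
theorem vs_cl2_D {B I : Type} [Fintype B] [DecidableEq B] [Fintype I] {M : CoxeterMatrix B}
    {al : B → I → ℝ} (h : Cl2 M al ∅) (c : ℕ) (hc : Even c)
    (hcyc : ∀ n : ℕ, 3 ≤ n → C (Sh (cyc n) fun _ => c))
    (hD : ∀ n : ℕ, 1 ≤ n → C (Sh (cla n true true) fun _ => c)) :
    C (VirtualShephard M fun _ => c) := by
  refine vs_cl2 hC hcox h ⟨fun _ => hc, fun _ _ _ => rfl⟩ c hc {c}
    (fun e he => by rw [Set.mem_singleton_iff.1 he]; exact hc) ⟨c, rfl⟩ (fun _ _ => rfl)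
    (fun _ _ => rfl) hcyc ?_
  intro n a b hn _ ha hb _ e he e' he'
  have ha' : a = true := by
    by_contra h1
    exact Set.not_nonempty_empty (ha (by simpa using h1))
  have hb' : b = true := by
    by_contra h1
    exact Set.not_nonempty_empty (hb (by simpa using h1))
  subst ha' hb'
  rw [ordCl_tt']
  exact hD n hn

/-- **one short root** -/
theorem vs_cl2_B {B I : Type} [Fintype B] [DecidableEq B] [Fintype I] {M : CoxeterMatrix B}
    {al : B → I → ℝ} {S : Set B} (h : Cl2 M al S) (hS : S.Subsingleton) {p : B → ℕ}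
    (hg : Good M p) (c e : ℕ) (hc : Even c)
    (he : Even e) (hp : ∀ s, s ∉ S → p s = c) (hp' : ∀ s, s ∈ S → p s = e)
    (hcyc : ∀ n : ℕ, 3 ≤ n → C (Sh (cyc n) fun _ => c))
    (hD : ∀ n : ℕ, 1 ≤ n → C (Sh (cla n true true) fun _ => c))
    (hB : ∀ n : ℕ, 1 ≤ n → C (Sh (cla n true false) (ordCl n true false c e e))) :
    C (VirtualShephard M p) := by
  refine vs_cl2 hC hcox h hg c hc {e}
    (fun u hu => by rw [Set.mem_singleton_iff.1 hu]; exact he) ⟨e, rfl⟩ hp
    (fun s hs => hp' s hs) hcyc ?_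
  intro n a b hn _ ha hb hab u hu v hv
  rw [Set.mem_singleton_iff.1 hu, Set.mem_singleton_iff.1 hv]
  cases a <;> cases b
  · exact absurd hS (hab rfl rfl)
  · obtain ⟨f, hf⟩ := emb_rev n hn false true c e e hc he he
    exact hC.sub _ _ f hf (hB n hn)
  · exact hB n hn
  · rw [ordCl_tt']
    exact hD n hn

/-- a cycle from a diagram -/
theorem cyc_of_cla (c e e' : ℕ) (hc : Even c) (he : Even e) (he' : Even e') (m : ℕ) (hm : 2 ≤ m)
    (a b : Bool)
    (h : C (VirtualShephard (cla (m + 1) a b) (ordCl (m + 1) a b c e e'))) :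
    C (Sh (cyc (m + 1)) fun _ => c) := by
  refine cyc_of_par hC hcox (good_cla (m + 1) a b c e e' hc he he') m c hc hm
    (fun s => ⟨(s.succ.castSucc, false), Or.inl rfl⟩) (fun s t => ?_) (fun s => ?_) h
  · have hs := s.2
    have ht := t.2
    rw [cla_apply, A_apply]
    simp only [Fin.val_castSucc, Fin.val_succ]
    by_cases h1 : s = t
    · rw [if_pos (by rw [h1]), if_pos h1]
    · rw [if_neg, if_neg h1]
      · by_cases h2 : (t : ℕ) + 1 = s ∨ (s : ℕ) + 1 = t
        · rw [if_pos h2, if_pos (by omega), if_neg (by omega)]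
        · rw [if_neg h2, if_neg (by omega)]
      · intro h2
        have h3 := congrArg (fun v : ClV (m + 1) a b => (v.1.1 : ℕ)) h2
        simp only [Fin.val_castSucc, Fin.val_succ] at h3
        omega
  · have hs := s.2
    unfold ordCl
    simp only [Fin.val_castSucc, Fin.val_succ]
    rw [if_neg (by omega), if_neg (by omega)]

/-- **type affine `D`** -/
theorem vs_D_iff (c : ℕ) (hc : Even c) :
    (∀ n : ℕ, 1 ≤ n → C (VirtualShephard (cla n true true) fun _ => c)) ↔
      (∀ n : ℕ, 3 ≤ n → C (Sh (cyc n) fun _ => c)) ∧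
        ∀ n : ℕ, 1 ≤ n → C (Sh (cla n true true) fun _ => c) := by
  refine ⟨fun h => ⟨fun n hn => ?_, fun n hn => ?_⟩, fun h n hn => ?_⟩
  · obtain ⟨m, rfl⟩ := Nat.exists_eq_add_of_le' (by omega : 1 ≤ n)
    refine cyc_of_cla hC hcox c c c hc hc hc m (by omega) true true ?_
    rw [ordCl_tt']
    exact h _ (by omega)
  · have hg := good_cla n true true c c c hc hc hc
    rw [ordCl_tt'] at hg
    exact Pool.Agent.H53.VS.E.sh_of_vs _ hC hcox hg (h n hn)
  · have h1 := clD (n := n) (a := true) (b := true) hn (Or.inl rfl)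
    rw [shS_tt] at h1
    exact vs_cl2_D hC hcox h1 c hc h.1 h.2

/-- **type affine `B`** -/
theorem vs_affB (c e : ℕ) (hc : Even c) (he : Even e)
    (hcyc : ∀ n : ℕ, 3 ≤ n → C (Sh (cyc n) fun _ => c))
    (hD : ∀ n : ℕ, 1 ≤ n → C (Sh (cla n true true) fun _ => c))
    (hB : ∀ n : ℕ, 1 ≤ n → C (Sh (cla n true false) (ordCl n true false c e e))) (n : ℕ)
    (hn : 1 ≤ n) : C (VirtualShephard (cla n true false) (ordCl n true false c e e)) := by
  refine vs_cl2_B hC hcox (clD (n := n) (a := true) (b := false) hn (Or.inl rfl)) ?_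
    (good_cla n true false c e e hc he he) c e hc he ?_ ?_ hcyc hD hB
  · rintro v (⟨hv, hv'⟩ | ⟨hv, hv'⟩) w (⟨hw, hw'⟩ | ⟨hw, hw'⟩)
    · exact absurd hv' (by decide)
    · exact absurd hv' (by decide)
    · exact absurd hw' (by decide)
    · apply Subtype.ext
      apply Prod.ext
      · exact Fin.ext (hv.trans hw.symm)
      · have key : ∀ u : ClV n true false, (u.1.1 : ℕ) = n → u.1.2 = false := by
          intro u hu
          rcases u.2 with h1 | ⟨h1, -⟩ | ⟨-, h1⟩
          · exact h1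
          · omega
          · exact absurd h1 (by decide)
        rw [key v hv, key w hw]
  · intro v hv
    unfold ordCl
    rw [if_neg fun h => hv (Or.inl h), if_neg fun h => hv (Or.inr h)]
  · rintro v (⟨hv, hv'⟩ | ⟨hv, hv'⟩)
    · exact absurd hv' (by decide)
    · unfold ordCl
      by_cases h1 : (v.1.1 : ℕ) = 0 ∧ true = false
      · exact absurd h1.2 (by decide)
      · rw [if_neg h1, if_pos ⟨hv, rfl⟩]

/-- **all classical affine types together** -/
theorem vs_all (c : ℕ) (hc : Even c) (E : Set ℕ) (hE : ∀ e ∈ E, Even e) (hne : E.Nonempty)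
    (hcyc : ∀ n : ℕ, 3 ≤ n → C (Sh (cyc n) fun _ => c))
    (hcla : ∀ (n : ℕ) (a b : Bool), 1 ≤ n → (a = true ∨ b = true ∨ 2 ≤ n) →
      ∀ e ∈ E, ∀ e' ∈ E, C (Sh (cla n a b) (ordCl n a b c e e')))
    (n : ℕ) (a b : Bool) (hn : 1 ≤ n) (hv : a = true ∨ b = true ∨ 2 ≤ n) (e : ℕ) (he : e ∈ E)
    (e' : ℕ) (he' : e' ∈ E) : C (VirtualShephard (cla n a b) (ordCl n a b c e e')) := by
  refine vs_cl2 hC hcox (clD hn hv) (good_cla n a b c e e' hc (hE e he) (hE e' he')) c hc E hE
    hne ?_ ?_ hcyc fun n a b h1 h2 _ _ _ => hcla n a b h1 h2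
  · intro v hv
    unfold ordCl
    rw [if_neg fun h => hv (Or.inl h), if_neg fun h => hv (Or.inr h)]
  · intro v hv
    unfold ordCl
    by_cases h1 : (v.1.1 : ℕ) = 0 ∧ a = false
    · rw [if_pos h1]
      exact he
    · rw [if_neg h1, if_pos (hv.resolve_left h1)]
      exact he'

end Pool.Agent.H53.CL.E
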