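import Pool.Agent.H53.CL.FTypeD
import Pool.Agent.H53.CL.ECls2

/-!
Virtual Shephard groups of type `D`, and of all classical types, in classes closed under extensions.
-/

set_option autoImplicit false

namespace Pool.Agent.H53.CL.E

open Pool.Agent.Helper741 Pool.Agent.TH107 CoxeterSystem Pool.Agent.X201.AT
open Pool.Agent.H53.VA Pool.Agent.R665.She Pool.Agent.H53.VS
open Pool.Agent.R779.BC (ExtCl ext_hom)

variable {C : ∀ (G : Type) [Group G], Prop} (hC : ExtCl C)
variable (hcox : ∀ (B : Type) [Finite B] (M : CoxeterMatrix B), C M.Group)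

include hC hcox

omit hcox in
theorem hD_one {c : ℕ} (hc : Even c) (hcyc : ∀ n : ℕ, 3 ≤ n → C (Sh (cyc n) fun _ => c))
    (hD : ∀ n : ℕ, 2 ≤ n → C (Sh (cla n true true) fun _ => c)) (n : ℕ) (hn : 1 ≤ n) :
    C (Sh (cla n true true) fun _ => c) := by
  by_cases h : 2 ≤ n
  · exact hD n h
  · have h1 : n = 1 := by omega
    subst h1
    obtain ⟨f, hf⟩ := emb_one c hc
    exact hC.sub _ _ f hf (hcyc 4 (by norm_num))

/-- the affine group of type `D` from the finite type -/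
theorem affD_of_typeD (c : ℕ) (hc : Even c) (m : ℕ) (hm : 2 ≤ m)
    (h : C (VirtualShephard (typeD (m + 2)) fun _ => c)) : C (Sh (cla m true true) fun _ => c) := by
  obtain ⟨r, hr⟩ := affD_conf hm (typeD (m + 2)).toCoxeterSystem c
  exact Pool.Agent.H53.VS.E.sh_of_conf (fun _ => c) hC hcox ⟨fun _ => hc, fun _ _ _ => rfl⟩ h _ _ r hr

/-- **type `D`** -/
theorem vs_typeD_iff (c : ℕ) (hc : Even c) :
    (∀ k : ℕ, 4 ≤ k → C (VirtualShephard (typeD k) fun _ => c)) ↔
      (∀ n : ℕ, 3 ≤ n → C (Sh (cyc n) fun _ => c)) ∧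
        ∀ n : ℕ, 2 ≤ n → C (Sh (cla n true true) fun _ => c) := by
  refine ⟨fun h => ⟨fun n hn => ?_, fun n hn => affD_of_typeD hC hcox c hc n hn (h _ (by omega))⟩,
    fun h k hk => ?_⟩
  · obtain ⟨m, rfl⟩ := Nat.exists_eq_add_of_le' (by omega : 1 ≤ n)
    refine cyc_of_par hC hcox (p := fun _ => c) ⟨fun _ => hc, fun _ _ _ => rfl⟩ m c hc (by omega)
      (fun s => s.castSucc.castSucc) (fun s t => ?_) (fun _ => rfl) (h (m + 2) (by omega))
    have hs := s.2
    have ht := t.2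
    rw [typeD_apply, A_apply]
    simp only [Fin.castSucc_inj, Fin.val_castSucc]
    by_cases h1 : s = t
    · rw [if_pos h1, if_pos h1]
    · rw [if_neg h1, if_neg h1]
      by_cases h2 : (t : ℕ) + 1 = s ∨ (s : ℕ) + 1 = t
      · rw [if_pos h2, if_pos (by omega)]
      · rw [if_neg h2, if_neg (by omega)]
  · obtain ⟨m, rfl⟩ := Nat.exists_eq_add_of_le' (by omega : 2 ≤ k)
    exact vs_cl2_D hC hcox (cl2T m (by omega)) c hc h.1 (hD_one hC hc h.1 h.2)

/-- **type affine `D`** -/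
theorem vs_affD_iff (c : ℕ) (hc : Even c) :
    (∀ n : ℕ, 2 ≤ n → C (VirtualShephard (cla n true true) fun _ => c)) ↔
      (∀ n : ℕ, 3 ≤ n → C (Sh (cyc n) fun _ => c)) ∧
        ∀ n : ℕ, 2 ≤ n → C (Sh (cla n true true) fun _ => c) := by
  refine ⟨fun h => ⟨fun n hn => ?_, fun n hn => ?_⟩, fun h n hn => ?_⟩
  · obtain ⟨m, rfl⟩ := Nat.exists_eq_add_of_le' (by omega : 1 ≤ n)
    refine cyc_of_cla hC hcox c c c hc hc hc m (by omega) true true ?_
    rw [ordCl_tt']
    exact h _ (by omega)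
  · have hg := good_cla n true true c c c hc hc hc
    rw [ordCl_tt'] at hg
    exact Pool.Agent.H53.VS.E.sh_of_vs _ hC hcox hg (h n hn)
  · have h1 := clD (n := n) (a := true) (b := true) (by omega) (Or.inl rfl)
    rw [shS_tt] at h1
    exact vs_cl2_D hC hcox h1 c hc h.1 (hD_one hC hc h.1 h.2)

/-- **type affine `B`** -/
theorem vs_affB_iff (c e : ℕ) (hc : Even c) (he : Even e) :
    (∀ n : ℕ, 1 ≤ n → C (VirtualShephard (cla n true false) (ordCl n true false c e e))) ↔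
      (∀ n : ℕ, 3 ≤ n → C (Sh (cyc n) fun _ => c)) ∧
        (∀ n : ℕ, 2 ≤ n → C (Sh (cla n true true) fun _ => c)) ∧
          ∀ n : ℕ, 1 ≤ n → C (Sh (cla n true false) (ordCl n true false c e e)) := by
  refine ⟨fun h => ⟨fun n hn => ?_, fun n hn => ?_, fun n hn => ?_⟩,
    fun h n hn => vs_affB hC hcox c e hc he h.1 (hD_one hC hc h.1 h.2.1) h.2.2 n hn⟩
  · obtain ⟨m, rfl⟩ := Nat.exists_eq_add_of_le' (by omega : 1 ≤ n)
    exact cyc_of_cla hC hcox c e e hc he he m (by omega) true false (h _ (by omega))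
  · refine affD_of_typeD hC hcox c hc n hn (vs_par hC hcox (hD n false) (hD_lab n false)
      (p := ordCl (n + 1) true false c e e) (p' := fun _ => c) (fun s => ?_)
      (good_cla _ _ _ _ _ _ hc he he) ⟨fun _ => hc, fun _ _ _ => rfl⟩ (h (n + 1) (by omega)))
    unfold ordCl
    rw [hD_val, if_neg fun h => absurd h.2 (by decide), if_neg (by omega)]
  · exact Pool.Agent.H53.VS.E.sh_of_vs _ hC hcox (good_cla _ _ _ _ _ _ hc he he) (h n hn)

/-- **type affine `C`** -/
theorem vs_affC_iff' (c : ℕ) (hc : Even c) (E : Set ℕ) (hE : ∀ e ∈ E, Even e) (hne : E.Nonempty) :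
    (∀ n : ℕ, 2 ≤ n → ∀ e ∈ E, ∀ e' ∈ E,
      C (VirtualShephard (cla n false false) (ordCl n false false c e e'))) ↔
      (∀ n : ℕ, 3 ≤ n → C (Sh (cyc n) fun _ => c)) ∧
        ∀ n : ℕ, 2 ≤ n → ∀ e ∈ E, ∀ e' ∈ E,
          C (Sh (cla n false false) (ordCl n false false c e e')) := by
  refine ⟨fun h => ⟨fun n hn => ?_, fun n hn e he e' he' => ?_⟩, fun h n hn e he e' he' => ?_⟩
  · obtain ⟨m, rfl⟩ := Nat.exists_eq_add_of_le' (by omega : 1 ≤ n)
    obtain ⟨e, he⟩ := hne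
    exact cyc_of_cla hC hcox c e e hc (hE e he) (hE e he) m (by omega) false false
      (h _ (by omega) e he e he)
  · exact Pool.Agent.H53.VS.E.sh_of_vs _ hC hcox
      (good_cla _ _ _ _ _ _ hc (hE e he) (hE e' he')) (h n hn e he e' he')
  · have h1 := vs_affC hC hcox c hc E hE h.1 (fun n hn e he e' he' => by
      obtain ⟨f, hf⟩ := emb_C1 n c e e' hc (hE e he) (hE e' he')
      exact hC.sub _ _ f hf (h.2 n hn e he e' he')) n hn e he e' he'
    exact vs_par hC hcox (fun v : ClV n false false => v.1.1)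
      (fun v w => by rw [← gC_lab, gC_surj, gC_surj]) (fun v => by rw [← gC_ord, gC_surj])
      (good_C n e c e' (hE e he) hc (hE e' he'))
      (good_cla n false false c e e' hc (hE e he) (hE e' he')) h1

/-- **all classical types** -/
theorem artin_all (c : ℕ) (hc : Even c) (hcyc : ∀ n : ℕ, 3 ≤ n → C (Sh (cyc n) fun _ => c))
    (hcla : ∀ (n : ℕ) (a b : Bool), 1 ≤ n → (a = true ∨ b = true ∨ 2 ≤ n) →
      C (Sh (cla n a b) fun _ => c)) :
    (∀ n : ℕ, C (VirtualShephard (CoxeterMatrix.A n) fun _ => c)) ∧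
    (∀ n : ℕ, 2 ≤ n → C (VirtualShephard (CoxeterMatrix.B n) fun _ => c)) ∧
    (∀ n : ℕ, 4 ≤ n → C (VirtualShephard (typeD n) fun _ => c)) ∧
    (∀ n : ℕ, 3 ≤ n → C (VirtualShephard (cyc n) fun _ => c)) ∧
    ∀ (n : ℕ) (a b : Bool), 1 ≤ n → (a = true ∨ b = true ∨ 2 ≤ n) →
      C (VirtualShephard (cla n a b) fun _ => c) := by
  have hord : ∀ (n : ℕ) (a b : Bool), ordCl n a b c c c = fun _ => c := by
    intro n a b
    funext v
    unfold ordCl
    split_ifs <;> rfl
  have hg : ∀ {B : Type} (M : CoxeterMatrix B), Good M fun _ => c :=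
    fun M => ⟨fun _ => hc, fun _ _ _ => rfl⟩
  have main : ∀ (n : ℕ) (a b : Bool), 1 ≤ n → (a = true ∨ b = true ∨ 2 ≤ n) →
      C (VirtualShephard (cla n a b) fun _ => c) := by
    intro n a b h1 h2
    have h3 := vs_all hC hcox c hc {c} (fun e he => by rw [Set.mem_singleton_iff.1 he]; exact hc)
      ⟨c, rfl⟩ hcyc (fun n a b h1 h2 e he e' he' => by
        rw [Set.mem_singleton_iff.1 he, Set.mem_singleton_iff.1 he', hord]
        exact hcla n a b h1 h2) n a b h1 h2 c rfl c rfl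
    rwa [hord] at h3
  refine ⟨(Pool.Agent.H53.VS.E.vs_A_iff hC hcox c hc).2 hcyc, fun n hn => ?_, ?_,
    (vs_cyc_iff hC hcox c hc).2 hcyc, main⟩
  · exact vs_par hC hcox (fun s : Fin n => (⟨(s.succ, false), Or.inl rfl⟩ : ClV n true false))
      (hB_lab hn) (fun _ => rfl) (hg _) (hg _) (main n true false (by omega) (Or.inl rfl))
  · exact (vs_typeD_iff hC hcox c hc).2 ⟨hcyc, fun n hn => hcla n true true (by omega) (Or.inl rfl)⟩

end Pool.Agent.H53.CL.E
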