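import Pool.Agent.H53.CL.Inst
import Pool.Agent.H53.CL.Defs

/-!
Embeddings of the Shephard groups of configurations.
-/

set_option autoImplicit false

namespace Pool.Agent.H53.CL

open Pool.Agent.Helper741 Pool.Agent.TH107 CoxeterSystem Pool.Agent.X201.AT
open Pool.Agent.H53.VA Pool.Agent.R665.She Pool.Agent.H53.VS

theorem good_cyc (n c : ℕ) (hc : Even c) : Good (cyc n) fun _ => c := ⟨fun _ => hc, fun _ _ _ => rfl⟩

theorem good_C (n c₀ c c₁ : ℕ) (h0 : Even c₀) (hc : Even c) (h1 : Even c₁) :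
    Good (affC n) (ordC n c₀ c c₁) := by
  constructor
  · intro i
    unfold ordC
    split_ifs <;> assumption
  · intro i j hij
    by_cases h : i = j
    · rw [h]
    · rw [affC_apply, if_neg h] at hij
      by_cases h2 : (i : ℕ) + 1 = j ∨ (j : ℕ) + 1 = i
      · rw [if_pos h2] at hij
        by_cases h3 : (i : ℕ) = 0 ∨ (j : ℕ) = 0 ∨ (i : ℕ) = n ∨ (j : ℕ) = n
        · rw [if_pos h3] at hij
          exact absurd hij (by decide)
        · push Not at h3
          unfold ordC
          rw [if_neg h3.1, if_neg h3.2.2.1, if_neg h3.2.1, if_neg h3.2.2.2]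
      · rw [if_neg h2] at hij
        exact absurd hij (by decide)

section

variable {B I : Type} [Fintype B] [DecidableEq B] [Fintype I] {M : CoxeterMatrix B}
variable {al : B → I → ℝ} {S : Set B} {W : Type} [Group W] (cs : CoxeterSystem M W)
variable {p : B → ℕ} {K : Type} {N : CoxeterMatrix K} {q : K → ℕ} {r : K → (B → ℝ)}

/-- the empty configuration -/
theorem emb_empty [IsEmpty K] (N : CoxeterMatrix K) (q : K → ℕ) (c : ℕ) (hc : Even c) :
    ∃ f : Sh N q →* Sh (cyc 3) fun _ => c, Function.Injective f :=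
  ⟨hmS (fun k : K => isEmptyElim k) (fun i => isEmptyElim i) (fun i => isEmptyElim i),
    hmS_inj (good_cyc 3 c hc) _ (fun i => isEmptyElim i) _ _⟩

/-- **no short simple roots** -/
theorem Cls.emb_cyc [Finite K] (h : Cls M al ∅) (c : ℕ) (hc : Even c) (hp : ∀ s, p s = c)
    (hr : ConfS cs p N q r) (hI : IrrM N) :
    ∃ m : ℕ, 3 ≤ m ∧ ∃ f : Sh N q →* Sh (cyc m) fun _ => c, Function.Injective f := by
  rcases isEmpty_or_nonempty K with hK | ⟨⟨y0⟩⟩
  · exact ⟨3, le_rfl, emb_empty N q c hc⟩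
  have hS : ∀ i, ¬ Short al r i := by
    intro i hi
    obtain ⟨s, -, h1⟩ := h.order cs hr i
    exact absurd (h1.1 hi) (by simp)
  obtain ⟨m, g, h1, h2, h3⟩ := h.match_cyc cs hr hI y0 hS
  have hq : ∀ i, c = q i := by
    intro i
    obtain ⟨s, h4, -⟩ := h.order cs hr i
    rw [h4, hp]
  exact ⟨m, h1, hmS g h3 hq, hmS_inj (good_cyc m c hc) g h2 h3 hq⟩

/-- **general case** -/
theorem Cls.emb_C [Finite K] (h : Cls M al S) (c : ℕ) (hc : Even c) (E : Set ℕ)
    (hE : ∀ e ∈ E, Even e) (hp : ∀ s, s ∉ S → p s = c) (hp' : ∀ s, s ∈ S → p s ∈ E)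
    (hr : ConfS cs p N q r) (hI : IrrM N) :
    (∃ m : ℕ, 3 ≤ m ∧ ∃ f : Sh N q →* Sh (cyc m) fun _ => c, Function.Injective f) ∨
    ∃ n : ℕ, 2 ≤ n ∧ ∃ e ∈ E, ∃ e' ∈ E, ∃ f : Sh N q →* Sh (affC n) (ordC n e c e'),
      Function.Injective f := by
  classical
  rcases isEmpty_or_nonempty K with hK | ⟨⟨y0⟩⟩
  · exact Or.inl ⟨3, le_rfl, emb_empty N q c hc⟩
  have hq : ∀ i, ¬ Short al r i → q i = c := by
    intro i hi
    obtain ⟨s, h4, h5⟩ := h.order cs hr i
    rw [h4, hp s fun h6 => hi (h5.2 h6)]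
  have hq' : ∀ i, Short al r i → q i ∈ E := by
    intro i hi
    obtain ⟨s, h4, h5⟩ := h.order cs hr i
    rw [h4]
    exact hp' s (h5.1 hi)
  by_cases hS : ∀ i, ¬ Short al r i
  · left
    obtain ⟨m, g, h1, h2, h3⟩ := h.match_cyc cs hr hI y0 hS
    have hq : ∀ i, c = q i := fun i => (hq i (hS i)).symm
    exact ⟨m, h1, hmS g h3 hq, hmS_inj (good_cyc m c hc) g h2 h3 hq⟩
  · right
    push Not at hS
    obtain ⟨y1, hy1⟩ := hS
    obtain ⟨n, g, h1, h2, h3, h4⟩ := h.match_C cs hr hI y1 hy1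
    obtain ⟨e, he, hee⟩ : ∃ e ∈ E, ∀ i, (g i : ℕ) = 0 → q i = e := by
      by_cases h5 : ∃ i, (g i : ℕ) = 0
      · obtain ⟨i, hi⟩ := h5
        refine ⟨q i, hq' i ((h4 i).2 (Or.inl hi)), fun j hj => ?_⟩
        rw [h2 (Fin.ext (hj.trans hi.symm))]
      · exact ⟨q y1, hq' y1 hy1, fun i hi => absurd ⟨i, hi⟩ h5⟩
    obtain ⟨e', he', hee'⟩ : ∃ e ∈ E, ∀ i, (g i : ℕ) = n → q i = e := by
      by_cases h5 : ∃ i, (g i : ℕ) = n
      · obtain ⟨i, hi⟩ := h5
        refine ⟨q i, hq' i ((h4 i).2 (Or.inr hi)), fun j hj => ?_⟩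
        rw [h2 (Fin.ext (hj.trans hi.symm))]
      · exact ⟨q y1, hq' y1 hy1, fun i hi => absurd ⟨i, hi⟩ h5⟩
    have hord : ∀ i, ordC n e c e' (g i) = q i := by
      intro i
      unfold ordC
      by_cases h5 : (g i : ℕ) = 0
      · rw [if_pos h5, hee i h5]
      · by_cases h6 : (g i : ℕ) = n
        · rw [if_neg h5, if_pos h6, hee' i h6]
        · rw [if_neg h5, if_neg h6]
          exact (hq i fun h7 => ((h4 i).1 h7).elim h5 h6).symm
    exact ⟨n, h1, e, he, e', he', hmS g h3 hord,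
      hmS_inj (good_C n e c e' (hE e he) hc (hE e' he')) g h2 h3 hord⟩

theorem B_apply (n : ℕ) (i j : Fin n) : CoxeterMatrix.B n i j = if i = j then 1 else
    if (i : ℕ) = n - 1 ∧ (j : ℕ) = n - 2 ∨ (j : ℕ) = n - 1 ∧ (i : ℕ) = n - 2 then 4
      else if (j : ℕ) + 1 = i ∨ (i : ℕ) + 1 = j then 3 else 2 := rfl

theorem good_B (n c c₁ : ℕ) (hc : Even c) (h1 : Even c₁) : Good (CoxeterMatrix.B n) (ordB n c c₁) := by
  constructor
  · intro i
    unfold ordB
    split_ifs <;> assumption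
  · intro i j hij
    by_cases h : i = j
    · rw [h]
    · rw [B_apply, if_neg h] at hij
      by_cases h2 : (i : ℕ) = n - 1 ∧ (j : ℕ) = n - 2 ∨ (j : ℕ) = n - 1 ∧ (i : ℕ) = n - 2
      · rw [if_pos h2] at hij
        exact absurd hij (by decide)
      · rw [if_neg h2] at hij
        by_cases h3 : (j : ℕ) + 1 = i ∨ (i : ℕ) + 1 = j
        · unfold ordB
          have hi := i.2
          have hj := j.2
          rw [if_neg (by omega), if_neg (by omega)]
        · rw [if_neg h3] at hij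
          exact absurd hij (by decide)

/-- the matrix of type `B` is a part of that of type affine `C` -/
theorem B_affC {n : ℕ} (hn : 2 ≤ n) (i j : Fin n) : affC n i.succ j.succ = CoxeterMatrix.B n i j := by
  have hi := i.2
  have hj := j.2
  rw [affC_apply, B_apply]
  simp only [Fin.val_succ, Fin.succ_inj]
  by_cases h : i = j
  · rw [if_pos h, if_pos h]
  · rw [if_neg h, if_neg h]
    by_cases h2 : (i : ℕ) = n - 1 ∧ (j : ℕ) = n - 2 ∨ (j : ℕ) = n - 1 ∧ (i : ℕ) = n - 2
    · rw [if_pos h2, if_pos (by omega), if_pos (by omega)]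
    · rw [if_neg h2]
      by_cases h3 : (j : ℕ) + 1 = i ∨ (i : ℕ) + 1 = j
      · rw [if_pos h3, if_pos (by omega), if_neg (by omega)]
      · rw [if_neg h3, if_neg (by omega)]

theorem affC_rev (n : ℕ) (i j : Fin (n + 1)) : affC n i.rev j.rev = affC n i j := by
  have hi := i.2
  have hj := j.2
  rw [affC_apply, affC_apply]
  simp only [Fin.val_rev, Fin.rev_inj]
  by_cases h : i = j
  · rw [if_pos h, if_pos h]
  · rw [if_neg h, if_neg h]
    by_cases h3 : (i : ℕ) + 1 = j ∨ (j : ℕ) + 1 = i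
    · rw [if_pos h3, if_pos (by omega)]
      by_cases h4 : (i : ℕ) = 0 ∨ (j : ℕ) = 0 ∨ (i : ℕ) = n ∨ (j : ℕ) = n
      · rw [if_pos h4, if_pos (by omega)]
      · rw [if_neg h4, if_neg (by omega)]
    · rw [if_neg h3, if_neg (by omega)]

/-- **at most one short simple root** -/
theorem Cls.emb_B [Finite K] (h : Cls M al S) (hS1 : S.Subsingleton) (c e : ℕ) (hc : Even c)
    (he : Even e) (hp : ∀ s, s ∉ S → p s = c) (hp' : ∀ s, s ∈ S → p s = e)
    (hr : ConfS cs p N q r) (hI : IrrM N) :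
    (∃ m : ℕ, 3 ≤ m ∧ ∃ f : Sh N q →* Sh (cyc m) fun _ => c, Function.Injective f) ∨
    ∃ n : ℕ, 2 ≤ n ∧ ∃ f : Sh N q →* Sh (CoxeterMatrix.B n) (ordB n c e),
      Function.Injective f := by
  classical
  rcases isEmpty_or_nonempty K with hK | ⟨⟨y0⟩⟩
  · exact Or.inl ⟨3, le_rfl, emb_empty N q c hc⟩
  have hq : ∀ i, ¬ Short al r i → q i = c := by
    intro i hi
    obtain ⟨s, h4, h5⟩ := h.order cs hr i
    rw [h4, hp s fun h6 => hi (h5.2 h6)]
  have hq' : ∀ i, Short al r i → q i = e := by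
    intro i hi
    obtain ⟨s, h4, h5⟩ := h.order cs hr i
    rw [h4]
    exact hp' s (h5.1 hi)
  by_cases hS : ∀ i, ¬ Short al r i
  · left
    obtain ⟨m, g, h1, h2, h3⟩ := h.match_cyc cs hr hI y0 hS
    have hq : ∀ i, c = q i := fun i => (hq i (hS i)).symm
    exact ⟨m, h1, hmS g h3 hq, hmS_inj (good_cyc m c hc) g h2 h3 hq⟩
  · right
    push Not at hS
    obtain ⟨y1, hy1⟩ := hS
    have huniq : ∀ i, Short al r i → i = y1 := by
      intro i hi
      by_contra hne
      obtain ⟨s, t, h3, -, -, -, σ, ε, h1, h2, h2'⟩ := h.pair cs hr i y1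
      have hs := (h.short_iff σ ε h1 h2).1 hi
      have ht := (h.short_iff σ ε h1 h2').1 hy1
      rw [hS1 hs ht] at h3
      exact N.off_diagonal i y1 hne (h3.trans (M.diagonal t))
    obtain ⟨n, g, h1, h2, h3, h4⟩ : ∃ (n : ℕ) (g : K → Fin (n + 1)), 2 ≤ n ∧ Function.Injective g ∧
        (∀ i j, affC n (g i) (g j) = N i j) ∧ ∀ i, g i ≠ 0 ∧ (Short al r i ↔ (g i : ℕ) = n) := by
      obtain ⟨n, g, h1, h2, h3, h4⟩ := h.match_C cs hr hI y1 hy1
      rcases (h4 y1).1 hy1 with h5 | h5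
      · refine ⟨n, fun i => (g i).rev, h1, fun i j hij => h2 (Fin.rev_injective hij),
          fun i j => by rw [affC_rev, h3], fun i => ?_⟩
        have h6 : (g i : ℕ) ≠ n := fun h7 => by
          have h8 := huniq i ((h4 i).2 (Or.inr h7))
          rw [h8] at h7
          omega
        have hi := (g i).2
        constructor
        · intro h7
          have h8 := congrArg Fin.val h7
          rw [Fin.val_rev] at h8
          simp only [Fin.val_zero] at h8
          omega
        · rw [h4 i, Fin.val_rev]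
          omega
      · refine ⟨n, g, h1, h2, h3, fun i => ?_⟩
        have h6 : (g i : ℕ) ≠ 0 := fun h7 => by
          have h8 := huniq i ((h4 i).2 (Or.inl h7))
          rw [h8] at h7
          omega
        refine ⟨fun h7 => h6 (congrArg Fin.val h7), ?_⟩
        rw [h4 i]
        omega
    let g' : K → Fin n := fun i => (g i).pred (h4 i).1
    have hg' : ∀ i, (g' i).succ = g i := fun i => Fin.succ_pred _ _
    have hinj : Function.Injective g' := fun i j hij => h2 (by rw [← hg' i, ← hg' j, hij])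
    have hlab : ∀ i j, CoxeterMatrix.B n (g' i) (g' j) = N i j := fun i j => by
      rw [← B_affC h1, hg', hg', h3]
    have hord : ∀ i, ordB n c e (g' i) = q i := by
      intro i
      unfold ordB
      have h5 : ((g' i : ℕ) + 1 = n) ↔ Short al r i := by
        rw [(h4 i).2, ← hg' i, Fin.val_succ]
      by_cases h6 : Short al r i
      · rw [if_pos (h5.2 h6), hq' i h6]
      · rw [if_neg fun h7 => h6 (h5.1 h7), hq i h6]
    exact ⟨n, h1, hmS g' hlab hord, hmS_inj (good_B n c e hc he) g' hinj hlab hord⟩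

end

section parabolic

variable {B B' : Type} [Fintype B] [DecidableEq B] [Fintype B'] [DecidableEq B']
variable {M : CoxeterMatrix B} {M' : CoxeterMatrix B'} (f : B' → B)

/-- extension of a vector -/
noncomputable def ext (v : B' → ℝ) : B → ℝ := ∑ s, v s • ee (f s)

omit [Fintype B] in
theorem ext_ee (s : B') : ext f (ee s) = ee (f s) := by
  unfold ext
  rw [Finset.sum_eq_single s]
  · simp [ee]
  · intro t _ ht
    simp [ee, ht]
  · intro h
    exact absurd (Finset.mem_univ _) h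

omit [Fintype B] [DecidableEq B'] in
theorem ext_sub (v w : B' → ℝ) : ext f (v - w) = ext f v - ext f w := by
  unfold ext
  rw [← Finset.sum_sub_distrib]
  apply Finset.sum_congr rfl
  intro s _
  rw [Pi.sub_apply, sub_smul]

omit [Fintype B] [DecidableEq B'] in
theorem ext_smul (a : ℝ) (v : B' → ℝ) : ext f (a • v) = a • ext f v := by
  unfold ext
  rw [Finset.smul_sum]
  apply Finset.sum_congr rfl
  intro s _
  rw [Pi.smul_apply, smul_assoc]

variable (hf : ∀ s t, M (f s) (f t) = M' s t)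

include hf in
theorem coroot_ext (s : B') (v : B' → ℝ) : coroot M (f s) (ext f v) = coroot M' s v := by
  unfold ext
  rw [map_sum, coroot_apply]
  apply Finset.sum_congr rfl
  intro t _
  rw [map_smul, coroot_ee, smul_eq_mul]
  unfold cc
  rw [hf]
  ring

include hf in
theorem sg_ext (s : B') (v : B' → ℝ) : sg M (f s) (ext f v) = ext f (sg M' s v) := by
  rw [sg_apply, sg_apply, coroot_ext f hf, ext_sub, ext_smul, ext_ee]

variable {W W' : Type} [Group W] [Group W'] (cs : CoxeterSystem M W) (cs' : CoxeterSystem M' W')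

include hf in
theorem geo_ext (w : W') : ∃ w₂ : W, ∀ v, geo cs w₂ (ext f v) = ext f (geo cs' w v) := by
  induction w using cs'.simple_induction_left with
  | one => exact ⟨1, fun v => by rw [map_one, map_one]; rfl⟩
  | mul_simple_left w i ih =>
    obtain ⟨w₂, h⟩ := ih
    refine ⟨cs.simple (f i) * w₂, fun v => ?_⟩
    rw [← geo_geo, ← geo_geo, h, geo_simple, geo_simple, sg_ext f hf]

include hf in
/-- configurations of a parabolic subgroup -/
theorem conf_ext {p : B → ℕ} {p' : B' → ℕ} (hp : ∀ s, p (f s) = p' s) {K : Type}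
    {N : CoxeterMatrix K} {q : K → ℕ} {r : K → (B' → ℝ)} (hr : ConfS cs' p' N q r) :
    ConfS cs p N q fun i => ext f (r i) := by
  intro i j
  obtain ⟨w, s, t, h1, h2, h3, h4, h5, h6⟩ := hr i j
  obtain ⟨w₂, h⟩ := geo_ext f hf cs cs' w
  refine ⟨w₂, f s, f t, by rw [h1, hf], h2, by rw [h3, hp], by rw [h4, hp], ?_, ?_⟩
  · show ext f (r i) = _
    rw [h5, ← ext_ee, h]
  · show ext f (r j) = _
    rw [h6, ← ext_ee, h]

include hf in
/-- restriction of the data -/
theorem Cls.par {I : Type} [Fintype I] {al : B → I → ℝ} {S : Set B} (h : Cls M al S)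
    (hinj : Function.Injective f) : Cls M' (fun s => al (f s)) (f ⁻¹' S) where
  form := fun s t => by
    rw [← h.form]
    unfold cc
    rw [hf]
  sign := fun s t hst => h.sign _ _ fun h' => hst (hinj h')
  long := fun s hs => h.long _ hs
  short := fun s hs => h.short _ hs
  ref := fun s => h.ref _
  lab := fun s t hst => by
    rw [← hf]
    exact h.lab _ _ fun h' => hst (hinj h')

end parabolic

theorem clsB {n : ℕ} (hn : 2 ≤ n) :
    Cls (CoxeterMatrix.B n) (fun s => alC n s.succ) {s : Fin n | (s : ℕ) + 1 = n} := by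
  have h := (clsC n hn).par Fin.succ (M' := CoxeterMatrix.B n) (fun s t => B_affC hn s t)
    (Fin.succ_injective n)
  have h1 : (Fin.succ ⁻¹' {s : Fin (n + 1) | (s : ℕ) = 0 ∨ (s : ℕ) = n}) =
      {s : Fin n | (s : ℕ) + 1 = n} := by
    ext s
    simp only [Set.mem_preimage, Set.mem_ofPred_eq, Fin.val_succ]
    omega
  rwa [h1] at h

end Pool.Agent.H53.CL
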