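import Pool.Agent.H53.CL.Inst2

/-!
Embeddings of the Shephard groups of configurations, with parallel roots.
-/

set_option autoImplicit false

namespace Pool.Agent.H53.CL

open Pool.Agent.Helper741 Pool.Agent.TH107 CoxeterSystem Pool.Agent.X201.AT
open Pool.Agent.H53.VA Pool.Agent.R665.She Pool.Agent.H53.VS

section

variable {B I : Type} [Fintype B] [DecidableEq B] [Fintype I] {M : CoxeterMatrix B}
variable {al : B → I → ℝ} {S : Set B} {W : Type} [Group W] (cs : CoxeterSystem M W)
variable {p : B → ℕ} {K : Type} {N : CoxeterMatrix K} {q : K → ℕ} {r : K → (B → ℝ)}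

omit [DecidableEq B] [Fintype I] in
theorem PathData.spec_rep {rep : K → K} {l : ℕ} {x : ℕ → K}
    (D : PathData N al r rep l x) {i : K} (hi : Spec al r i) : Spec al r (rep i) := by
  by_cases h1 : rep i = i
  · rwa [h1]
  · exact Or.inr ⟨i, Ne.symm h1, (D.par i).symm⟩

/-- the parameters of the diagram containing a given configuration -/
theorem Cl2.emb_aux [Finite K] (h : Cl2 M al S) (hr : ConfS cs p N q r) (hI : IrrM N) {y1 : K}
    (hy : Spec al r y1) (c : ℕ) (hq : ∀ i, ¬ Short al r i → q i = c) :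
    ∃ (n : ℕ) (a b : Bool), 1 ≤ n ∧ (a = true ∨ b = true ∨ 2 ≤ n) ∧
      (a = false → ∃ i, Short al r i) ∧ (b = false → ∃ i, Short al r i) ∧
      (a = false → b = false → ∃ i j, i ≠ j ∧ Short al r i ∧ Short al r j) ∧
      ∃ e e' : ℕ, (a = false → ∃ i, Short al r i ∧ q i = e) ∧
        (b = false → ∃ i, Short al r i ∧ q i = e') ∧
        ∃ g : K → ClV n a b, Function.Injective g ∧ (∀ i j, cla n a b (g i) (g j) = N i j) ∧
          ∀ i, ordCl n a b c e e' (g i) = q i := by
  classical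
  obtain ⟨rep, l, x, D⟩ := h.path cs hr hI y1
  obtain ⟨s, hs, hs'⟩ := D.surj y1
  have hsp : Spec al r (x s) := by
    rw [hs']
    exact D.spec_rep hy
  let a : Bool := if Short al r (x 0) then false else true
  let b : Bool := if 0 < l ∧ Short al r (x l) then false else true
  have ha : a = false ↔ Short al r (x 0) := by
    show (if Short al r (x 0) then false else true) = false ↔ _
    by_cases h1 : Short al r (x 0)
    · simp [h1]
    · simp [h1]
  have hb : b = false ↔ 0 < l ∧ Short al r (x l) := by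
    show (if 0 < l ∧ Short al r (x l) then false else true) = false ↔ _
    by_cases h1 : 0 < l ∧ Short al r (x l)
    · simp only [if_pos h1, true_iff]
      exact h1
    · simp only [if_neg h1, Bool.true_eq_false, false_iff]
      exact h1
  refine ⟨max l 1, a, b, le_max_right _ _, ?_, fun h1 => ⟨_, ha.1 h1⟩, fun h1 => ⟨_, (hb.1 h1).2⟩,
    fun h1 h2 => ⟨x 0, x l, fun h3 => ?_, ha.1 h1, (hb.1 h2).2⟩, q (x 0), q (x l),
    fun h1 => ⟨x 0, ha.1 h1, rfl⟩, fun h1 => ⟨x l, (hb.1 h1).2, rfl⟩,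
    h.match_cla cs hr D (fun hl => h.no_close cs hr D s hs hsp hl) (max l 1) 0 a b (by omega)
      (le_max_right _ _) (fun _ => ha) (fun h1 _ => by rw [hb]; exact ⟨fun h2 => h2.2, fun h2 => ⟨h1, h2⟩⟩)
      (fun h1 => absurd h1 (lt_irrefl 0)) (fun h1 h2 => by omega) (fun h1 => by omega) c (q (x 0))
      (q (x l)) hq (fun _ => rfl) fun _ _ => rfl⟩
  · by_contra hcon
    push Not at hcon
    obtain ⟨h1, h2, h3⟩ := hcon
    have h1' : a = false := by simpa using h1
    have h2' : b = false := by simpa using h2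
    have h4 := hb.1 h2'
    have hl : l = 1 := by omega
    subst hl
    have hne : x 0 ≠ x 1 := fun h5 => absurd (D.inj 0 1 (by omega) le_rfl h5) (by norm_num)
    have h5 := D.edge 0 (by omega)
    rcases h.prod cs hr hne with h6 | h6 | h6
    · exact h5 h6.1
    · exact h6.2.1.1 (ha.1 h1')
    · rcases h6.2.1 with h7 | h7
      · exact h7.2 h4.2
      · exact h7.1 (ha.1 h1')
  · have h4 := (hb.1 h2).1
    have h5 := D.inj 0 l (by omega) le_rfl h3
    omega

/-- **configurations for affine diagrams of classical type** -/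
theorem Cl2.emb_cla [Finite K] (h : Cl2 M al S) (c : ℕ) (hc : Even c) (E : Set ℕ)
    (hE : ∀ e ∈ E, Even e) (hne : E.Nonempty) (hp : ∀ s, s ∉ S → p s = c)
    (hp' : ∀ s, s ∈ S → p s ∈ E) (hr : ConfS cs p N q r) (hI : IrrM N) :
    (∃ m : ℕ, 3 ≤ m ∧ ∃ f : Sh N q →* Sh (cyc m) fun _ => c, Function.Injective f) ∨
    ∃ (n : ℕ) (a b : Bool), 1 ≤ n ∧ (a = true ∨ b = true ∨ 2 ≤ n) ∧
      (a = false → S.Nonempty) ∧ (b = false → S.Nonempty) ∧
      (a = false → b = false → ¬ S.Subsingleton) ∧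
      ∃ e ∈ E, ∃ e' ∈ E, ∃ f : Sh N q →* Sh (cla n a b) (ordCl n a b c e e'),
        Function.Injective f := by
  classical
  rcases isEmpty_or_nonempty K with hK | ⟨⟨y0⟩⟩
  · exact Or.inl ⟨3, le_rfl, emb_empty N q c hc⟩
  have hq : ∀ i, ¬ Short al r i → q i = c := by
    intro i hi
    obtain ⟨s, h4, h5⟩ := h.order cs hr i
    rw [h4, hp s fun h6 => hi (h5.2 h6)]
  have hq' : ∀ i, Short al r i → q i ∈ E ∧ S.Nonempty := by
    intro i hi
    obtain ⟨s, h4, h5⟩ := h.order cs hr i
    rw [h4]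
    exact ⟨hp' s (h5.1 hi), ⟨s, h5.1 hi⟩⟩
  by_cases hS : ∀ i, ¬ Spec al r i
  · left
    obtain ⟨m, g, h1, h2, h3⟩ := h.match_cyc cs hr hI y0 hS
    have hq : ∀ i, c = q i := fun i => (hq i fun h4 => hS i (Or.inl h4)).symm
    exact ⟨m, h1, hmS g h3 hq, hmS_inj (good_cyc m c hc) g h2 h3 hq⟩
  · right
    push Not at hS
    obtain ⟨y1, hy1⟩ := hS
    obtain ⟨n, a, b, h1, h2, h3, h4, h5, e, e', h6, h7, g, h8, h9, h10⟩ :=
      h.emb_aux cs hr hI hy1 c hq
    obtain ⟨e₀, he₀⟩ := hne
    have h5' : a = false → b = false → ¬ S.Subsingleton := by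
      intro h11 h12 hsub
      obtain ⟨i, j, hij, hi, hj⟩ := h5 h11 h12
      obtain ⟨s, t, h3, -, -, -, σ, ε, h1, h2, h2'⟩ := h.pair cs hr i j
      have hs := (h.short_iff σ ε h1 h2).1 hi
      have ht := (h.short_iff σ ε h1 h2').1 hj
      rw [hsub hs ht] at h3
      exact N.off_diagonal i j hij (h3.trans (M.diagonal t))
    obtain ⟨u, hu, hu'⟩ : ∃ u ∈ E, a = false → u = e := by
      cases ha : a
      · obtain ⟨i, hi, hi'⟩ := h6 ha
        exact ⟨q i, (hq' i hi).1, fun _ => hi'⟩
      · exact ⟨e₀, he₀, fun h' => absurd h' (by decide)⟩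
    obtain ⟨v, hv, hv'⟩ : ∃ u ∈ E, b = false → u = e' := by
      cases hb : b
      · obtain ⟨i, hi, hi'⟩ := h7 hb
        exact ⟨q i, (hq' i hi).1, fun _ => hi'⟩
      · exact ⟨e₀, he₀, fun h' => absurd h' (by decide)⟩
    have h10' : ∀ i, ordCl n a b c u v (g i) = q i := by
      intro i
      rw [← h10 i]
      unfold ordCl
      by_cases h11 : ((g i).1.1 : ℕ) = 0 ∧ a = false
      · rw [if_pos h11, if_pos h11, hu' h11.2]
      · rw [if_neg h11, if_neg h11]
        by_cases h12 : ((g i).1.1 : ℕ) = n ∧ b = false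
        · rw [if_pos h12, if_pos h12, hv' h12.2]
        · rw [if_neg h12, if_neg h12]
    refine ⟨n, a, b, h1, h2, fun ha => ?_, fun hb => ?_, h5', u, hu, v, hv, hmS g h9 h10',
      hmS_inj (good_cla n a b c u v hc (hE u hu) (hE v hv)) g h8 h9 h10'⟩
    · obtain ⟨i, hi⟩ := h3 ha
      exact (hq' i hi).2
    · obtain ⟨i, hi⟩ := h4 hb
      exact (hq' i hi).2

/-- restriction of the data -/
theorem Cl2.par {B' : Type} [Fintype B'] [DecidableEq B'] {M' : CoxeterMatrix B'} (f : B' → B)
    (hf : ∀ s t, M (f s) (f t) = M' s t) (h : Cl2 M al S) (hinj : Function.Injective f) :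
    Cl2 M' (fun s => al (f s)) (f ⁻¹' S) where
  form := fun s t => by
    rw [← h.form]
    unfold cc
    rw [hf]
  sign := fun s t hst => by
    rw [← hf]
    exact h.sign _ _ fun h' => hst (hinj h')
  long := fun s hs => h.long _ hs
  short := fun s hs => h.short _ hs
  ref := fun s => h.ref _
  lab := fun s t hst => by
    rw [← hf]
    exact h.lab _ _ fun h' => hst (hinj h')

end

theorem ordCl_tt (n c e e' : ℕ) (v : ClV n true true) : ordCl n true true c e e' v = c := by
  unfold ordCl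
  rw [if_neg fun h => absurd h.2 (by decide), if_neg fun h => absurd h.2 (by decide)]

theorem ordCl_tt' (n c e e' : ℕ) : ordCl n true true c e e' = fun _ => c :=
  funext fun v => ordCl_tt n c e e' v

theorem shS_tt (n : ℕ) : shS n true true = ∅ := by
  ext v
  unfold shS
  simp

end Pool.Agent.H53.CL
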