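import Pool.Agent.H53.CL.Emb
import Pool.Agent.H53.VS.FMain

/-!
Virtual Shephard groups of types `B`, affine `A` and affine `C` in classes with the closure properties
of the Farrell–Jones groups.
-/

set_option autoImplicit false

namespace Pool.Agent.H53.CL.F

open Pool.Agent.Helper741 Pool.Agent.TH107 CoxeterSystem Pool.Agent.X201.AT
open Pool.Agent.H53.VA Pool.Agent.R665.She Pool.Agent.H53.VS
open Pool.Agent.Y110.FJ

variable {C : ∀ (G : Type) [Group G], Prop} (hC : ClosedE C)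
variable (hcox : ∀ (B : Type) [Finite B] (M : CoxeterMatrix B), C M.Group)

include hC hcox

/-- virtual Shephard groups of parabolic subgroups -/
theorem vs_par {B B' : Type} [Fintype B] [DecidableEq B] [Fintype B'] [DecidableEq B']
    {M : CoxeterMatrix B} {M' : CoxeterMatrix B'} (f : B' → B) (hf : ∀ s t, M (f s) (f t) = M' s t)
    {p : B → ℕ} {p' : B' → ℕ} (hp : ∀ s, p (f s) = p' s) (hg : Good M p) (hg' : Good M' p')
    (h : C (VirtualShephard M p)) : C (VirtualShephard M' p') := by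
  rw [Pool.Agent.H53.VS.F.vs_conf p' hC hcox hg']
  intro K _ N q r hr _
  exact Pool.Agent.H53.VS.F.sh_of_conf p hC hcox hg h N q _
    (conf_ext f hf M.toCoxeterSystem M'.toCoxeterSystem hp hr)

/-- **type affine `A`** -/
theorem vs_cyc (c : ℕ) (hc : Even c) (hcyc : ∀ n : ℕ, 3 ≤ n → C (Sh (cyc n) fun _ => c)) (n : ℕ)
    [NeZero n] (hn : 3 ≤ n) : C (VirtualShephard (cyc n) fun _ => c) := by
  rw [Pool.Agent.H53.VS.F.vs_conf _ hC hcox (good_cyc n c hc)]
  intro K _ N q r hr hI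
  obtain ⟨m, h1, f, hf⟩ := (clsA n hn).emb_cyc _ c hc (fun _ => rfl) hr hI
  exact hC.base.of_injective _ _ f hf (hcyc m h1)

/-- **type affine `C`** -/
theorem vs_affC (c : ℕ) (hc : Even c) (E : Set ℕ) (hE : ∀ e ∈ E, Even e)
    (hcyc : ∀ n : ℕ, 3 ≤ n → C (Sh (cyc n) fun _ => c))
    (haff : ∀ n : ℕ, 2 ≤ n → ∀ e ∈ E, ∀ e' ∈ E, C (Sh (affC n) (ordC n e c e')))
    (n : ℕ) (hn : 2 ≤ n) (e : ℕ) (he : e ∈ E) (e' : ℕ) (he' : e' ∈ E) :
    C (VirtualShephard (affC n) (ordC n e c e')) := by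
  rw [Pool.Agent.H53.VS.F.vs_conf _ hC hcox (good_C n e c e' (hE e he) hc (hE e' he'))]
  intro K _ N q r hr hI
  have h1 : ∀ s : Fin (n + 1), s ∉ {s : Fin (n + 1) | (s : ℕ) = 0 ∨ (s : ℕ) = n} →
      ordC n e c e' s = c := by
    intro s hs
    simp only [Set.mem_ofPred_eq, not_or] at hs
    unfold ordC
    rw [if_neg hs.1, if_neg hs.2]
  have h2 : ∀ s : Fin (n + 1), s ∈ {s : Fin (n + 1) | (s : ℕ) = 0 ∨ (s : ℕ) = n} →
      ordC n e c e' s ∈ E := by
    intro s hs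
    unfold ordC
    by_cases h3 : (s : ℕ) = 0
    · rw [if_pos h3]
      exact he
    · rw [if_neg h3, if_pos (hs.resolve_left h3)]
      exact he'
  rcases (clsC n hn).emb_C _ c hc E hE h1 h2 hr hI with ⟨m, h3, f, hf⟩ | ⟨m, h3, a, ha, b, hb, f, hf⟩
  · exact hC.base.of_injective _ _ f hf (hcyc m h3)
  · exact hC.base.of_injective _ _ f hf (haff m h3 a ha b hb)

/-- **type `B`** -/
theorem vs_B (c e : ℕ) (hc : Even c) (he : Even e)
    (hcyc : ∀ n : ℕ, 3 ≤ n → C (Sh (cyc n) fun _ => c))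
    (hB : ∀ n : ℕ, 2 ≤ n → C (Sh (CoxeterMatrix.B n) (ordB n c e))) (n : ℕ) (hn : 2 ≤ n) :
    C (VirtualShephard (CoxeterMatrix.B n) (ordB n c e)) := by
  rw [Pool.Agent.H53.VS.F.vs_conf _ hC hcox (good_B n c e hc he)]
  intro K _ N q r hr hI
  have h1 : ∀ s : Fin n, s ∉ {s : Fin n | (s : ℕ) + 1 = n} → ordB n c e s = c := by
    intro s hs
    exact if_neg hs
  have h2 : ∀ s : Fin n, s ∈ {s : Fin n | (s : ℕ) + 1 = n} → ordB n c e s = e := by
    intro s hs
    exact if_pos hs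
  have h3 : ({s : Fin n | (s : ℕ) + 1 = n} : Set (Fin n)).Subsingleton := by
    intro s hs t ht
    have hs' : (s : ℕ) + 1 = n := hs
    have ht' : (t : ℕ) + 1 = n := ht
    apply Fin.ext
    omega
  rcases (clsB hn).emb_B _ h3 c e hc he h1 h2 hr hI with ⟨m, h4, f, hf⟩ | ⟨m, h4, f, hf⟩
  · exact hC.base.of_injective _ _ f hf (hcyc m h4)
  · exact hC.base.of_injective _ _ f hf (hB m h4)

/-- a cycle from a parabolic subgroup of type `A` -/
theorem cyc_of_par {B : Type} [Fintype B] [DecidableEq B] {M : CoxeterMatrix B} {p : B → ℕ}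
    (hg : Good M p) (n c : ℕ) (hc : Even c) (hn : 2 ≤ n) (f : Fin n → B)
    (hf : ∀ s t, M (f s) (f t) = CoxeterMatrix.A n s t) (hp : ∀ s, p (f s) = c)
    (h : C (VirtualShephard M p)) : C (Sh (cyc (n + 1)) fun _ => c) :=
  Pool.Agent.H53.VS.F.cyc_of_vs hC hcox c hc n hn
    (vs_par hC hcox f hf hp hg ⟨fun _ => hc, fun _ _ _ => rfl⟩ h)

theorem vs_B_iff (c e : ℕ) (hc : Even c) (he : Even e) :
    (∀ n : ℕ, 2 ≤ n → C (VirtualShephard (CoxeterMatrix.B n) (ordB n c e))) ↔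
      (∀ n : ℕ, 3 ≤ n → C (Sh (cyc n) fun _ => c)) ∧
        ∀ n : ℕ, 2 ≤ n → C (Sh (CoxeterMatrix.B n) (ordB n c e)) := by
  refine ⟨fun h => ⟨fun n hn => ?_, fun n hn => ?_⟩, fun h => vs_B hC hcox c e hc he h.1 h.2⟩
  · obtain ⟨m, rfl⟩ := Nat.exists_eq_add_of_le' (by omega : 1 ≤ n)
    refine cyc_of_par hC hcox (good_B (m + 1) c e hc he) m c hc (by omega) Fin.castSucc
      (fun s t => ?_) (fun s => ?_) (h (m + 1) (by omega))
    · have hs := s.2
      have ht := t.2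
      rw [B_apply, A_apply]
      simp only [Fin.castSucc_inj, Fin.val_castSucc]
      by_cases h1 : s = t
      · rw [if_pos h1, if_pos h1]
      · rw [if_neg h1, if_neg h1, if_neg (by omega)]
    · have hs := s.2
      unfold ordB
      rw [Fin.val_castSucc, if_neg (by omega)]
  · exact Pool.Agent.H53.VS.F.sh_of_vs _ hC hcox (good_B n c e hc he) (h n hn)

theorem vs_cyc_iff (c : ℕ) (hc : Even c) :
    (∀ n : ℕ, 3 ≤ n → C (VirtualShephard (cyc n) fun _ => c)) ↔
      ∀ n : ℕ, 3 ≤ n → C (Sh (cyc n) fun _ => c) := by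
  constructor
  · intro h n hn
    have : NeZero n := ⟨by omega⟩
    exact Pool.Agent.H53.VS.F.sh_of_vs _ hC hcox (good_cyc n c hc) (h n hn)
  · intro h n hn
    have : NeZero n := ⟨by omega⟩
    exact vs_cyc hC hcox c hc h n hn

theorem vs_affC_iff (c : ℕ) (hc : Even c) (E : Set ℕ) (hE : ∀ e ∈ E, Even e) (hne : E.Nonempty) :
    (∀ n : ℕ, 2 ≤ n → ∀ e ∈ E, ∀ e' ∈ E, C (VirtualShephard (affC n) (ordC n e c e'))) ↔
      (∀ n : ℕ, 3 ≤ n → C (Sh (cyc n) fun _ => c)) ∧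
        ∀ n : ℕ, 2 ≤ n → ∀ e ∈ E, ∀ e' ∈ E, C (Sh (affC n) (ordC n e c e')) := by
  refine ⟨fun h => ⟨fun n hn => ?_, fun n hn e he e' he' => ?_⟩,
    fun h n hn e he e' he' => vs_affC hC hcox c hc E hE h.1 h.2 n hn e he e' he'⟩
  · obtain ⟨e, he⟩ := hne
    obtain ⟨m, rfl⟩ := Nat.exists_eq_add_of_le' (by omega : 1 ≤ n)
    refine cyc_of_par hC hcox (good_C (m + 1) e c e (hE e he) hc (hE e he)) m c hc (by omega)
      (fun s => s.succ.castSucc) (fun s t => ?_) (fun s => ?_) (h (m + 1) (by omega) e he e he)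
    · have hs := s.2
      have ht := t.2
      rw [affC_apply, A_apply]
      simp only [Fin.castSucc_inj, Fin.val_castSucc, Fin.val_succ, Fin.succ_inj]
      by_cases h1 : s = t
      · rw [if_pos h1, if_pos h1]
      · rw [if_neg h1, if_neg h1]
        by_cases h2 : (t : ℕ) + 1 = s ∨ (s : ℕ) + 1 = t
        · rw [if_pos h2, if_pos (by omega), if_neg (by omega)]
        · rw [if_neg h2, if_neg (by omega)]
    · have hs := s.2
      unfold ordC
      simp only [Fin.val_castSucc, Fin.val_succ]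
      rw [if_neg (by omega), if_neg (by omega)]
  · exact Pool.Agent.H53.VS.F.sh_of_vs _ hC hcox (good_C n e c e' (hE e he) hc (hE e' he'))
      (h n hn e he e' he')

end Pool.Agent.H53.CL.F
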