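import Pool.Agent.H53.CL.TypeD2

/-!
Virtual Shephard groups of type `D`, and of all classical types.
-/

set_option autoImplicit false

namespace Pool.Agent.H53.CL

open Pool.Agent.Helper741 Pool.Agent.TH107 CoxeterSystem Pool.Agent.X201.AT
open Pool.Agent.H53.VA Pool.Agent.R665.She Pool.Agent.H53.VS

/-- the cycle of length four -/
def gOne (v : ClV 1 true true) : ZMod 4 := ((v.1.1 : ℕ) : ZMod 4) + if v.1.2 = true then 2 else 0

theorem cla_one : ∀ v w : ClV 1 true true, cyc 4 (gOne v) (gOne w) = cla 1 true true v w := by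
  decide

theorem gOne_inj : Function.Injective gOne := by
  have h : ∀ v w : ClV 1 true true, gOne v = gOne w → v = w := by decide
  exact h

theorem emb_one (c : ℕ) (hc : Even c) :
    ∃ f : (Sh (cla 1 true true) fun _ => c) →* Sh (cyc 4) fun _ => c, Function.Injective f :=
  ⟨hmS gOne cla_one (fun _ => rfl), hmS_inj (good_cyc 4 c hc) _ gOne_inj _ _⟩

/-- type `D` as a part of type affine `B` -/
def hD (n : ℕ) (b : Bool) (s : Fin (n + 2)) : ClV (n + 1) true b :=
  ⟨(⟨n - s, by omega⟩, decide ((s : ℕ) = n + 1)), by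
    by_cases h : (s : ℕ) = n + 1
    · right; left
      exact ⟨by show n - (s : ℕ) = 0; omega, rfl⟩
    · exact Or.inl (decide_eq_false h)⟩

theorem hD_val (n : ℕ) (b : Bool) (s : Fin (n + 2)) : ((hD n b s).1.1 : ℕ) = n - s := rfl

theorem hD_snd (n : ℕ) (b : Bool) (s : Fin (n + 2)) :
    (hD n b s).1.2 = decide ((s : ℕ) = n + 1) := rfl

theorem hD_inj (n : ℕ) (b : Bool) : Function.Injective (hD n b) := by
  intro s t h
  have hs := s.2
  have ht := t.2
  have h1 := congrArg (fun v : ClV (n + 1) true b => (v.1.1 : ℕ)) h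
  have h2 := congrArg (fun v : ClV (n + 1) true b => v.1.2) h
  simp only [hD_val, hD_snd, decide_eq_decide] at h1 h2
  apply Fin.ext
  omega

theorem hD_lab (n : ℕ) (b : Bool) (s t : Fin (n + 2)) :
    cla (n + 1) true b (hD n b s) (hD n b t) = typeD (n + 2) s t := by
  have hs := s.2
  have ht := t.2
  rw [cla_apply, typeD_apply, hD_val, hD_val]
  by_cases h : s = t
  · rw [if_pos h, if_pos (by rw [h])]
  · rw [if_neg h, if_neg fun h' => h (hD_inj n b h')]
    have h0 : (s : ℕ) ≠ t := fun h' => h (Fin.ext h')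
    by_cases h1 : n - (s : ℕ) + 1 = n - (t : ℕ) ∨ n - (t : ℕ) + 1 = n - (s : ℕ)
    · rw [if_pos h1, if_neg, if_pos (by omega)]
      rintro (h2 | h2)
      · exact absurd h2.2 (by decide)
      · omega
    · rw [if_neg h1, if_neg (by omega)]

/-- type `B` as a part of type affine `B` -/
theorem hB_lab {n : ℕ} (hn : 2 ≤ n) (s t : Fin n) :
    cla n true false ⟨(s.succ, false), Or.inl rfl⟩ ⟨(t.succ, false), Or.inl rfl⟩ =
      CoxeterMatrix.B n s t := by
  have hs := s.2
  have ht := t.2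
  rw [cla_apply, B_apply]
  simp only [Fin.val_succ]
  by_cases h : s = t
  · rw [if_pos h, if_pos (by rw [h])]
  · rw [if_neg h, if_neg]
    · by_cases h3 : (t : ℕ) + 1 = s ∨ (s : ℕ) + 1 = t
      · by_cases h2 : (s : ℕ) = n - 1 ∧ (t : ℕ) = n - 2 ∨ (t : ℕ) = n - 1 ∧ (s : ℕ) = n - 2
        · rw [if_pos (by omega), if_pos, if_pos h2]
          exact Or.inr ⟨by omega, trivial⟩
        · rw [if_pos (by omega), if_neg, if_neg h2, if_pos h3]
          rintro (h4 | h4)
          · exact absurd h4.2 (by decide)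
          · omega
      · rw [if_neg (by omega), if_neg (by omega), if_neg h3]
    · intro h4
      have h5 := congrArg (fun v : ClV n true false => (v.1.1 : ℕ)) h4
      simp only [Fin.val_succ] at h5
      exact h (Fin.ext (by omega))

/-- the vertices of affine type `C` -/
def gC (n : ℕ) (s : Fin (n + 1)) : ClV n false false := ⟨(s, false), Or.inl rfl⟩

theorem gC_inj (n : ℕ) : Function.Injective (gC n) := fun _ _ h =>
  congrArg (fun v : ClV n false false => v.1.1) h

theorem gC_surj (n : ℕ) (v : ClV n false false) : gC n v.1.1 = v := by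
  refine Subtype.ext (Prod.ext rfl ?_)
  rcases v.2 with h | ⟨-, h⟩ | ⟨-, h⟩
  · exact h.symm
  · exact absurd h (by decide)
  · exact absurd h (by decide)

theorem gC_lab (n : ℕ) (s t : Fin (n + 1)) : cla n false false (gC n s) (gC n t) = affC n s t := by
  rw [cla_apply, affC_apply]
  show (if gC n s = gC n t then 1 else
    if (s : ℕ) + 1 = t ∨ (t : ℕ) + 1 = s then
      (if (((s : ℕ) = 0 ∨ (t : ℕ) = 0) ∧ false = false) ∨
        (((s : ℕ) = n ∨ (t : ℕ) = n) ∧ false = false) then 4 else 3) else 2) = _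
  by_cases h : s = t
  · rw [if_pos h, if_pos (by rw [h])]
  · rw [if_neg h, if_neg fun h' => h (gC_inj n h')]
    by_cases h1 : (s : ℕ) + 1 = t ∨ (t : ℕ) + 1 = s
    · rw [if_pos h1, if_pos h1]
      by_cases h2 : (s : ℕ) = 0 ∨ (t : ℕ) = 0 ∨ (s : ℕ) = n ∨ (t : ℕ) = n
      · rw [if_pos h2, if_pos]
        rcases h2 with h2 | h2 | h2 | h2
        · exact Or.inl ⟨Or.inl h2, rfl⟩
        · exact Or.inl ⟨Or.inr h2, rfl⟩
        · exact Or.inr ⟨Or.inl h2, rfl⟩
        · exact Or.inr ⟨Or.inr h2, rfl⟩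
      · rw [if_neg h2, if_neg]
        rintro (h3 | h3) <;> omega
    · rw [if_neg h1, if_neg h1]

theorem gC_ord (n c e e' : ℕ) (s : Fin (n + 1)) :
    ordCl n false false c e e' (gC n s) = ordC n e c e' s := by
  unfold ordCl ordC
  show (if (s : ℕ) = 0 ∧ false = false then e else if (s : ℕ) = n ∧ false = false then e' else c) = _
  by_cases h : (s : ℕ) = 0
  · rw [if_pos h, if_pos ⟨h, rfl⟩]
  · rw [if_neg h, if_neg fun h' => h h'.1]
    by_cases h2 : (s : ℕ) = n
    · rw [if_pos h2, if_pos ⟨h2, rfl⟩]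
    · rw [if_neg h2, if_neg fun h' => h2 h'.1]

theorem emb_C1 (n c e e' : ℕ) (hc : Even c) (he : Even e) (he' : Even e') :
    ∃ f : Sh (affC n) (ordC n e c e') →* Sh (cla n false false) (ordCl n false false c e e'),
      Function.Injective f :=
  ⟨hmS (gC n) (gC_lab n) (gC_ord n c e e'),
    hmS_inj (good_cla n false false c e e' hc he he') _ (gC_inj n) _ _⟩

theorem emb_C2 (n c e e' : ℕ) (hc : Even c) (he : Even e) (he' : Even e') :
    ∃ f : Sh (cla n false false) (ordCl n false false c e e') →* Sh (affC n) (ordC n e c e'),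
      Function.Injective f :=
  ⟨hmS (fun v : ClV n false false => v.1.1)
      (fun v w => by rw [← gC_lab, gC_surj, gC_surj])
      (fun v => by rw [← gC_ord, gC_surj]),
    hmS_inj (good_C n e c e' he hc he') _ (fun v w h => by
      rw [← gC_surj n v, ← gC_surj n w]
      exact congrArg _ h) _ _⟩

end Pool.Agent.H53.CL

namespace Pool.Agent.H53.CL.F

open Pool.Agent.Helper741 Pool.Agent.TH107 CoxeterSystem Pool.Agent.X201.AT
open Pool.Agent.H53.VA Pool.Agent.R665.She Pool.Agent.H53.VS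
open Pool.Agent.Y110.FJ

variable {C : ∀ (G : Type) [Group G], Prop} (hC : ClosedE C)
variable (hcox : ∀ (B : Type) [Finite B] (M : CoxeterMatrix B), C M.Group)

include hC hcox

omit hcox in
theorem hD_one {c : ℕ} (hc : Even c) (hcyc : ∀ n : ℕ, 3 ≤ n → C (Sh (cyc n) fun _ => c))
    (hD : ∀ n : ℕ, 2 ≤ n → C (Sh (cla n true true) fun _ => c)) (n : ℕ) (hn : 1 ≤ n) :
    C (Sh (cla n true true) fun _ => c) := by
  by_cases h : 2 ≤ n
  · exact hD n h
  · have h1 : n = 1 := by omega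
    subst h1
    obtain ⟨f, hf⟩ := emb_one c hc
    exact hC.base.of_injective _ _ f hf (hcyc 4 (by norm_num))

/-- the affine group of type `D` from the finite type -/
theorem affD_of_typeD (c : ℕ) (hc : Even c) (m : ℕ) (hm : 2 ≤ m)
    (h : C (VirtualShephard (typeD (m + 2)) fun _ => c)) : C (Sh (cla m true true) fun _ => c) := by
  obtain ⟨r, hr⟩ := affD_conf hm (typeD (m + 2)).toCoxeterSystem c
  exact Pool.Agent.H53.VS.F.sh_of_conf (fun _ => c) hC hcox ⟨fun _ => hc, fun _ _ _ => rfl⟩ h _ _ r hr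

/-- **type `D`** -/
theorem vs_typeD_iff (c : ℕ) (hc : Even c) :
    (∀ k : ℕ, 4 ≤ k → C (VirtualShephard (typeD k) fun _ => c)) ↔
      (∀ n : ℕ, 3 ≤ n → C (Sh (cyc n) fun _ => c)) ∧
        ∀ n : ℕ, 2 ≤ n → C (Sh (cla n true true) fun _ => c) := by
  refine ⟨fun h => ⟨fun n hn => ?_, fun n hn => affD_of_typeD hC hcox c hc n hn (h _ (by omega))⟩,
    fun h k hk => ?_⟩
  · obtain ⟨m, rfl⟩ := Nat.exists_eq_add_of_le' (by omega : 1 ≤ n)
    refine cyc_of_par hC hcox (p := fun _ => c) ⟨fun _ => hc, fun _ _ _ => rfl⟩ m c hc (by omega)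
      (fun s => s.castSucc.castSucc) (fun s t => ?_) (fun _ => rfl) (h (m + 2) (by omega))
    have hs := s.2
    have ht := t.2
    rw [typeD_apply, A_apply]
    simp only [Fin.castSucc_inj, Fin.val_castSucc]
    by_cases h1 : s = t
    · rw [if_pos h1, if_pos h1]
    · rw [if_neg h1, if_neg h1]
      by_cases h2 : (t : ℕ) + 1 = s ∨ (s : ℕ) + 1 = t
      · rw [if_pos h2, if_pos (by omega)]
      · rw [if_neg h2, if_neg (by omega)]
  · obtain ⟨m, rfl⟩ := Nat.exists_eq_add_of_le' (by omega : 2 ≤ k)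
    exact vs_cl2_D hC hcox (cl2T m (by omega)) c hc h.1 (hD_one hC hc h.1 h.2)

/-- **type affine `D`** -/
theorem vs_affD_iff (c : ℕ) (hc : Even c) :
    (∀ n : ℕ, 2 ≤ n → C (VirtualShephard (cla n true true) fun _ => c)) ↔
      (∀ n : ℕ, 3 ≤ n → C (Sh (cyc n) fun _ => c)) ∧
        ∀ n : ℕ, 2 ≤ n → C (Sh (cla n true true) fun _ => c) := by
  refine ⟨fun h => ⟨fun n hn => ?_, fun n hn => ?_⟩, fun h n hn => ?_⟩
  · obtain ⟨m, rfl⟩ := Nat.exists_eq_add_of_le' (by omega : 1 ≤ n)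
    refine cyc_of_cla hC hcox c c c hc hc hc m (by omega) true true ?_
    rw [ordCl_tt']
    exact h _ (by omega)
  · have hg := good_cla n true true c c c hc hc hc
    rw [ordCl_tt'] at hg
    exact Pool.Agent.H53.VS.F.sh_of_vs _ hC hcox hg (h n hn)
  · have h1 := clD (n := n) (a := true) (b := true) (by omega) (Or.inl rfl)
    rw [shS_tt] at h1
    exact vs_cl2_D hC hcox h1 c hc h.1 (hD_one hC hc h.1 h.2)

/-- **type affine `B`** -/
theorem vs_affB_iff (c e : ℕ) (hc : Even c) (he : Even e) :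
    (∀ n : ℕ, 1 ≤ n → C (VirtualShephard (cla n true false) (ordCl n true false c e e))) ↔
      (∀ n : ℕ, 3 ≤ n → C (Sh (cyc n) fun _ => c)) ∧
        (∀ n : ℕ, 2 ≤ n → C (Sh (cla n true true) fun _ => c)) ∧
          ∀ n : ℕ, 1 ≤ n → C (Sh (cla n true false) (ordCl n true false c e e)) := by
  refine ⟨fun h => ⟨fun n hn => ?_, fun n hn => ?_, fun n hn => ?_⟩,
    fun h n hn => vs_affB hC hcox c e hc he h.1 (hD_one hC hc h.1 h.2.1) h.2.2 n hn⟩
  · obtain ⟨m, rfl⟩ := Nat.exists_eq_add_of_le' (by omega : 1 ≤ n)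
    exact cyc_of_cla hC hcox c e e hc he he m (by omega) true false (h _ (by omega))
  · refine affD_of_typeD hC hcox c hc n hn (vs_par hC hcox (hD n false) (hD_lab n false)
      (p := ordCl (n + 1) true false c e e) (p' := fun _ => c) (fun s => ?_)
      (good_cla _ _ _ _ _ _ hc he he) ⟨fun _ => hc, fun _ _ _ => rfl⟩ (h (n + 1) (by omega)))
    unfold ordCl
    rw [hD_val, if_neg fun h => absurd h.2 (by decide), if_neg (by omega)]
  · exact Pool.Agent.H53.VS.F.sh_of_vs _ hC hcox (good_cla _ _ _ _ _ _ hc he he) (h n hn)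

/-- **type affine `C`** -/
theorem vs_affC_iff' (c : ℕ) (hc : Even c) (E : Set ℕ) (hE : ∀ e ∈ E, Even e) (hne : E.Nonempty) :
    (∀ n : ℕ, 2 ≤ n → ∀ e ∈ E, ∀ e' ∈ E,
      C (VirtualShephard (cla n false false) (ordCl n false false c e e'))) ↔
      (∀ n : ℕ, 3 ≤ n → C (Sh (cyc n) fun _ => c)) ∧
        ∀ n : ℕ, 2 ≤ n → ∀ e ∈ E, ∀ e' ∈ E,
          C (Sh (cla n false false) (ordCl n false false c e e')) := by
  refine ⟨fun h => ⟨fun n hn => ?_, fun n hn e he e' he' => ?_⟩, fun h n hn e he e' he' => ?_⟩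
  · obtain ⟨m, rfl⟩ := Nat.exists_eq_add_of_le' (by omega : 1 ≤ n)
    obtain ⟨e, he⟩ := hne
    exact cyc_of_cla hC hcox c e e hc (hE e he) (hE e he) m (by omega) false false
      (h _ (by omega) e he e he)
  · exact Pool.Agent.H53.VS.F.sh_of_vs _ hC hcox
      (good_cla _ _ _ _ _ _ hc (hE e he) (hE e' he')) (h n hn e he e' he')
  · have h1 := vs_affC hC hcox c hc E hE h.1 (fun n hn e he e' he' => by
      obtain ⟨f, hf⟩ := emb_C1 n c e e' hc (hE e he) (hE e' he')
      exact hC.base.of_injective _ _ f hf (h.2 n hn e he e' he')) n hn e he e' he'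
    exact vs_par hC hcox (fun v : ClV n false false => v.1.1)
      (fun v w => by rw [← gC_lab, gC_surj, gC_surj]) (fun v => by rw [← gC_ord, gC_surj])
      (good_C n e c e' (hE e he) hc (hE e' he'))
      (good_cla n false false c e e' hc (hE e he) (hE e' he')) h1

/-- **all classical types** -/
theorem artin_all (c : ℕ) (hc : Even c) (hcyc : ∀ n : ℕ, 3 ≤ n → C (Sh (cyc n) fun _ => c))
    (hcla : ∀ (n : ℕ) (a b : Bool), 1 ≤ n → (a = true ∨ b = true ∨ 2 ≤ n) →
      C (Sh (cla n a b) fun _ => c)) :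
    (∀ n : ℕ, C (VirtualShephard (CoxeterMatrix.A n) fun _ => c)) ∧
    (∀ n : ℕ, 2 ≤ n → C (VirtualShephard (CoxeterMatrix.B n) fun _ => c)) ∧
    (∀ n : ℕ, 4 ≤ n → C (VirtualShephard (typeD n) fun _ => c)) ∧
    (∀ n : ℕ, 3 ≤ n → C (VirtualShephard (cyc n) fun _ => c)) ∧
    ∀ (n : ℕ) (a b : Bool), 1 ≤ n → (a = true ∨ b = true ∨ 2 ≤ n) →
      C (VirtualShephard (cla n a b) fun _ => c) := by
  have hord : ∀ (n : ℕ) (a b : Bool), ordCl n a b c c c = fun _ => c := by
    intro n a b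
    funext v
    unfold ordCl
    split_ifs <;> rfl
  have hg : ∀ {B : Type} (M : CoxeterMatrix B), Good M fun _ => c :=
    fun M => ⟨fun _ => hc, fun _ _ _ => rfl⟩
  have main : ∀ (n : ℕ) (a b : Bool), 1 ≤ n → (a = true ∨ b = true ∨ 2 ≤ n) →
      C (VirtualShephard (cla n a b) fun _ => c) := by
    intro n a b h1 h2
    have h3 := vs_all hC hcox c hc {c} (fun e he => by rw [Set.mem_singleton_iff.1 he]; exact hc)
      ⟨c, rfl⟩ hcyc (fun n a b h1 h2 e he e' he' => by
        rw [Set.mem_singleton_iff.1 he, Set.mem_singleton_iff.1 he', hord]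
        exact hcla n a b h1 h2) n a b h1 h2 c rfl c rfl
    rwa [hord] at h3
  refine ⟨(Pool.Agent.H53.VS.F.vs_A_iff hC hcox c hc).2 hcyc, fun n hn => ?_, ?_,
    (vs_cyc_iff hC hcox c hc).2 hcyc, main⟩
  · exact vs_par hC hcox (fun s : Fin n => (⟨(s.succ, false), Or.inl rfl⟩ : ClV n true false))
      (hB_lab hn) (fun _ => rfl) (hg _) (hg _) (main n true false (by omega) (Or.inl rfl))
  · exact (vs_typeD_iff hC hcox c hc).2 ⟨hcyc, fun n hn => hcla n true true (by omega) (Or.inl rfl)⟩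

end Pool.Agent.H53.CL.F
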