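import Pool.Agent.H53.CL.Cls

/-!
Irreducible configurations are parts of cycles and of affine diagrams of type `C`.
-/

set_option autoImplicit false

namespace Pool.Agent.H53.CL

open Pool.Agent.Helper741 Pool.Agent.TH107 CoxeterSystem Pool.Agent.X201.AT
open Pool.Agent.H53.VA Pool.Agent.R665.She Pool.Agent.H53.VS

/-- the path with `n + 1` vertices, the edges at the two ends have the label `4`: type affine `C_n`
for `n ≥ 2` -/
def affC (n : ℕ) : CoxeterMatrix (Fin (n + 1)) where
  M := fun i j => if i = j then 1 else if (i : ℕ) + 1 = j ∨ (j : ℕ) + 1 = i then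
    (if (i : ℕ) = 0 ∨ (j : ℕ) = 0 ∨ (i : ℕ) = n ∨ (j : ℕ) = n then 4 else 3) else 2
  isSymm := by
    ext i j
    show (if j = i then 1 else if (j : ℕ) + 1 = i ∨ (i : ℕ) + 1 = j then
      (if (j : ℕ) = 0 ∨ (i : ℕ) = 0 ∨ (j : ℕ) = n ∨ (i : ℕ) = n then 4 else 3) else 2) =
      (if i = j then 1 else if (i : ℕ) + 1 = j ∨ (j : ℕ) + 1 = i then
      (if (i : ℕ) = 0 ∨ (j : ℕ) = 0 ∨ (i : ℕ) = n ∨ (j : ℕ) = n then 4 else 3) else 2)
    have e1 : (j = i) ↔ (i = j) := ⟨Eq.symm, Eq.symm⟩
    have e2 : ((j : ℕ) + 1 = i ∨ (i : ℕ) + 1 = j) ↔ ((i : ℕ) + 1 = j ∨ (j : ℕ) + 1 = i) := or_comm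
    have e3 : ((j : ℕ) = 0 ∨ (i : ℕ) = 0 ∨ (j : ℕ) = n ∨ (i : ℕ) = n) ↔
        ((i : ℕ) = 0 ∨ (j : ℕ) = 0 ∨ (i : ℕ) = n ∨ (j : ℕ) = n) := by tauto
    simp only [e1, e2, e3]
  diagonal := fun i => if_pos rfl
  off_diagonal := fun i j h => by
    show (if i = j then 1 else if (i : ℕ) + 1 = j ∨ (j : ℕ) + 1 = i then
      (if (i : ℕ) = 0 ∨ (j : ℕ) = 0 ∨ (i : ℕ) = n ∨ (j : ℕ) = n then 4 else 3) else 2) ≠ 1
    rw [if_neg h]
    split_ifs <;> norm_num

theorem affC_apply (n : ℕ) (i j : Fin (n + 1)) : affC n i j =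
    if i = j then 1 else if (i : ℕ) + 1 = j ∨ (j : ℕ) + 1 = i then
      (if (i : ℕ) = 0 ∨ (j : ℕ) = 0 ∨ (i : ℕ) = n ∨ (j : ℕ) = n then 4 else 3) else 2 := rfl

/-- orders in type affine `C_n`: `c` for the long roots, `c₀` and `c₁` at the ends -/
def ordC (n c₀ c c₁ : ℕ) (i : Fin (n + 1)) : ℕ :=
  if (i : ℕ) = 0 then c₀ else if (i : ℕ) = n then c₁ else c

theorem cyc_nat {m s t : ℕ} (hst : s < t) (ht : t < m) :
    cyc m (s : ZMod m) (t : ZMod m) = if s + 1 = t ∨ (s = 0 ∧ t + 1 = m) then 3 else 2 := by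
  have h0 : ((s : ℕ) : ZMod m) ≠ (t : ZMod m) := by
    intro h
    rw [ZMod.natCast_eq_natCast_iff'] at h
    rw [Nat.mod_eq_of_lt (by omega), Nat.mod_eq_of_lt ht] at h
    omega
  have h1 : ((s : ℕ) : ZMod m) + 1 = (t : ZMod m) ↔ s + 1 = t := by
    rw [show ((s : ℕ) : ZMod m) + 1 = ((s + 1 : ℕ) : ZMod m) by push_cast; rfl,
      ZMod.natCast_eq_natCast_iff', Nat.mod_eq_of_lt (by omega : s + 1 < m), Nat.mod_eq_of_lt ht]
  have h2 : ((t : ℕ) : ZMod m) + 1 = (s : ZMod m) ↔ (s = 0 ∧ t + 1 = m) := by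
    rw [show ((t : ℕ) : ZMod m) + 1 = ((t + 1 : ℕ) : ZMod m) by push_cast; rfl,
      ZMod.natCast_eq_natCast_iff', Nat.mod_eq_of_lt (by omega : s < m)]
    by_cases h : t + 1 = m
    · rw [h, Nat.mod_self]
      constructor
      · intro h'
        exact ⟨h'.symm, rfl⟩
      · intro h'
        exact h'.1.symm
    · rw [Nat.mod_eq_of_lt (by omega)]
      constructor
      · intro h'
        omega
      · intro h'
        exact absurd h'.2 h
  rw [cyc_apply, if_neg h0]
  by_cases h : s + 1 = t ∨ (s = 0 ∧ t + 1 = m)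
  · rw [if_pos h, if_pos (h.imp h1.2 h2.2)]
  · rw [if_neg h, if_neg fun h' => h (h'.imp h1.1 h2.1)]

section

variable {B I : Type} [Fintype B] [DecidableEq B] [Fintype I] {M : CoxeterMatrix B}
variable {al : B → I → ℝ} {S : Set B} {W : Type} [Group W] (cs : CoxeterSystem M W)
variable {p : B → ℕ} {K : Type} {N : CoxeterMatrix K} {q : K → ℕ} {r : K → (B → ℝ)}

/-- extension of a function on pairs `s < t` to all pairs -/
theorem match_of_lt {K V : Type} (N : CoxeterMatrix K) (M : CoxeterMatrix V) (g : K → V) (l : ℕ)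
    (x : ℕ → K) (hall : ∀ y, ∃ s, s ≤ l ∧ x s = y)
    (h : ∀ s t, s < t → t ≤ l → M (g (x s)) (g (x t)) = N (x s) (x t)) (i j : K) :
    M (g i) (g j) = N i j := by
  obtain ⟨s, hs, rfl⟩ := hall i
  obtain ⟨t, ht, rfl⟩ := hall j
  rcases Nat.lt_trichotomy s t with h1 | h1 | h1
  · exact h s t h1 ht
  · subst h1
    rw [M.diagonal, N.diagonal]
  · rw [M.symmetric, N.symmetric]
    exact h t s h1 hs

/-- **configurations without short roots are parts of cycles** -/
theorem Cls.match_cyc [Finite K] (h : Cls M al S) (hr : ConfS cs p N q r) (hI : IrrM N) (y0 : K)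
    (hS : ∀ i, ¬ Short al r i) :
    ∃ (m : ℕ) (g : K → ZMod m), 3 ≤ m ∧ Function.Injective g ∧ ∀ i j, cyc m (g i) (g j) = N i j := by
  classical
  obtain ⟨l, x, hx, hall, hadj⟩ := path_or_cycle N hI y0 (h.deg cs hr)
  have hlab : ∀ s t, s < t → t ≤ l → N (x s) (x t) ≠ 2 → N (x s) (x t) = 3 := by
    intro s t hst ht hN
    have hne : x s ≠ x t := fun h' => hst.ne (hx.1 s t (by omega) ht h')
    rcases h.label cs hr hne hN with h1 | h1
    · exact h1.1
    · rcases h1.2 with h2 | h2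
      · exact absurd h2.1 (hS _)
      · exact absurd h2.2 (hS _)
  choose idx hidx hidx' using hall
  have hid : ∀ s, s ≤ l → idx (x s) = s := fun s hs => hx.1 _ _ (hidx _) hs (hidx' _)
  obtain ⟨m, hm, hml, hmc⟩ : ∃ m, 3 ≤ m ∧ l < m ∧
      ∀ s t, s < t → t ≤ l → (N (x s) (x t) ≠ 2 ↔ s + 1 = t ∨ (s = 0 ∧ t + 1 = m)) := by
    by_cases hc : 2 ≤ l ∧ N (x 0) (x l) ≠ 2
    · refine ⟨l + 1, by omega, by omega, fun s t hst ht => ⟨fun hN => ?_, ?_⟩⟩
      · rcases hadj s t hst ht hN with h1 | h1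
        · exact Or.inl h1
        · exact Or.inr ⟨h1.1, by omega⟩
      · rintro (rfl | ⟨rfl, h1⟩)
        · exact hx.2 s (by omega)
        · have h2 : t = l := by omega
          subst h2
          exact hc.2
    · refine ⟨l + 3, by omega, by omega, fun s t hst ht => ⟨fun hN => ?_, ?_⟩⟩
      · rcases hadj s t hst ht hN with h1 | ⟨rfl, rfl⟩
        · exact Or.inl h1
        · left
          by_contra h1
          exact hc ⟨by omega, hN⟩
      · rintro (rfl | ⟨rfl, h1⟩)
        · exact hx.2 s (by omega)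
        · omega
  refine ⟨m, fun y => (idx y : ZMod m), hm, ?_, ?_⟩
  · intro y z hyz
    have h1 : idx y = idx z := by
      have h2 : ((idx y : ℕ) : ZMod m) = (idx z : ZMod m) := hyz
      rw [ZMod.natCast_eq_natCast_iff'] at h2
      have h3 := hidx y
      have h4 := hidx z
      rwa [Nat.mod_eq_of_lt (by omega), Nat.mod_eq_of_lt (by omega)] at h2
    rw [← hidx' y, ← hidx' z, h1]
  · refine match_of_lt N (cyc m) _ l x (fun y => ⟨idx y, hidx y, hidx' y⟩) fun s t hst ht => ?_
    show cyc m ((idx (x s) : ℕ) : ZMod m) ((idx (x t) : ℕ) : ZMod m) = _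
    rw [hid s (by omega), hid t ht, cyc_nat hst (by omega)]
    by_cases h1 : N (x s) (x t) = 2
    · rw [h1, if_neg fun h2 => (hmc s t hst ht).2 h2 h1]
    · rw [hlab s t hst ht h1, if_pos ((hmc s t hst ht).1 h1)]

/-- **configurations with short roots are parts of diagrams of type affine `C`** -/
theorem Cls.match_C [Finite K] (h : Cls M al S) (hr : ConfS cs p N q r) (hI : IrrM N)
    (y0 : K) (hS : Short al r y0) :
    ∃ (n : ℕ) (g : K → Fin (n + 1)), 2 ≤ n ∧ Function.Injective g ∧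
      (∀ i j, affC n (g i) (g j) = N i j) ∧
      ∀ i, Short al r i ↔ (g i : ℕ) = 0 ∨ (g i : ℕ) = n := by
  classical
  obtain ⟨l, x, hx, hall, hadj⟩ := path_or_cycle N hI y0 (h.deg cs hr)
  have hne : ∀ s t, s ≤ l → t ≤ l → s ≠ t → x s ≠ x t := fun s t hs ht hst h' =>
    hst (hx.1 s t hs ht h')
  have hsym : ∀ i j, N i j = N j i := fun i j => N.symmetric i j
  have hedge : ∀ s, 0 < s → s ≤ l → N (x s) (x (s - 1)) ≠ 2 := fun s hs hs' => by
    have h1 := hx.2 (s - 1) (by omega)
    rw [show s - 1 + 1 = s by omega] at h1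
    rwa [hsym]
  -- short roots are at the ends
  have hend : ∀ s, s ≤ l → Short al r (x s) → s = 0 ∨ s = l := by
    intro s hs hsh
    by_contra hcon
    push Not at hcon
    have h1 := h.deg_short cs hr (x s) (x (s - 1)) (x (s + 1))
      (hne _ _ hs (by omega) (by omega)) (hne _ _ hs (by omega) (by omega))
      (hedge s (by omega) hs) (hx.2 s (by omega)) hsh
    exact hne _ _ (by omega) (by omega) (by omega) h1
  -- no closing edge
  have hclose : 2 ≤ l → N (x 0) (x l) = 2 := by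
    intro hl
    by_contra hN
    obtain ⟨s, hs, hs'⟩ := hall y0
    have hsh : Short al r (x s) := hs' ▸ hS
    rcases hend s hs hsh with rfl | rfl
    · have h1 := h.deg_short cs hr (x 0) (x 1) (x l) (hne _ _ (by omega) (by omega) (by omega))
        (hne _ _ (by omega) (by omega) (by omega)) (hx.2 0 (by omega)) hN hsh
      exact hne _ _ (by omega) (by omega) (by omega) h1
    · have h1 := h.deg_short cs hr (x s) (x (s - 1)) (x 0) (hne _ _ (by omega) (by omega) (by omega))
        (hne _ _ (by omega) (by omega) (by omega)) (hedge s (by omega) le_rfl)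
        (by rwa [hsym]) hsh
      exact hne _ _ (by omega) (by omega) (by omega) h1
  have hadj' : ∀ s t, s < t → t ≤ l → (N (x s) (x t) ≠ 2 ↔ s + 1 = t) := by
    intro s t hst ht
    constructor
    · intro hN
      rcases hadj s t hst ht hN with h1 | ⟨rfl, rfl⟩
      · exact h1
      · by_contra h1
        exact hN (hclose (by omega))
    · rintro rfl
      exact hx.2 s (by omega)
  choose idx hidx hidx' using hall
  have hid : ∀ s, s ≤ l → idx (x s) = s := fun s hs => hx.1 _ _ (hidx _) hs (hidx' _)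
  by_cases hl : l = 0
  · subst hl
    have h1 : ∀ i j : K, i = j := fun i j => by
      have h2 := hidx i
      have h3 := hidx j
      rw [← hidx' i, ← hidx' j, show idx i = 0 by omega, show idx j = 0 by omega]
    refine ⟨2, fun _ => 0, le_rfl, fun i j _ => h1 i j, fun i j => ?_, fun i => ?_⟩
    · rw [h1 i j, (affC 2).diagonal, N.diagonal]
    · rw [h1 i y0]
      exact ⟨fun _ => Or.inl rfl, fun _ => hS⟩
  obtain ⟨δ, hδ⟩ : ∃ δ : ℕ, (Short al r (x 0) ∧ δ = 0) ∨ (¬ Short al r (x 0) ∧ δ = 1) := by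
    by_cases h1 : Short al r (x 0)
    · exact ⟨0, Or.inl ⟨h1, rfl⟩⟩
    · exact ⟨1, Or.inr ⟨h1, rfl⟩⟩
  obtain ⟨δ', hδ'⟩ : ∃ δ : ℕ, (Short al r (x l) ∧ δ = 0) ∨ (¬ Short al r (x l) ∧ δ = 1) := by
    by_cases h1 : Short al r (x l)
    · exact ⟨0, Or.inl ⟨h1, rfl⟩⟩
    · exact ⟨1, Or.inr ⟨h1, rfl⟩⟩
  have hn : 2 ≤ l + δ + δ' := by
    by_contra hcon
    have h1 : l = 1 := by omega
    subst h1
    have h2 : Short al r (x 0) := by
      rcases hδ with h3 | h3
      · exact h3.1
      · omega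
    have h3 : Short al r (x 1) := by
      rcases hδ' with h3 | h3
      · exact h3.1
      · omega
    rcases h.label cs hr (hne 0 1 (by omega) le_rfl (by omega)) (hx.2 0 (by omega)) with h4 | h4
    · exact h4.2.1 h2
    · rcases h4.2 with h5 | h5
      · exact h5.2 h3
      · exact h5.1 h2
  have hshort : ∀ s, s ≤ l → (Short al r (x s) ↔ s + δ = 0 ∨ s + δ = l + δ + δ') := by
    intro s hs
    constructor
    · intro hsh
      rcases hend s hs hsh with rfl | rfl
      · left
        rcases hδ with h1 | h1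
        · omega
        · exact absurd hsh h1.1
      · right
        rcases hδ' with h1 | h1
        · omega
        · exact absurd hsh h1.1
    · rintro (h1 | h1)
      · have h2 : s = 0 := by omega
        subst h2
        rcases hδ with h3 | h3
        · exact h3.1
        · omega
      · have h2 : s = l := by omega
        subst h2
        rcases hδ' with h3 | h3
        · exact h3.1
        · omega
  refine ⟨l + δ + δ', fun y => ⟨idx y + δ, by have := hidx y; omega⟩, hn, ?_, ?_, ?_⟩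
  · intro y z hyz
    have h1 : idx y + δ = idx z + δ := congrArg Fin.val hyz
    rw [← hidx' y, ← hidx' z, show idx y = idx z by omega]
  · refine match_of_lt N _ _ l x (fun y => ⟨idx y, hidx y, hidx' y⟩) fun s t hst ht => ?_
    rw [affC_apply]
    simp only [hid s (by omega), hid t ht, Fin.mk.injEq]
    rw [if_neg (by omega)]
    by_cases h1 : s + 1 = t
    · rw [if_pos (Or.inl (by omega))]
      have hN := (hadj' s t hst ht).2 h1
      have h2 := h.label cs hr (hne s t (by omega) ht (by omega)) hN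
      rw [hshort s (by omega), hshort t ht] at h2
      rcases h2 with ⟨h3, h4, h5⟩ | ⟨h3, h4⟩
      · rw [h3, if_neg (by omega)]
      · rw [h3, if_pos (by omega)]
    · rw [if_neg (by omega)]
      by_contra hN
      exact h1 ((hadj' s t hst ht).1 (Ne.symm hN))
  · intro i
    rw [← hidx' i]
    show Short al r (x (idx i)) ↔ idx (x (idx i)) + δ = 0 ∨ idx (x (idx i)) + δ = l + δ + δ'
    rw [hidx' i, ← hidx' i, hshort _ (hidx i), hidx' i]

end

end Pool.Agent.H53.CL
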