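import Pool.Agent.H53.CL.Cl2

/-!
Irreducible configurations are parts of affine diagrams of classical type.
-/

set_option autoImplicit false

namespace Pool.Agent.H53.CL

open Pool.Agent.Helper741 Pool.Agent.TH107 CoxeterSystem Pool.Agent.X201.AT
open Pool.Agent.H53.VA Pool.Agent.R665.She Pool.Agent.H53.VS

theorem good_cla (n : ℕ) (a b : Bool) (c e e' : ℕ) (hc : Even c) (he : Even e) (he' : Even e') :
    Good (cla n a b) (ordCl n a b c e e') := by
  constructor
  · intro i
    unfold ordCl
    split_ifs <;> assumption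
  · intro i j hij
    by_cases h : i = j
    · rw [h]
    · rw [cla_apply, if_neg h] at hij
      by_cases h2 : (i.1.1 : ℕ) + 1 = j.1.1 ∨ (j.1.1 : ℕ) + 1 = i.1.1
      · rw [if_pos h2] at hij
        by_cases h3 : (((i.1.1 : ℕ) = 0 ∨ (j.1.1 : ℕ) = 0) ∧ a = false) ∨
            (((i.1.1 : ℕ) = n ∨ (j.1.1 : ℕ) = n) ∧ b = false)
        · rw [if_pos h3] at hij
          exact absurd hij (by decide)
        · unfold ordCl
          rw [if_neg fun h4 => h3 (Or.inl ⟨Or.inl h4.1, h4.2⟩),
            if_neg fun h4 => h3 (Or.inr ⟨Or.inl h4.1, h4.2⟩),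
            if_neg fun h4 => h3 (Or.inl ⟨Or.inr h4.1, h4.2⟩),
            if_neg fun h4 => h3 (Or.inr ⟨Or.inr h4.1, h4.2⟩)]
      · rw [if_neg h2] at hij
        exact absurd hij (by decide)

section

variable {B I : Type} [Fintype B] [DecidableEq B] [Fintype I] {M : CoxeterMatrix B}
variable {al : B → I → ℝ} {S : Set B} {W : Type} [Group W] (cs : CoxeterSystem M W)
variable {p : B → ℕ} {K : Type} {N : CoxeterMatrix K} {q : K → ℕ} {r : K → (B → ℝ)}

/-- the path or cycle of the classes of parallel roots -/
structure PathData (N : CoxeterMatrix K) (al : B → I → ℝ) (r : K → (B → ℝ)) (rep : K → K) (l : ℕ)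
    (x : ℕ → K) : Prop where
  par : ∀ i, Par al r i (rep i)
  eq : ∀ i j, Par al r i j → rep i = rep j
  fix : ∀ s, s ≤ l → rep (x s) = x s
  inj : ∀ s t, s ≤ l → t ≤ l → x s = x t → s = t
  surj : ∀ y, ∃ s, s ≤ l ∧ x s = rep y
  edge : ∀ s, s < l → N (x s) (x (s + 1)) ≠ 2
  adj : ∀ s t, s < t → t ≤ l → N (x s) (x t) ≠ 2 → s + 1 = t ∨ (s = 0 ∧ t = l)

omit [DecidableEq B] [Fintype I] in
theorem PathData.npar {rep : K → K} {l : ℕ} {x : ℕ → K} (D : PathData N al r rep l x) (s t : ℕ)
    (hs : s ≤ l) (ht : t ≤ l) (hst : s ≠ t) : ¬ Par al r (x s) (x t) := fun h => by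
  have h1 := D.eq _ _ h
  rw [D.fix s hs, D.fix t ht] at h1
  exact hst (D.inj s t hs ht h1)

theorem Cl2.path [Finite K] (h : Cl2 M al S) (hr : ConfS cs p N q r) (hI : IrrM N) (y0 : K) :
    ∃ (rep : K → K) (l : ℕ) (x : ℕ → K), PathData N al r rep l x := by
  classical
  let st : Setoid K := ⟨Par al r, ⟨Par.refl, Par.symm, Par.trans⟩⟩
  let rep : K → K := fun i => (Quotient.mk st i).out
  have h1 : ∀ i, Par al r i (rep i) := fun i =>
    Par.symm (Quotient.exact (s := st) (Quotient.out_eq (Quotient.mk st i)))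
  have h2 : ∀ i j, Par al r i j → rep i = rep j := fun i j hij =>
    congrArg Quotient.out (Quotient.sound (s := st) hij)
  have h3 : ∀ i, rep (rep i) = rep i := fun i => (h2 _ _ (h1 i)).symm
  let T : Set K := {i | rep i = i}
  have hT : ∀ i j : T, Par al r i.1 j.1 → i = j := fun i j hij => Subtype.ext (by
    rw [← i.2, ← j.2]
    exact h2 _ _ hij)
  have hI0 : IrrM (subM N T) := by
    intro X hX hX'
    obtain ⟨i, hi⟩ := hX
    obtain ⟨j, hj⟩ := hX'
    obtain ⟨a, ha, b, hb, hab⟩ := hI {k | (⟨rep k, h3 k⟩ : T) ∈ X} ⟨i.1, by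
      have e : (⟨rep i.1, h3 i.1⟩ : T) = i := Subtype.ext i.2
      show (⟨rep i.1, h3 i.1⟩ : T) ∈ X
      rw [e]
      exact hi⟩ ⟨j.1, by
      have e : (⟨rep j.1, h3 j.1⟩ : T) = j := Subtype.ext j.2
      show ¬ (⟨rep j.1, h3 j.1⟩ : T) ∈ X
      rw [e]
      exact hj⟩
    refine ⟨⟨rep a, h3 a⟩, ha, ⟨rep b, h3 b⟩, hb, ?_⟩
    refine h.adj_congr cs hr (fun hp => hb ?_) (h1 a) (h1 b) hab
    have e : (⟨rep b, h3 b⟩ : T) = ⟨rep a, h3 a⟩ := Subtype.ext (h2 _ _ hp).symm
    show (⟨rep b, h3 b⟩ : T) ∈ X
    rw [e]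
    exact ha
  obtain ⟨l, x, hx, hall, hadj⟩ := path_or_cycle (subM N T) hI0 ⟨rep y0, h3 y0⟩ (by
    intro i a b c ha hb hc hNa hNb hNc
    rcases h.deg cs hr i.1 a.1 b.1 c.1 (fun h' => ha (hT _ _ h')) (fun h' => hb (hT _ _ h'))
      (fun h' => hc (hT _ _ h')) hNa hNb hNc with h4 | h4 | h4
    · exact Or.inl (hT _ _ h4)
    · exact Or.inr (Or.inl (hT _ _ h4))
    · exact Or.inr (Or.inr (hT _ _ h4)))
  refine ⟨rep, l, fun s => (x s).1, h1, h2, fun s _ => (x s).2,
    fun s t hs ht hst => hx.1 s t hs ht (Subtype.ext hst), fun y => ?_, hx.2, hadj⟩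
  obtain ⟨s, hs, hs'⟩ := hall ⟨rep y, h3 y⟩
  exact ⟨s, hs, congrArg Subtype.val hs'⟩

/-- short, or with a parallel root -/
def Spec (al : B → I → ℝ) (r : K → (B → ℝ)) (i : K) : Prop :=
  Short al r i ∨ ∃ j, j ≠ i ∧ Par al r i j

theorem Cl2.short_congr (h : Cl2 M al S) (hr : ConfS cs p N q r) {i j : K} (hij : Par al r i j) :
    Short al r i ↔ Short al r j := by
  by_cases hne : i = j
  · rw [hne]
  · rcases h.cases cs hr hne with h1 | h1
    · exact absurd hij h1.1
    · exact ⟨fun h2 => absurd h2 h1.2.2.1, fun h2 => absurd h2 h1.2.2.2⟩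

theorem Cl2.spec_end (h : Cl2 M al S) (hr : ConfS cs p N q r) {rep : K → K} {l : ℕ} {x : ℕ → K}
    (D : PathData N al r rep l x) (s : ℕ) (hs : s ≤ l) (hsp : Spec al r (x s)) : s = 0 ∨ s = l := by
  by_contra hcon
  push Not at hcon
  have hsym : ∀ i j, N i j = N j i := fun i j => N.symmetric i j
  have he := D.edge (s - 1) (by omega)
  rw [show s - 1 + 1 = s by omega, hsym] at he
  exact D.npar (s - 1) (s + 1) (by omega) (by omega) (by omega)
    (h.deg_special cs hr (x s) (x (s - 1)) (x (s + 1)) (D.npar _ _ hs (by omega) (by omega))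
      (D.npar _ _ hs (by omega) (by omega)) he (D.edge s (by omega)) hsp)

theorem Cl2.no_close (h : Cl2 M al S) (hr : ConfS cs p N q r) {rep : K → K} {l : ℕ} {x : ℕ → K}
    (D : PathData N al r rep l x) (s : ℕ) (hs : s ≤ l) (hsp : Spec al r (x s)) (hl : 2 ≤ l) :
    N (x 0) (x l) = 2 := by
  by_contra hN
  have hsym : ∀ i j, N i j = N j i := fun i j => N.symmetric i j
  rcases h.spec_end cs hr D s hs hsp with rfl | rfl
  · exact D.npar 1 l (by omega) (by omega) (by omega)
      (h.deg_special cs hr (x 0) (x 1) (x l) (D.npar _ _ (by omega) (by omega) (by omega))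
        (D.npar _ _ (by omega) (by omega) (by omega)) (D.edge 0 (by omega)) hN hsp)
  · have he := D.edge (s - 1) (by omega)
    rw [show s - 1 + 1 = s by omega, hsym] at he
    exact D.npar (s - 1) 0 (by omega) (by omega) (by omega)
      (h.deg_special cs hr (x s) (x (s - 1)) (x 0) (D.npar _ _ (by omega) (by omega) (by omega))
        (D.npar _ _ (by omega) (by omega) (by omega)) he (by rwa [hsym]) hsp)

/-- **configurations without short and parallel roots are parts of cycles** -/
theorem Cl2.match_cyc [Finite K] (h : Cl2 M al S) (hr : ConfS cs p N q r) (hI : IrrM N) (y0 : K)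
    (hS : ∀ i, ¬ Spec al r i) :
    ∃ (m : ℕ) (g : K → ZMod m), 3 ≤ m ∧ Function.Injective g ∧ ∀ i j, cyc m (g i) (g j) = N i j := by
  classical
  obtain ⟨rep, l, x, D⟩ := h.path cs hr hI y0
  have hrep : ∀ i, rep i = i := fun i => by
    by_contra hne
    exact hS i (Or.inr ⟨rep i, hne, D.par i⟩)
  have hlab : ∀ s t, s < t → t ≤ l → N (x s) (x t) ≠ 2 → N (x s) (x t) = 3 := by
    intro s t hst ht hN
    have hne : x s ≠ x t := fun h' => hst.ne (D.inj s t (by omega) ht h')
    rcases h.prod cs hr hne with h1 | h1 | h1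
    · exact absurd h1.1 hN
    · exact h1.1
    · rcases h1.2.1 with h2 | h2
      · exact absurd (Or.inl h2.1) (hS _)
      · exact absurd (Or.inl h2.2) (hS _)
  have hall : ∀ y, ∃ s, s ≤ l ∧ x s = y := fun y => by
    obtain ⟨s, hs, hs'⟩ := D.surj y
    exact ⟨s, hs, hs'.trans (hrep y)⟩
  choose idx hidx hidx' using hall
  have hid : ∀ s, s ≤ l → idx (x s) = s := fun s hs => D.inj _ _ (hidx _) hs (hidx' _)
  obtain ⟨m, hm, hml, hmc⟩ : ∃ m, 3 ≤ m ∧ l < m ∧
      ∀ s t, s < t → t ≤ l → (N (x s) (x t) ≠ 2 ↔ s + 1 = t ∨ (s = 0 ∧ t + 1 = m)) := by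
    by_cases hc : 2 ≤ l ∧ N (x 0) (x l) ≠ 2
    · refine ⟨l + 1, by omega, by omega, fun s t hst ht => ⟨fun hN => ?_, ?_⟩⟩
      · rcases D.adj s t hst ht hN with h1 | h1
        · exact Or.inl h1
        · exact Or.inr ⟨h1.1, by omega⟩
      · rintro (rfl | ⟨rfl, h1⟩)
        · exact D.edge s (by omega)
        · have h2 : t = l := by omega
          subst h2
          exact hc.2
    · refine ⟨l + 3, by omega, by omega, fun s t hst ht => ⟨fun hN => ?_, ?_⟩⟩
      · rcases D.adj s t hst ht hN with h1 | ⟨rfl, rfl⟩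
        · exact Or.inl h1
        · left
          by_contra h1
          exact hc ⟨by omega, hN⟩
      · rintro (rfl | ⟨rfl, h1⟩)
        · exact D.edge s (by omega)
        · omega
  refine ⟨m, fun y => (idx y : ZMod m), hm, ?_, ?_⟩
  · intro y z hyz
    have h1 : idx y = idx z := by
      have h2 : ((idx y : ℕ) : ZMod m) = (idx z : ZMod m) := hyz
      rw [ZMod.natCast_eq_natCast_iff'] at h2
      have h3 := hidx y
      have h4 := hidx z
      rwa [Nat.mod_eq_of_lt (by omega), Nat.mod_eq_of_lt (by omega)] at h2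
    rw [← hidx' y, ← hidx' z, h1]
  · refine match_of_lt N (cyc m) _ l x (fun y => ⟨idx y, hidx y, hidx' y⟩) fun s t hst ht => ?_
    show cyc m ((idx (x s) : ℕ) : ZMod m) ((idx (x t) : ℕ) : ZMod m) = _
    rw [hid s (by omega), hid t ht, cyc_nat hst (by omega)]
    by_cases h1 : N (x s) (x t) = 2
    · rw [h1, if_neg fun h2 => (hmc s t hst ht).2 h2 h1]
    · rw [hlab s t hst ht h1, if_pos ((hmc s t hst ht).1 h1)]

/-- **the embedding into an affine diagram of classical type** -/
theorem Cl2.match_cla (h : Cl2 M al S) (hr : ConfS cs p N q r) {rep : K → K} {l : ℕ} {x : ℕ → K}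
    (D : PathData N al r rep l x) (hclose : 2 ≤ l → N (x 0) (x l) = 2) (n δ : ℕ) (a b : Bool)
    (hn : l + δ ≤ n) (hn1 : 1 ≤ n) (c0 : δ = 0 → (a = false ↔ Short al r (x 0)))
    (c1 : 0 < l → l + δ = n → (b = false ↔ Short al r (x l)))
    (c2 : 0 < δ → ¬ Spec al r (x 0)) (c3 : 0 < l → l + δ < n → ¬ Spec al r (x l))
    (c6 : l = 0 → δ < n) (c e e' : ℕ) (hq : ∀ i, ¬ Short al r i → q i = c)
    (he : Short al r (x 0) → e = q (x 0)) (he' : 0 < l → Short al r (x l) → e' = q (x l)) :
    ∃ g : K → ClV n a b, Function.Injective g ∧ (∀ i j, cla n a b (g i) (g j) = N i j) ∧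
      ∀ i, ordCl n a b c e e' (g i) = q i := by
  classical
  have hsym : ∀ i j, N i j = N j i := fun i j => N.symmetric i j
  have hadj : ∀ s t, s < t → t ≤ l → (N (x s) (x t) ≠ 2 ↔ s + 1 = t) := by
    intro s t hst ht
    constructor
    · intro hN
      rcases D.adj s t hst ht hN with h1 | ⟨rfl, rfl⟩
      · exact h1
      · by_contra h1
        exact hN (hclose (by omega))
    · rintro rfl
      exact D.edge s (by omega)
  choose idx hidx hidx' using D.surj
  have hrr : ∀ i, rep (rep i) = rep i := fun i => (D.eq _ _ (D.par i)).symm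
  have hidr : ∀ i j, idx i = idx j → Par al r i j := fun i j hij => by
    have h1 : rep i = rep j := by rw [← hidx' i, ← hidx' j, hij]
    exact (D.par i).trans (h1 ▸ (D.par j).symm)
  have hshort : ∀ i, Short al r i ↔ Short al r (x (idx i)) := fun i => by
    rw [hidx']
    exact h.short_congr cs hr (D.par i)
  -- short roots
  have hs0 : ∀ s, s < l → (Short al r (x s) ↔ s = 0 ∧ δ = 0 ∧ a = false) := by
    intro s hs
    constructor
    · intro hsh
      rcases h.spec_end cs hr D s hs.le (Or.inl hsh) with rfl | rfl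
      · have hδ : δ = 0 := by
          by_contra hδ
          exact c2 (by omega) (Or.inl hsh)
        exact ⟨rfl, hδ, (c0 hδ).2 hsh⟩
      · omega
    · rintro ⟨rfl, h1, h2⟩
      exact (c0 h1).1 h2
  have hs1 : ∀ s, 0 < s → s ≤ l → (Short al r (x s) ↔ s = l ∧ l + δ = n ∧ b = false) := by
    intro s hs hs'
    constructor
    · intro hsh
      rcases h.spec_end cs hr D s hs' (Or.inl hsh) with rfl | rfl
      · omega
      · have hδ : s + δ = n := by
          by_contra hδ
          exact c3 hs (by omega) (Or.inl hsh)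
        exact ⟨rfl, hδ, (c1 hs hδ).2 hsh⟩
    · rintro ⟨rfl, h1, h2⟩
      exact (c1 hs h1).1 h2
  let g : K → ClV n a b := fun i => ⟨(⟨idx i + δ, by have := hidx i; omega⟩,
    if rep i = i then false else true), by
      by_cases h1 : rep i = i
      · exact Or.inl (if_pos h1)
      · right
        have hpar : ∃ j, j ≠ x (idx i) ∧ Par al r (x (idx i)) j :=
          ⟨i, fun h2 => h1 (by rw [← hidx' i]; exact h2.symm), by rw [hidx']; exact (D.par i).symm⟩
        have hns : ¬ Short al r (x (idx i)) := by
          obtain ⟨j, hj, hj'⟩ := hpar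
          rcases h.cases cs hr hj.symm with h3 | h3
          · exact absurd hj' h3.1
          · exact h3.2.2.1
        rcases h.spec_end cs hr D (idx i) (hidx i) (Or.inr hpar) with h2 | h2
        · left
          rw [h2] at hns hpar
          have hδ : δ = 0 := by
            by_contra hδ
            exact c2 (by omega) (Or.inr hpar)
          refine ⟨show idx i + δ = 0 by omega, ?_⟩
          cases ha : a
          · exact absurd ((c0 hδ).1 ha) hns
          · rfl
        · by_cases hl : l = 0
          · left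
            have h2' : idx i = 0 := by omega
            rw [h2'] at hns hpar
            have hδ : δ = 0 := by
              by_contra hδ
              exact c2 (by omega) (Or.inr hpar)
            refine ⟨show idx i + δ = 0 by omega, ?_⟩
            cases ha : a
            · exact absurd ((c0 hδ).1 ha) hns
            · rfl
          · right
            rw [h2] at hns hpar
            have hδ : l + δ = n := by
              by_contra hδ
              exact c3 (by omega) (by omega) (Or.inr hpar)
            refine ⟨show idx i + δ = n by omega, ?_⟩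
            cases hb : b
            · exact absurd ((c1 (by omega) hδ).1 hb) hns
            · rfl⟩
  have g1 : ∀ i, ((g i).1.1 : ℕ) = idx i + δ := fun i => rfl
  have g2 : ∀ i, (g i).1.2 = if rep i = i then false else true := fun i => rfl
  have hinj : Function.Injective g := by
    intro i j hij
    have h1 : idx i = idx j := by
      have h2 := congrArg (fun v : ClV n a b => (v.1.1 : ℕ)) hij
      simp only [g1] at h2
      omega
    have h2 : rep i = rep j := by rw [← hidx' i, ← hidx' j, h1]
    have h3 : (if rep i = i then false else true) = (if rep j = j then false else true) := by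
      rw [← g2, ← g2, hij]
    by_cases h4 : rep i = i
    · rw [if_pos h4] at h3
      by_cases h5 : rep j = j
      · rw [← h4, ← h5, h2]
      · rw [if_neg h5] at h3
        exact absurd h3 (by decide)
    · rw [if_neg h4] at h3
      by_cases h5 : rep j = j
      · rw [if_pos h5] at h3
        exact absurd h3 (by decide)
      · rcases h.par_three cs hr (rep i) i j (D.par i).symm (h2 ▸ (D.par j).symm) with h6 | h6 | h6
        · exact absurd h6 h4
        · exact h6
        · exfalso
          apply h5
          rw [← h6]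
          exact hrr i
  refine ⟨g, hinj, fun i j => ?_, fun i => ?_⟩
  · -- labels
    have key : ∀ i j : K, idx i < idx j → cla n a b (g i) (g j) = N i j := by
      intro i j hlt
      have hgne : g i ≠ g j := fun h1 => by
        have h2 := congrArg (fun v : ClV n a b => (v.1.1 : ℕ)) h1
        simp only [g1] at h2
        omega
      have hne : i ≠ j := fun h1 => hgne (h1 ▸ rfl)
      have hnp : ¬ Par al r i j := fun h1 => by
        have h2 := D.eq _ _ h1
        rw [← hidx' i, ← hidx' j] at h2
        have h3 := D.inj _ _ (hidx i) (hidx j) h2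
        omega
      have hnp' : ¬ Par al r (rep i) (rep j) := fun h1 =>
        hnp (((D.par i).trans h1).trans (D.par j).symm)
      have hiff : N i j ≠ 2 ↔ idx i + 1 = idx j := by
        rw [← hadj _ _ hlt (hidx j), hidx', hidx']
        exact ⟨h.adj_congr cs hr hnp (D.par i) (D.par j),
          h.adj_congr cs hr hnp' (D.par i).symm (D.par j).symm⟩
      have hj := hidx j
      rw [cla_apply, if_neg hgne, g1, g1]
      by_cases h1 : idx i + 1 = idx j
      · rw [if_pos (Or.inl (by omega))]
        have e1 := hs0 (idx i) (by omega)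
        have e2 := hs1 (idx j) (by omega) hj
        rw [← hshort] at e1 e2
        have hN := hiff.2 h1
        rcases h.prod cs hr hne with h2 | h2 | h2
        · exact absurd h2.1 hN
        · rw [h2.1, if_neg]
          rintro (⟨h3, h4⟩ | ⟨h3, h4⟩)
          · exact h2.2.1.1 (e1.2 ⟨by omega, by omega, h4⟩)
          · exact h2.2.1.2 (e2.2 ⟨by omega, by omega, h4⟩)
        · rw [h2.1, if_pos]
          rcases h2.2.1 with h3 | h3
          · obtain ⟨h4, h5, h6⟩ := e1.1 h3.1
            exact Or.inl ⟨Or.inl (by omega), h6⟩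
          · obtain ⟨h4, h5, h6⟩ := e2.1 h3.2
            exact Or.inr ⟨Or.inr (by omega), h6⟩
      · rw [if_neg (by omega)]
        by_contra hN
        exact h1 (hiff.1 (Ne.symm hN))
    rcases Nat.lt_trichotomy (idx i) (idx j) with h1 | h1 | h1
    · exact key i j h1
    · by_cases hij : i = j
      · subst hij
        rw [(cla n a b).diagonal, N.diagonal]
      · have hgne : g i ≠ g j := fun h2 => hij (hinj h2)
        rw [cla_apply, if_neg hgne, g1, g1, if_neg (by omega)]
        rcases h.cases cs hr hij with h2 | h2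
        · exact absurd (hidr i j h1) h2.1
        · exact h2.2.1.symm
    · rw [(cla n a b).symmetric, hsym]
      exact key j i h1
  · -- orders
    unfold ordCl
    rw [g1]
    have hi := hidx i
    by_cases h1 : Short al r i
    · have h2 : rep i = i := by
        by_contra hne
        rcases h.cases cs hr (Ne.symm hne) with h3 | h3
        · exact h3.1 (D.par i)
        · exact h3.2.2.1 h1
      have h3 : x (idx i) = i := by rw [hidx', h2]
      have h4 : Short al r (x (idx i)) := h3.symm ▸ h1
      by_cases h5 : idx i = 0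
      · have hx0 : x 0 = i := by rw [← h5]; exact h3
        have h6 : Short al r (x 0) := hx0.symm ▸ h1
        have hδ : δ = 0 := by
          by_contra hδ
          exact c2 (by omega) (Or.inl h6)
        rw [if_pos ⟨by omega, (c0 hδ).2 h6⟩, he h6, hx0]
      · obtain ⟨h6, h7, h8⟩ := (hs1 _ (by omega) hi).1 h4
        have hxl : x l = i := by rw [← h6]; exact h3
        rw [if_neg (by rintro ⟨h9, -⟩; omega), if_pos ⟨by omega, h8⟩, he' (by omega) (hxl.symm ▸ h1),
          hxl]
    · have h4 : ¬ Short al r (x (idx i)) := fun h5 => h1 ((hshort i).2 h5)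
      rw [if_neg, if_neg, hq i h1]
      · rintro ⟨h5, h6⟩
        have h7 : idx i = l := by omega
        by_cases hl : l = 0
        · have := c6 hl
          omega
        · apply h4
          rw [h7]
          exact (c1 (by omega) (by omega)).1 h6
      · rintro ⟨h5, h6⟩
        have h7 : idx i = 0 := by omega
        apply h4
        rw [h7]
        exact (c0 (by omega)).1 h6

end

end Pool.Agent.H53.CL
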