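import Pool.Agent.H53.CL.Fam

/-!
The root systems of type affine `A` and affine `C`.
-/

set_option autoImplicit false

namespace Pool.Agent.H53.CL

open Pool.Agent.Helper741 Pool.Agent.TH107 CoxeterSystem Pool.Agent.X201.AT
open Pool.Agent.H53.VA Pool.Agent.R665.She Pool.Agent.H53.VS

/-- the vector `a e x - b e y` -/
noncomputable def tv {I : Type} [DecidableEq I] (a b : ℝ) (x y k : I) : ℝ :=
  a * (if k = x then 1 else 0) - b * (if k = y then 1 else 0)

section

variable {I : Type} [Fintype I] [DecidableEq I]

theorem sum_tv (u : I → ℝ) (a b : ℝ) (x y : I) :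
    ∑ k, u k * tv a b x y k = a * u x - b * u y := by
  unfold tv
  simp only [mul_sub, Finset.sum_sub_distrib, mul_ite, mul_one, mul_zero, Finset.sum_ite_eq',
    Finset.mem_univ, if_true]
  ring

omit [Fintype I] in
theorem tv_left {a b : ℝ} {x y : I} (h : x ≠ y) : tv a b x y x = a := by
  unfold tv
  rw [if_pos rfl, if_neg h]
  ring

omit [Fintype I] in
theorem tv_right {a b : ℝ} {x y : I} (h : x ≠ y) : tv a b x y y = -b := by
  unfold tv
  rw [if_pos rfl, if_neg h.symm]
  ring

omit [Fintype I] in
theorem tv_other {a b : ℝ} {x y k : I} (h : k ≠ x) (h' : k ≠ y) : tv a b x y k = 0 := by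
  unfold tv
  rw [if_neg h, if_neg h']
  ring

omit [Fintype I] in
/-- products of coordinates of different simple roots -/
theorem tv_sign {a b a' b' : ℝ} {x y x' y' : I} (hxy : x ≠ y) (hxy' : x' ≠ y') (hx : x ≠ x')
    (hy : y ≠ y') (h1 : 0 ≤ a * b') (h2 : 0 ≤ b * a') (k : I) :
    tv a b x y k * tv a' b' x' y' k ≤ 0 := by
  by_cases e1 : k = x
  · subst e1
    rw [tv_left hxy]
    by_cases e2 : k = y'
    · subst e2
      rw [tv_right hxy']
      linarith
    · rw [tv_other hx e2, mul_zero]
  · by_cases e1' : k = y
    · subst e1'
      rw [tv_right hxy]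
      by_cases e2 : k = x'
      · subst e2
        rw [tv_left hxy']
        linarith
      · rw [tv_other e2 hy, mul_zero]
    · rw [tv_other e1 e1', zero_mul]

omit [Fintype I] in
theorem tv_sq {a b c : ℝ} {x y : I} (hxy : x ≠ y) (ha : a ^ 2 = 0 ∨ a ^ 2 = c)
    (hb : b ^ 2 = 0 ∨ b ^ 2 = c) (k : I) : tv a b x y k ^ 2 = 0 ∨ tv a b x y k ^ 2 = c := by
  by_cases e1 : k = x
  · subst e1
    rwa [tv_left hxy]
  · by_cases e2 : k = y
    · subst e2
      rw [tv_right hxy, neg_sq]
      exact hb
    · rw [tv_other e1 e2]
      left
      norm_num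

/-- the reflection in `e x - e y` -/
theorem tv_swap {x y : I} (hxy : x ≠ y) (u : I → ℝ) (k : I) :
    u k - (∑ m, u m * tv 1 1 x y m) * tv 1 1 x y k = 1 * u (Equiv.swap x y k) := by
  rw [sum_tv]
  by_cases e1 : k = x
  · subst e1
    rw [tv_left hxy, Equiv.swap_apply_left]
    ring
  · by_cases e2 : k = y
    · subst e2
      rw [tv_right hxy, Equiv.swap_apply_right]
      ring
    · rw [tv_other e1 e2, Equiv.swap_apply_of_ne_of_ne e1 e2]
      ring

end

theorem cos3 : Real.cos (Real.pi / ((3 : ℕ) : ℝ)) = 1 / 2 := by
  push_cast
  exact Real.cos_pi_div_three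

theorem cos2 : Real.cos (Real.pi / ((2 : ℕ) : ℝ)) = 0 := by
  push_cast
  exact Real.cos_pi_div_two

theorem cos4 : Real.cos (Real.pi / ((4 : ℕ) : ℝ)) = √2 / 2 := by
  push_cast
  exact Real.cos_pi_div_four

section cyc

variable (n : ℕ) [NeZero n]

/-- the simple roots of type affine `A` -/
noncomputable def alA (s : ZMod n) (k : ZMod n) : ℝ := tv 1 1 s (s + 1) k

theorem clsA (hn : 3 ≤ n) : Cls (cyc n) (alA n) ∅ := by
  have h1 : ∀ s : ZMod n, s ≠ s + 1 := by
    intro s h
    have h2 : (1 : ZMod n) = 0 := by
      have := h
      rw [left_eq_add] at this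
      exact this
    have h3 : ((1 : ℕ) : ZMod n) = 0 := by rw [Nat.cast_one]; exact h2
    rw [ZMod.natCast_eq_zero_iff] at h3
    have := Nat.le_of_dvd one_pos h3
    omega
  have h2 : ∀ s t : ZMod n, s + 1 = t → t + 1 ≠ s := by
    rintro s t rfl h
    have h3 : ((2 : ℕ) : ZMod n) = 0 := by
      push_cast
      have h4 : s + (1 + 1) = s := by rw [← add_assoc]; exact h
      rw [add_eq_left] at h4
      rw [← h4]
      norm_num
    rw [ZMod.natCast_eq_zero_iff] at h3
    have := Nat.le_of_dvd two_pos h3
    omega
  refine ⟨fun s t => ?_, fun s t hst k => ?_, fun s _ k => ?_, fun s hs => absurd hs (by simp),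
    fun s => ⟨Equiv.swap s (s + 1), fun _ => 1, fun _ => one_pow 2, fun u k => ?_⟩,
    fun s t hst => ?_⟩
  · unfold alA
    rw [sum_tv]
    by_cases hst : s = t
    · subst hst
      rw [cc_self, tv_left (h1 s), tv_right (h1 s)]
      norm_num
    · have hst' : t + 1 ≠ s + 1 := fun h => hst (add_right_cancel h).symm
      unfold cc
      rw [cyc_apply, if_neg hst]
      by_cases h3 : s + 1 = t
      · rw [if_pos (Or.inl h3), cos3, ← h3, tv_right (h1 s),
          tv_other (fun h => h2 _ _ rfl h) (fun h => h1 s (add_right_cancel h).symm)]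
        norm_num
      · by_cases h4 : t + 1 = s
        · rw [if_pos (Or.inr h4), cos3, h4, tv_left (h1 s),
            tv_other (Ne.symm hst) (fun h => h3 h.symm)]
          norm_num
        · rw [if_neg (by rintro (h | h) <;> contradiction), cos2,
            tv_other (Ne.symm hst) (fun h => h3 h.symm), tv_other h4 hst']
          norm_num
  · exact tv_sign (h1 s) (h1 t) hst (fun h => hst (add_right_cancel h)) (by norm_num) (by norm_num) k
  · exact tv_sq (h1 s) (Or.inr (by norm_num)) (Or.inr (by norm_num)) k
  · exact tv_swap (h1 s) u k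
  · rw [cyc_apply, if_neg hst]
    by_cases h : s + 1 = t ∨ t + 1 = s
    · rw [if_pos h]
      exact Or.inr (Or.inr (Or.inl ⟨rfl, by simp, by simp⟩))
    · rw [if_neg h]
      exact Or.inr (Or.inl rfl)

end cyc

section affC

variable (n : ℕ)

/-- the left coefficient -/
noncomputable def cA (s : Fin (n + 1)) : ℝ := if (s : ℕ) = 0 then 0 else if (s : ℕ) = n then √2 else 1

/-- the right coefficient -/
noncomputable def cB (s : Fin (n + 1)) : ℝ := if (s : ℕ) = 0 then √2 else if (s : ℕ) = n then 0 else 1

/-- the simple roots of type affine `C` -/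
noncomputable def alC (s : Fin (n + 1)) (k : Fin (n + 2)) : ℝ := tv (cA n s) (cB n s) s.castSucc s.succ k

theorem cA_nonneg (s : Fin (n + 1)) : 0 ≤ cA n s := by
  unfold cA
  split_ifs <;> positivity

theorem cB_nonneg (s : Fin (n + 1)) : 0 ≤ cB n s := by
  unfold cB
  split_ifs <;> positivity

theorem s2 : √(2 : ℝ) ^ 2 = 2 := Real.sq_sqrt (by norm_num)

theorem clsC (hn : 2 ≤ n) : Cls (affC n) (alC n) {s | (s : ℕ) = 0 ∨ (s : ℕ) = n} := by
  have h1 : ∀ s : Fin (n + 1), s.castSucc ≠ s.succ := fun s => Fin.castSucc_lt_succ.ne
  have hcs : ∀ s t : Fin (n + 1), s.castSucc = t.succ ↔ (t : ℕ) + 1 = s := by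
    intro s t
    rw [Fin.ext_iff]
    simp only [Fin.val_castSucc, Fin.val_succ]
    exact eq_comm
  refine ⟨fun s t => ?_, fun s t hst k => ?_, fun s hs k => ?_, fun s hs k => ?_, fun s => ?_,
    fun s t hst => ?_⟩
  · unfold alC
    rw [sum_tv]
    by_cases hst : s = t
    · subst hst
      rw [cc_self, tv_left (h1 s), tv_right (h1 s)]
      unfold cA cB
      by_cases h2 : (s : ℕ) = 0
      · simp only [h2, if_true]
        nlinarith [s2]
      · by_cases h3 : (s : ℕ) = n
        · rw [if_neg h2, if_pos h3, if_neg h2, if_pos h3]
          nlinarith [s2]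
        · rw [if_neg h2, if_neg h3, if_neg h2, if_neg h3]
          norm_num
    · have e1 : t.castSucc ≠ s.castSucc := fun h => hst (Fin.castSucc_injective _ h).symm
      have e2 : t.succ ≠ s.succ := fun h => hst (Fin.succ_injective _ h).symm
      unfold cc
      rw [affC_apply, if_neg hst]
      by_cases h2 : (s : ℕ) + 1 = t
      · have e3 : t.castSucc = s.succ := (hcs t s).2 h2
        have e4 : t.succ ≠ s.castSucc := fun h => by
          have := (hcs s t).1 h.symm
          omega
        rw [if_pos (Or.inl h2), e3, tv_right (h1 s), tv_other e4 e2]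
        unfold cA cB
        by_cases h3 : (s : ℕ) = 0
        · have h4 : (t : ℕ) ≠ 0 := by omega
          have h5 : (t : ℕ) ≠ n := by omega
          rw [if_pos (Or.inl h3), cos4]
          simp only [h3, h4, h5, if_true, if_false]
          ring
        · by_cases h4 : (t : ℕ) = n
          · rw [if_pos (Or.inr (Or.inr (Or.inr h4))), cos4]
            have h5 : (t : ℕ) ≠ 0 := by omega
            have h6 : (s : ℕ) ≠ n := by omega
            rw [if_neg h5, if_pos h4, if_neg h3, if_neg h6]
            ring
          · have h5 : (t : ℕ) ≠ 0 := by omega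
            have h6 : (s : ℕ) ≠ n := by omega
            rw [if_neg (by simp only [h3, h4, h5, h6, or_self, not_false_eq_true]), cos3,
              if_neg h5, if_neg h4, if_neg h3, if_neg h6]
            ring
      · by_cases h2' : (t : ℕ) + 1 = s
        · have e3 : t.succ = s.castSucc := ((hcs s t).2 h2').symm
          have e4 : t.castSucc ≠ s.succ := fun h => by
            have := (hcs t s).1 h
            omega
          rw [if_pos (Or.inr h2'), e3, tv_left (h1 s), tv_other e1 e4]
          by_cases h3 : (t : ℕ) = 0
          · have hA : cA n s = 1 := by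
              unfold cA
              rw [if_neg (by omega), if_neg (by omega)]
            have hB : cB n t = √2 := if_pos h3
            rw [if_pos (Or.inr (Or.inl h3)), cos4, hA, hB]
            ring
          · by_cases h4 : (s : ℕ) = n
            · have hA : cA n s = √2 := by
                unfold cA
                rw [if_neg (by omega), if_pos h4]
              have hB : cB n t = 1 := by
                unfold cB
                rw [if_neg h3, if_neg (by omega)]
              rw [if_pos (Or.inr (Or.inr (Or.inl h4))), cos4, hA, hB]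
              ring
            · have hA : cA n s = 1 := by
                unfold cA
                rw [if_neg (by omega), if_neg h4]
              have hB : cB n t = 1 := by
                unfold cB
                rw [if_neg h3, if_neg (by omega)]
              rw [if_neg (by omega), cos3, hA, hB]
              ring
        · have e3 : t.castSucc ≠ s.succ := fun h => h2 ((hcs t s).1 h)
          have e4 : t.succ ≠ s.castSucc := fun h => h2' ((hcs s t).1 h.symm)
          rw [if_neg (by rintro (h | h) <;> contradiction), cos2, tv_other e1 e3, tv_other e4 e2]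
          ring
  · exact tv_sign (h1 s) (h1 t) (fun h => hst (Fin.castSucc_injective _ h))
      (fun h => hst (Fin.succ_injective _ h)) (mul_nonneg (cA_nonneg n s) (cB_nonneg n t))
      (mul_nonneg (cB_nonneg n s) (cA_nonneg n t)) k
  · simp only [Set.mem_ofPred_eq, not_or] at hs
    apply tv_sq (h1 s)
    · unfold cA
      rw [if_neg hs.1, if_neg hs.2]
      right
      norm_num
    · unfold cB
      rw [if_neg hs.1, if_neg hs.2]
      right
      norm_num
  · apply tv_sq (h1 s)
    · unfold cA
      rcases hs with h2 | h2
      · rw [if_pos h2]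
        left
        norm_num
      · rw [if_neg (by omega), if_pos h2]
        exact Or.inr s2
    · unfold cB
      rcases hs with h2 | h2
      · rw [if_pos h2]
        exact Or.inr s2
      · rw [if_neg (by omega), if_pos h2]
        left
        norm_num
  · by_cases h2 : (s : ℕ) = 0
    · refine ⟨1, fun k => if k = s.succ then -1 else 1, fun k => ?_, fun u k => ?_⟩
      · dsimp only
        split_ifs <;> norm_num
      · have e1 : cA n s = 0 := if_pos h2
        have e2 : cB n s = √2 := if_pos h2
        unfold alC
        rw [sum_tv, e1, e2, Equiv.Perm.one_apply]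
        dsimp only
        by_cases h3 : k = s.succ
        · subst h3
          rw [if_pos rfl, tv_right (h1 s)]
          have := s2
          linear_combination (-u s.succ) * this
        · rw [if_neg h3]
          unfold tv
          rw [if_neg h3]
          ring
    · by_cases h3 : (s : ℕ) = n
      · refine ⟨1, fun k => if k = s.castSucc then -1 else 1, fun k => ?_, fun u k => ?_⟩
        · dsimp only
          split_ifs <;> norm_num
        · have e1 : cA n s = √2 := by
            unfold cA
            rw [if_neg h2, if_pos h3]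
          have e2 : cB n s = 0 := by
            unfold cB
            rw [if_neg h2, if_pos h3]
          unfold alC
          rw [sum_tv, e1, e2, Equiv.Perm.one_apply]
          dsimp only
          by_cases h3 : k = s.castSucc
          · subst h3
            rw [if_pos rfl, tv_left (h1 s)]
            have := s2
            linear_combination (-u s.castSucc) * this
          · rw [if_neg h3]
            unfold tv
            rw [if_neg h3]
            ring
      · refine ⟨Equiv.swap s.castSucc s.succ, fun _ => 1, fun _ => one_pow 2, fun u k => ?_⟩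
        have e1 : cA n s = 1 := by
          unfold cA
          rw [if_neg h2, if_neg h3]
        have e2 : cB n s = 1 := by
          unfold cB
          rw [if_neg h2, if_neg h3]
        unfold alC
        rw [e1, e2]
        exact tv_swap (h1 s) u k
  · rw [affC_apply, if_neg hst]
    have hs' : (s : ℕ) ≤ n := by omega
    have ht' : (t : ℕ) ≤ n := by omega
    by_cases h2 : (s : ℕ) + 1 = t ∨ (t : ℕ) + 1 = s
    · rw [if_pos h2]
      by_cases h3 : (s : ℕ) = 0 ∨ (t : ℕ) = 0 ∨ (s : ℕ) = n ∨ (t : ℕ) = n
      · rw [if_pos h3]
        refine Or.inr (Or.inr (Or.inr ⟨rfl, ?_⟩))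
        simp only [Set.mem_ofPred_eq]
        omega
      · rw [if_neg h3]
        refine Or.inr (Or.inr (Or.inl ⟨rfl, ?_⟩))
        simp only [Set.mem_ofPred_eq]
        omega
    · rw [if_neg h2]
      exact Or.inr (Or.inl rfl)

end affC

end Pool.Agent.H53.CL
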