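import Pool.Agent.H53.CL.Fam2

/-!
The root systems of the affine diagrams of classical type.
-/

set_option autoImplicit false

namespace Pool.Agent.H53.CL

open Pool.Agent.Helper741 Pool.Agent.TH107 CoxeterSystem Pool.Agent.X201.AT
open Pool.Agent.H53.VA Pool.Agent.R665.She Pool.Agent.H53.VS

variable (n : ℕ) (a b : Bool)

/-- the left coefficient -/
noncomputable def dA (v : ClV n a b) : ℝ :=
  if (v.1.1 : ℕ) = 0 then (if a = false then 0 else if v.1.2 = true then -1 else 1)
  else if (v.1.1 : ℕ) = n then (if b = false then √2 else 1) else 1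

/-- the right coefficient -/
noncomputable def dB (v : ClV n a b) : ℝ :=
  if (v.1.1 : ℕ) = 0 then (if a = false then √2 else 1)
  else if (v.1.1 : ℕ) = n then (if b = false then 0 else if v.1.2 = true then -1 else 1) else 1

/-- the simple roots -/
noncomputable def alD (v : ClV n a b) (k : Fin (n + 2)) : ℝ :=
  tv (dA n a b v) (dB n a b v) v.1.1.castSucc v.1.1.succ k

variable {n a b}

theorem dA_pos {v : ClV n a b} (hv : (v.1.1 : ℕ) ≠ 0) :
    dA n a b v = if (v.1.1 : ℕ) = n ∧ b = false then √2 else 1 := by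
  unfold dA
  rw [if_neg hv]
  by_cases h1 : (v.1.1 : ℕ) = n
  · rw [if_pos h1]
    by_cases h2 : b = false
    · rw [if_pos h2, if_pos ⟨h1, h2⟩]
    · rw [if_neg h2, if_neg fun h3 => h2 h3.2]
  · rw [if_neg h1, if_neg fun h3 => h1 h3.1]

theorem dB_pos {v : ClV n a b} (hv : (v.1.1 : ℕ) ≠ n) :
    dB n a b v = if (v.1.1 : ℕ) = 0 ∧ a = false then √2 else 1 := by
  unfold dB
  by_cases h1 : (v.1.1 : ℕ) = 0
  · rw [if_pos h1]
    by_cases h2 : a = false
    · rw [if_pos h2, if_pos ⟨h1, h2⟩]
    · rw [if_neg h2, if_neg fun h3 => h2 h3.2]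
  · rw [if_neg h1, if_neg hv, if_neg fun h3 => h1 h3.1]

/-- the short simple roots -/
def shS (n : ℕ) (a b : Bool) : Set (ClV n a b) :=
  {v | ((v.1.1 : ℕ) = 0 ∧ a = false) ∨ ((v.1.1 : ℕ) = n ∧ b = false)}

theorem d_short (hn : 1 ≤ n) {v : ClV n a b} (hv : v ∈ shS n a b) :
    (dA n a b v = 0 ∧ dB n a b v = √2) ∨ (dA n a b v = √2 ∧ dB n a b v = 0) := by
  unfold dA dB
  rcases hv with ⟨h1, h2⟩ | ⟨h1, h2⟩
  · left
    rw [if_pos h1, if_pos h2, if_pos h1, if_pos h2]
    exact ⟨rfl, rfl⟩
  · right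
    have h3 : (v.1.1 : ℕ) ≠ 0 := by omega
    rw [if_neg h3, if_pos h1, if_pos h2, if_neg h3, if_pos h1, if_pos h2]
    exact ⟨rfl, rfl⟩

theorem d_long {v : ClV n a b} (hv : v ∉ shS n a b) :
    dA n a b v ^ 2 = 1 ∧ dB n a b v ^ 2 = 1 := by
  have h1 : ¬ ((v.1.1 : ℕ) = 0 ∧ a = false) := fun h => hv (Or.inl h)
  have h2 : ¬ ((v.1.1 : ℕ) = n ∧ b = false) := fun h => hv (Or.inr h)
  constructor
  · unfold dA
    by_cases h3 : (v.1.1 : ℕ) = 0
    · rw [if_pos h3, if_neg fun h => h1 ⟨h3, h⟩]
      split_ifs <;> norm_num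
    · rw [if_neg h3]
      by_cases h4 : (v.1.1 : ℕ) = n
      · rw [if_pos h4, if_neg fun h => h2 ⟨h4, h⟩]
        norm_num
      · rw [if_neg h4]
        norm_num
  · unfold dB
    by_cases h3 : (v.1.1 : ℕ) = 0
    · rw [if_pos h3, if_neg fun h => h1 ⟨h3, h⟩]
      norm_num
    · rw [if_neg h3]
      by_cases h4 : (v.1.1 : ℕ) = n
      · rw [if_pos h4, if_neg fun h => h2 ⟨h4, h⟩]
        split_ifs <;> norm_num
      · rw [if_neg h4]
        norm_num

/-- two different simple roots at the same place -/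
theorem d_par (hn : 1 ≤ n) {v w : ClV n a b} (hvw : v ≠ w) (h : (v.1.1 : ℕ) = w.1.1) :
    v ∉ shS n a b ∧ w ∉ shS n a b ∧ dA n a b v * dA n a b w + dB n a b v * dB n a b w = 0 := by
  have h0 : v.1.2 ≠ w.1.2 := fun h1 => hvw (Subtype.ext (Prod.ext (Fin.ext h) h1))
  have h1 : ((v.1.1 : ℕ) = 0 ∧ a = true) ∨ ((v.1.1 : ℕ) = n ∧ b = true) := by
    rcases v.2 with h2 | h2
    · rcases w.2 with h3 | h3
      · exact absurd (h2.trans h3.symm) h0
      · rwa [h]
    · exact h2
  have hS : ∀ u : ClV n a b, (u.1.1 : ℕ) = v.1.1 → u ∉ shS n a b := by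
    rintro u hu (⟨h2, h3⟩ | ⟨h2, h3⟩)
    · rcases h1 with h4 | h4
      · exact absurd (h3.symm.trans h4.2) (by decide)
      · omega
    · rcases h1 with h4 | h4
      · omega
      · exact absurd (h3.symm.trans h4.2) (by decide)
  refine ⟨hS v rfl, hS w h.symm, ?_⟩
  have hx : (if v.1.2 = true then (-1 : ℝ) else 1) * (if w.1.2 = true then (-1 : ℝ) else 1) = -1 := by
    cases e1 : v.1.2 <;> cases e2 : w.1.2
    · exact absurd (e1.trans e2.symm) h0
    · norm_num
    · norm_num
    · exact absurd (e1.trans e2.symm) h0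
  unfold dA dB
  rcases h1 with ⟨h2, h3⟩ | ⟨h2, h3⟩
  · have h2' : (w.1.1 : ℕ) = 0 := by omega
    have h3' : a ≠ false := by rw [h3]; decide
    simp only [if_pos h2, if_pos h2', if_neg h3']
    rw [hx]
    norm_num
  · have h2' : (w.1.1 : ℕ) = n := by omega
    have h4 : (v.1.1 : ℕ) ≠ 0 := by omega
    have h4' : (w.1.1 : ℕ) ≠ 0 := by omega
    have h3' : b ≠ false := by rw [h3]; decide
    simp only [if_neg h4, if_neg h4', if_pos h2, if_pos h2', if_neg h3']
    rw [hx]
    norm_num

/-- the reflection in `a e x - b e y`, `a, b = ± 1` -/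
theorem tv_swap' {I : Type} [Fintype I] [DecidableEq I] {x y : I} (hxy : x ≠ y) {a b : ℝ}
    (ha : a ^ 2 = 1) (hb : b ^ 2 = 1) (u : I → ℝ) (k : I) :
    u k - (∑ m, u m * tv a b x y m) * tv a b x y k =
      (if k = x ∨ k = y then a * b else 1) * u (Equiv.swap x y k) := by
  rw [sum_tv]
  by_cases e1 : k = x
  · subst e1
    rw [tv_left hxy, Equiv.swap_apply_left, if_pos (Or.inl rfl)]
    linear_combination (-u k) * ha
  · by_cases e2 : k = y
    · subst e2
      rw [tv_right hxy, Equiv.swap_apply_right, if_pos (Or.inr rfl)]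
      linear_combination (-u k) * hb
    · rw [tv_other e1 e2, Equiv.swap_apply_of_ne_of_ne e1 e2, if_neg (by rintro (h | h) <;> contradiction)]
      ring

theorem d_self (hn : 1 ≤ n) (v : ClV n a b) : dA n a b v ^ 2 + dB n a b v ^ 2 = 2 := by
  by_cases hv : v ∈ shS n a b
  · rcases d_short hn hv with ⟨h1, h2⟩ | ⟨h1, h2⟩
    · rw [h1, h2, s2]
      norm_num
    · rw [h1, h2, s2]
      norm_num
  · obtain ⟨h1, h2⟩ := d_long hv
    rw [h1, h2]
    norm_num

/-- neighbours on the path -/
theorem d_adj (hn' : a = true ∨ b = true ∨ 2 ≤ n) {v w : ClV n a b} (h : (v.1.1 : ℕ) + 1 = w.1.1) :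
    dB n a b v * dA n a b w =
      2 * Real.cos (Real.pi / (((if (((v.1.1 : ℕ) = 0 ∨ (w.1.1 : ℕ) = 0) ∧ a = false) ∨
        (((v.1.1 : ℕ) = n ∨ (w.1.1 : ℕ) = n) ∧ b = false) then 4 else 3 : ℕ) : ℕ) : ℝ)) := by
  have hw := w.1.1.2
  rw [dA_pos (v := w) (by omega), dB_pos (v := v) (by omega)]
  by_cases h1 : (v.1.1 : ℕ) = 0 ∧ a = false
  · have h2 : ¬ ((w.1.1 : ℕ) = n ∧ b = false) := by
      rintro ⟨h3, h4⟩
      rcases hn' with h5 | h5 | h5
      · rw [h1.2] at h5
        exact absurd h5 (by decide)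
      · rw [h4] at h5
        exact absurd h5 (by decide)
      · omega
    rw [if_pos h1, if_neg h2, if_pos (Or.inl ⟨Or.inl h1.1, h1.2⟩), cos4]
    ring
  · rw [if_neg h1]
    by_cases h2 : (w.1.1 : ℕ) = n ∧ b = false
    · rw [if_pos h2, if_pos (Or.inr ⟨Or.inr h2.1, h2.2⟩), cos4]
      ring
    · rw [if_neg h2, if_neg, cos3]
      · ring
      · rintro (⟨h3 | h3, h4⟩ | ⟨h3 | h3, h4⟩)
        · exact h1 ⟨h3, h4⟩
        · omega
        · omega
        · exact h2 ⟨h3, h4⟩

theorem clD (hn : 1 ≤ n) (hn' : a = true ∨ b = true ∨ 2 ≤ n) :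
    Cl2 (cla n a b) (alD n a b) (shS n a b) := by
  have h1 : ∀ v : ClV n a b, v.1.1.castSucc ≠ v.1.1.succ := fun s => Fin.castSucc_lt_succ.ne
  have hcs : ∀ v w : ClV n a b, v.1.1.castSucc = w.1.1.succ ↔ (w.1.1 : ℕ) + 1 = v.1.1 := by
    intro s t
    rw [Fin.ext_iff]
    simp only [Fin.val_castSucc, Fin.val_succ]
    exact eq_comm
  have hcc : ∀ v w : ClV n a b, v.1.1.castSucc = w.1.1.castSucc ↔ (v.1.1 : ℕ) = w.1.1 := by
    intro s t
    rw [Fin.ext_iff]
    simp only [Fin.val_castSucc]
  have hss : ∀ v w : ClV n a b, v.1.1.succ = w.1.1.succ ↔ (v.1.1 : ℕ) = w.1.1 := by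
    intro s t
    rw [Fin.ext_iff]
    simp only [Fin.val_succ, add_left_inj]
  refine ⟨fun v w => ?_, fun v w hvw => ?_, fun v hv k => ?_, fun v hv k => ?_, fun v => ?_,
    fun v w hvw => ?_⟩
  · unfold alD
    rw [sum_tv]
    by_cases hvw : v = w
    · subst hvw
      rw [cc_self, tv_left (h1 v), tv_right (h1 v)]
      linarith [d_self hn v]
    · unfold cc
      rw [cla_apply, if_neg hvw]
      by_cases h2 : (v.1.1 : ℕ) + 1 = w.1.1
      · have e1 : w.1.1.castSucc = v.1.1.succ := (hcs w v).2 h2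
        have e2 : w.1.1.succ ≠ v.1.1.castSucc := fun h => by
          have := (hcs v w).1 h.symm
          omega
        have e3 : w.1.1.succ ≠ v.1.1.succ := fun h => by
          have := (hss w v).1 h
          omega
        rw [if_pos (Or.inl h2), e1, tv_right (h1 v), tv_other e2 e3]
        have h3 := d_adj hn' h2
        linarith
      · by_cases h2' : (w.1.1 : ℕ) + 1 = v.1.1
        · have e1 : w.1.1.succ = v.1.1.castSucc := ((hcs v w).2 h2').symm
          have e2 : w.1.1.castSucc ≠ v.1.1.succ := fun h => by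
            have := (hcs w v).1 h
            omega
          have e3 : w.1.1.castSucc ≠ v.1.1.castSucc := fun h => by
            have := (hcc w v).1 h
            omega
          rw [if_pos (Or.inr h2'), e1, tv_left (h1 v), tv_other e3 e2]
          have h3 := d_adj hn' h2'
          have e4 : (((v.1.1 : ℕ) = 0 ∨ (w.1.1 : ℕ) = 0) ∧ a = false ∨
              ((v.1.1 : ℕ) = n ∨ (w.1.1 : ℕ) = n) ∧ b = false) ↔
              (((w.1.1 : ℕ) = 0 ∨ (v.1.1 : ℕ) = 0) ∧ a = false ∨
              ((w.1.1 : ℕ) = n ∨ (v.1.1 : ℕ) = n) ∧ b = false) := by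
            rw [or_comm (a := (v.1.1 : ℕ) = 0), or_comm (a := (v.1.1 : ℕ) = n)]
          rw [if_congr e4 rfl rfl]
          linarith
        · rw [if_neg (by rintro (h | h) <;> contradiction), cos2]
          by_cases h3 : (v.1.1 : ℕ) = w.1.1
          · have e1 : w.1.1 = v.1.1 := Fin.ext h3.symm
            rw [e1, tv_left (h1 v), tv_right (h1 v)]
            linarith [(d_par hn hvw h3).2.2]
          · have e1 : w.1.1.castSucc ≠ v.1.1.castSucc := fun h => h3 ((hcc w v).1 h).symm
            have e2 : w.1.1.castSucc ≠ v.1.1.succ := fun h => h2 ((hcs w v).1 h)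
            have e3 : w.1.1.succ ≠ v.1.1.castSucc := fun h => h2' ((hcs v w).1 h.symm)
            have e4 : w.1.1.succ ≠ v.1.1.succ := fun h => h3 ((hss w v).1 h).symm
            rw [tv_other e1 e2, tv_other e3 e4]
            ring
  · by_cases h3 : (v.1.1 : ℕ) = w.1.1
    · right
      obtain ⟨h4, h5, -⟩ := d_par hn hvw h3
      refine ⟨?_, h4, h5, fun k => ?_⟩
      · rw [cla_apply, if_neg hvw, if_neg (by omega)]
      · have e1 : w.1.1 = v.1.1 := Fin.ext h3.symm
        obtain ⟨e2, e3⟩ := d_long h4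
        obtain ⟨e4, e5⟩ := d_long h5
        unfold alD
        rw [e1]
        by_cases f1 : k = v.1.1.castSucc
        · subst f1
          rw [tv_left (h1 v), tv_left (h1 v), e2, e4]
        · by_cases f2 : k = v.1.1.succ
          · subst f2
            rw [tv_right (h1 v), tv_right (h1 v), neg_sq, neg_sq, e3, e5]
          · rw [tv_other f1 f2, tv_other f1 f2]
    · left
      intro k
      unfold alD
      by_cases f1 : k = v.1.1.castSucc
      · by_cases f2 : k = w.1.1.succ
        · have h4 : (w.1.1 : ℕ) + 1 = v.1.1 := (hcs v w).1 (f1 ▸ f2)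
          have hv := v.1.1.2
          have e1 : tv (dA n a b v) (dB n a b v) v.1.1.castSucc v.1.1.succ k = dA n a b v := by
            rw [f1, tv_left (h1 v)]
          have e2 : tv (dA n a b w) (dB n a b w) w.1.1.castSucc w.1.1.succ k = -dB n a b w := by
            rw [f2, tv_right (h1 w)]
          rw [e1, e2, dA_pos (by omega), dB_pos (by omega)]
          have : 0 ≤ (if (v.1.1 : ℕ) = n ∧ b = false then √(2 : ℝ) else 1) *
              (if (w.1.1 : ℕ) = 0 ∧ a = false then √(2 : ℝ) else 1) := by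
            apply mul_nonneg <;> split_ifs <;> positivity
          linarith
        · have e2 : k ≠ w.1.1.castSucc := fun h => h3 ((hcc v w).1 (f1 ▸ h))
          rw [tv_other e2 f2, mul_zero]
      · by_cases f2 : k = v.1.1.succ
        · by_cases f3 : k = w.1.1.castSucc
          · have h4 : (v.1.1 : ℕ) + 1 = w.1.1 := (hcs w v).1 (f3 ▸ f2)
            have hw := w.1.1.2
            have e1 : tv (dA n a b v) (dB n a b v) v.1.1.castSucc v.1.1.succ k = -dB n a b v := by
              rw [f2, tv_right (h1 v)]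
            have e2 : tv (dA n a b w) (dB n a b w) w.1.1.castSucc w.1.1.succ k = dA n a b w := by
              rw [f3, tv_left (h1 w)]
            rw [e1, e2, dA_pos (by omega), dB_pos (by omega)]
            have : 0 ≤ (if (v.1.1 : ℕ) = 0 ∧ a = false then √(2 : ℝ) else 1) *
                (if (w.1.1 : ℕ) = n ∧ b = false then √(2 : ℝ) else 1) := by
              apply mul_nonneg <;> split_ifs <;> positivity
            linarith
          · have e2 : k ≠ w.1.1.succ := fun h => h3 ((hss v w).1 (f2 ▸ h))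
            rw [tv_other f3 e2, mul_zero]
        · rw [tv_other f1 f2, zero_mul]
  · obtain ⟨e1, e2⟩ := d_long hv
    exact tv_sq (h1 v) (Or.inr e1) (Or.inr e2) k
  · rcases d_short hn hv with ⟨e1, e2⟩ | ⟨e1, e2⟩
    · refine tv_sq (h1 v) (Or.inl ?_) (Or.inr ?_) k
      · rw [e1]; norm_num
      · rw [e2]; exact s2
    · refine tv_sq (h1 v) (Or.inr ?_) (Or.inl ?_) k
      · rw [e1]; exact s2
      · rw [e2]; norm_num
  · by_cases hv : v ∈ shS n a b
    · rcases d_short hn hv with ⟨e1, e2⟩ | ⟨e1, e2⟩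
      · refine ⟨1, fun k => if k = v.1.1.succ then -1 else 1, fun k => ?_, fun u k => ?_⟩
        · dsimp only
          split_ifs <;> norm_num
        · unfold alD
          rw [sum_tv, e1, e2, Equiv.Perm.one_apply]
          dsimp only
          by_cases h3 : k = v.1.1.succ
          · subst h3
            rw [if_pos rfl, tv_right (h1 v)]
            have := s2
            linear_combination (-u v.1.1.succ) * this
          · rw [if_neg h3]
            unfold tv
            rw [if_neg h3]
            ring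
      · refine ⟨1, fun k => if k = v.1.1.castSucc then -1 else 1, fun k => ?_, fun u k => ?_⟩
        · dsimp only
          split_ifs <;> norm_num
        · unfold alD
          rw [sum_tv, e1, e2, Equiv.Perm.one_apply]
          dsimp only
          by_cases h3 : k = v.1.1.castSucc
          · subst h3
            rw [if_pos rfl, tv_left (h1 v)]
            have := s2
            linear_combination (-u v.1.1.castSucc) * this
          · rw [if_neg h3]
            unfold tv
            rw [if_neg h3]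
            ring
    · obtain ⟨e1, e2⟩ := d_long hv
      refine ⟨Equiv.swap v.1.1.castSucc v.1.1.succ, fun k =>
        if k = v.1.1.castSucc ∨ k = v.1.1.succ then dA n a b v * dB n a b v else 1, fun k => ?_,
        fun u k => tv_swap' (h1 v) e1 e2 u k⟩
      dsimp only
      split_ifs
      · rw [mul_pow, e1, e2, one_mul]
      · norm_num
  · rw [cla_apply, if_neg hvw]
    by_cases h2 : (v.1.1 : ℕ) + 1 = w.1.1 ∨ (w.1.1 : ℕ) + 1 = v.1.1
    · rw [if_pos h2]
      have hv := v.1.1.2
      have hw := w.1.1.2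
      have hmem : ∀ u : ClV n a b, u ∈ shS n a b ↔
          (((u.1.1 : ℕ) = 0 ∧ a = false) ∨ ((u.1.1 : ℕ) = n ∧ b = false)) := fun u => Iff.rfl
      rw [hmem, hmem]
      by_cases h3 : (((v.1.1 : ℕ) = 0 ∨ (w.1.1 : ℕ) = 0) ∧ a = false) ∨
          (((v.1.1 : ℕ) = n ∨ (w.1.1 : ℕ) = n) ∧ b = false)
      · rw [if_pos h3]
        refine Or.inr (Or.inr (Or.inr ⟨rfl, ?_⟩))
        cases a <;> cases b <;> simp only [and_true, and_false, or_false, false_or, Bool.true_eq_false,
          Bool.false_eq_true, reduceCtorEq] at h3 hn' ⊢ <;> omega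
      · rw [if_neg h3]
        refine Or.inr (Or.inr (Or.inl ⟨rfl, ?_⟩))
        cases a <;> cases b <;> simp only [and_true, and_false, or_false, false_or, Bool.true_eq_false,
          Bool.false_eq_true, reduceCtorEq, not_false_eq_true] at h3 hn' ⊢ <;> omega
    · rw [if_neg h2]
      exact Or.inr (Or.inl rfl)

end Pool.Agent.H53.CL
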