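import Pool.Agent.H53.VS.Main

/-!
Irreducible Coxeter matrices in which every vertex has at most two neighbours.
-/

set_option autoImplicit false

namespace Pool.Agent.H53.CL

open Pool.Agent.H53.VS

/-- a path in the Coxeter graph -/
def IsPath {K : Type} (N : CoxeterMatrix K) (l : ℕ) (x : ℕ → K) : Prop :=
  (∀ s t, s ≤ l → t ≤ l → x s = x t → s = t) ∧ ∀ s, s < l → N (x s) (x (s + 1)) ≠ 2

theorem IsPath.le {K : Type} [Finite K] {N : CoxeterMatrix K} {l : ℕ} {x : ℕ → K}
    (h : IsPath N l x) : l + 1 ≤ Nat.card K := by
  have h1 : Function.Injective fun s : Fin (l + 1) => x s := fun s t hst =>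
    Fin.ext (h.1 s t (by omega) (by omega) hst)
  have h2 := Nat.card_le_card_of_injective _ h1
  rwa [Nat.card_eq_fintype_card, Fintype.card_fin] at h2

/-- **a connected graph with degrees at most two is a path or a cycle** -/
theorem path_or_cycle {K : Type} [Finite K] (N : CoxeterMatrix K) (hI : IrrM N) (y0 : K)
    (hdeg : ∀ i a b c, i ≠ a → i ≠ b → i ≠ c → N i a ≠ 2 → N i b ≠ 2 → N i c ≠ 2 →
      a = b ∨ b = c ∨ a = c) :
    ∃ (l : ℕ) (x : ℕ → K), IsPath N l x ∧ (∀ y, ∃ s, s ≤ l ∧ x s = y) ∧
      ∀ s t, s < t → t ≤ l → N (x s) (x t) ≠ 2 → s + 1 = t ∨ (s = 0 ∧ t = l) := by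
  classical
  obtain ⟨l, ⟨x, hx⟩, hmax⟩ : ∃ l, (∃ x, IsPath N l x) ∧ ¬ ∃ x, IsPath N (l + 1) x := by
    by_contra hcon
    push Not at hcon
    have h1 : ∀ l, ∃ x, IsPath N l x := by
      intro l
      induction l with
      | zero => exact ⟨fun _ => y0, fun s t hs ht _ => by omega, fun s hs => by omega⟩
      | succ l ih => exact hcon l ih
    obtain ⟨x, hx⟩ := h1 (Nat.card K)
    have := hx.le
    omega
  have hsym : ∀ i j, N i j = N j i := fun i j => N.symmetric i j
  have hne : ∀ s t, s ≤ l → t ≤ l → s ≠ t → x s ≠ x t := fun s t hs ht hst h => hst (hx.1 s t hs ht h)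
  have hedge : ∀ s, 0 < s → s ≤ l → N (x s) (x (s - 1)) ≠ 2 := fun s hs hs' => by
    have h1 := hx.2 (s - 1) (by omega)
    rw [show s - 1 + 1 = s by omega] at h1
    rwa [hsym]
  have hall : ∀ y, ∃ s, s ≤ l ∧ x s = y := by
    by_contra hcon
    push Not at hcon
    obtain ⟨y, hy⟩ := hcon
    obtain ⟨i, ⟨s, hs, rfl⟩, j, hj, hij⟩ := hI {y | ∃ s, s ≤ l ∧ x s = y} ⟨x 0, 0, by omega, rfl⟩
      ⟨y, fun ⟨s, hs, h⟩ => hy s hs h⟩
    have hj' : ∀ t, t ≤ l → x t ≠ j := fun t ht h => hj ⟨t, ht, h⟩
    by_cases h1 : s = l
    · subst h1
      apply hmax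
      refine ⟨fun t => if t ≤ s then x t else j, ?_, ?_⟩
      · intro a b ha hb hab
        by_cases h2 : a ≤ s
        · by_cases h3 : b ≤ s
          · simp only [h2, h3, if_true] at hab
            exact hx.1 a b h2 h3 hab
          · simp only [h2, h3, if_true, if_false] at hab
            exact absurd hab (hj' a h2)
        · by_cases h3 : b ≤ s
          · simp only [h2, h3, if_true, if_false] at hab
            exact absurd hab.symm (hj' b h3)
          · omega
      · intro a ha
        by_cases h2 : a < s
        · simp only [show a ≤ s by omega, show a + 1 ≤ s by omega, if_true]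
          exact hx.2 a h2
        · have h3 : a = s := by omega
          subst h3
          simpa using hij
    · by_cases h2 : s = 0
      · subst h2
        apply hmax
        refine ⟨fun t => if t = 0 then j else x (t - 1), ?_, ?_⟩
        · intro a b ha hb hab
          by_cases h2 : a = 0
          · by_cases h3 : b = 0
            · omega
            · simp only [h2, h3, if_true, if_false] at hab
              exact absurd hab.symm (hj' (b - 1) (by omega))
          · by_cases h3 : b = 0
            · simp only [h2, h3, if_true, if_false] at hab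
              exact absurd hab (hj' (a - 1) (by omega))
            · simp only [h2, h3, if_false] at hab
              have := hx.1 (a - 1) (b - 1) (by omega) (by omega) hab
              omega
        · intro a ha
          by_cases h2 : a = 0
          · subst h2
            simp only [if_true, Nat.add_eq_zero_iff, one_ne_zero, and_false, if_false]
            rw [hsym]
            exact hij
          · simp only [h2, if_false, Nat.add_eq_zero_iff, one_ne_zero, and_false]
            have h3 := hx.2 (a - 1) (by omega)
            rw [show a - 1 + 1 = a by omega] at h3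
            rw [show a + 1 - 1 = a by omega]
            exact h3
      · rcases hdeg (x s) (x (s - 1)) (x (s + 1)) j (hne _ _ hs (by omega) (by omega))
          (hne _ _ hs (by omega) (by omega)) (hj' s hs) (hedge s (by omega) hs)
          (hx.2 s (by omega)) hij with h3 | h3 | h3
        · exact absurd h3 (hne _ _ (by omega) (by omega) (by omega))
        · exact absurd h3 (hj' _ (by omega))
        · exact absurd h3 (hj' _ (by omega))
  refine ⟨l, x, hx, hall, fun s t hst ht hN => ?_⟩
  by_contra hcon
  push Not at hcon
  by_cases h1 : s = 0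
  · have h2 : t < l := by
      have := hcon.2 h1
      omega
    have h3 := hcon.1
    rcases hdeg (x t) (x (t - 1)) (x (t + 1)) (x s) (hne _ _ (by omega) (by omega) (by omega))
      (hne _ _ (by omega) (by omega) (by omega)) (hne _ _ (by omega) (by omega) (by omega))
      (hedge t (by omega) ht) (hx.2 t h2) (by rwa [hsym]) with h4 | h4 | h4
    · exact hne _ _ (by omega) (by omega) (by omega) h4
    · exact hne _ _ (by omega) (by omega) (by omega) h4
    · exact hne _ _ (by omega) (by omega) (by omega) h4
  · have h3 := hcon.1
    rcases hdeg (x s) (x (s - 1)) (x (s + 1)) (x t) (hne _ _ (by omega) (by omega) (by omega))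
      (hne _ _ (by omega) (by omega) (by omega)) (hne _ _ (by omega) (by omega) (by omega))
      (hedge s (by omega) (by omega)) (hx.2 s (by omega)) hN with h4 | h4 | h4
    · exact hne _ _ (by omega) (by omega) (by omega) h4
    · exact hne _ _ (by omega) (by omega) (by omega) h4
    · exact hne _ _ (by omega) (by omega) (by omega) h4

end Pool.Agent.H53.CL
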