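import Pool.Agent.H53.CL.FCls2

/-!
Type `D`.
-/

set_option autoImplicit false

namespace Pool.Agent.H53.CL

open Pool.Agent.Helper741 Pool.Agent.TH107 CoxeterSystem Pool.Agent.X201.AT
open Pool.Agent.H53.VA Pool.Agent.R665.She Pool.Agent.H53.VS

theorem typeD_apply (k : ℕ) (i j : Fin k) : typeD k i j = if i = j then 1 else
    if ((i : ℕ) + 1 = j ∧ (j : ℕ) + 1 < k) ∨ ((j : ℕ) + 1 = i ∧ (i : ℕ) + 1 < k) ∨
      ((i : ℕ) + 2 = j ∧ (j : ℕ) + 1 = k) ∨ ((j : ℕ) + 2 = i ∧ (i : ℕ) + 1 = k) then 3 else 2 := rfl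

/-- type `D` as a part of type affine `D` -/
def fD (m : ℕ) (s : Fin (m + 2)) : ClV m true true :=
  ⟨(⟨min s m, by omega⟩, decide ((s : ℕ) = m + 1)), by
    by_cases h : (s : ℕ) = m + 1
    · right; right
      exact ⟨by show min (s : ℕ) m = m; omega, rfl⟩
    · exact Or.inl (decide_eq_false h)⟩

theorem fD_val (m : ℕ) (s : Fin (m + 2)) : ((fD m s).1.1 : ℕ) = min (s : ℕ) m := rfl

theorem fD_snd (m : ℕ) (s : Fin (m + 2)) : (fD m s).1.2 = decide ((s : ℕ) = m + 1) := rfl

theorem fD_inj (m : ℕ) : Function.Injective (fD m) := by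
  intro s t h
  have hs := s.2
  have ht := t.2
  have h1 := congrArg (fun v : ClV m true true => (v.1.1 : ℕ)) h
  have h2 := congrArg (fun v : ClV m true true => v.1.2) h
  simp only [fD_val, fD_snd, decide_eq_decide] at h1 h2
  apply Fin.ext
  omega

theorem fD_lab (m : ℕ) (s t : Fin (m + 2)) :
    cla m true true (fD m s) (fD m t) = typeD (m + 2) s t := by
  have hs := s.2
  have ht := t.2
  rw [cla_apply, typeD_apply, fD_val, fD_val]
  by_cases h : s = t
  · rw [if_pos h, if_pos (by rw [h])]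
  · rw [if_neg h, if_neg fun h' => h (fD_inj m h')]
    have h0 : (s : ℕ) ≠ t := fun h' => h (Fin.ext h')
    by_cases h1 : min (s : ℕ) m + 1 = min (t : ℕ) m ∨ min (t : ℕ) m + 1 = min (s : ℕ) m
    · rw [if_pos h1, if_neg (by rintro (h2 | h2) <;> exact absurd h2.2 (by decide)), if_pos (by omega)]
    · rw [if_neg h1, if_neg (by omega)]

/-- the additional vertex -/
def om (m : ℕ) : ClV m true true := ⟨(0, true), Or.inr (Or.inl ⟨rfl, rfl⟩)⟩

theorem om_or (m : ℕ) (v : ClV m true true) : v = om m ∨ ∃ s, v = fD m s := by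
  by_cases h : v.1.2 = false
  · right
    have hv := v.1.1.2
    refine ⟨⟨v.1.1, by omega⟩, Subtype.ext (Prod.ext (Fin.ext ?_) ?_)⟩
    · rw [fD_val]
      show (v.1.1 : ℕ) = min (v.1.1 : ℕ) m
      omega
    · rw [fD_snd, h]
      symm
      apply decide_eq_false
      show ¬ (v.1.1 : ℕ) = m + 1
      omega
  · rcases v.2 with h1 | ⟨h1, -⟩ | ⟨h1, -⟩
    · exact absurd h1 h
    · left
      refine Subtype.ext (Prod.ext (Fin.ext h1) ?_)
      show v.1.2 = true
      simpa using h
    · right
      refine ⟨Fin.last (m + 1), Subtype.ext (Prod.ext (Fin.ext ?_) ?_)⟩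
      · rw [fD_val, h1]
        simp
      · rw [fD_snd]
        have h2 : v.1.2 = true := by simpa using h
        rw [h2]
        simp

theorem cla_om (m : ℕ) (hm : 1 ≤ m) (s : Fin (m + 2)) : cla m true true (om m) (fD m s) =
    if (s : ℕ) = 1 ∨ m = 1 ∧ (s : ℕ) = 2 then 3 else 2 := by
  have hs := s.2
  have e : ((om m).1.1 : ℕ) = 0 := rfl
  rw [cla_apply, fD_val, e, if_neg]
  · by_cases h1 : 0 + 1 = min (s : ℕ) m ∨ min (s : ℕ) m + 1 = 0
    · rw [if_pos h1, if_neg (by rintro (h2 | h2) <;> exact absurd h2.2 (by decide)), if_pos (by omega)]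
    · rw [if_neg h1, if_neg (by omega)]
  · intro h1
    have h2 := congrArg (fun v : ClV m true true => (v.1.1 : ℕ)) h1
    have h3 := congrArg (fun v : ClV m true true => v.1.2) h1
    simp only [fD_val, fD_snd] at h2 h3
    have h4 : (om m).1.2 = true := rfl
    rw [e] at h2
    rw [h4] at h3
    have h5 := of_decide_eq_true h3.symm
    omega

/-- the simple roots of type `D` -/
noncomputable abbrev alT (m : ℕ) (s : Fin (m + 2)) : Fin (m + 2) → ℝ := alD m true true (fD m s)

theorem dA_fD (m : ℕ) (hm : 1 ≤ m) (s : Fin (m + 2)) : dA m true true (fD m s) = 1 := by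
  have hs := s.2
  unfold dA
  rw [fD_val, fD_snd]
  by_cases h : min (s : ℕ) m = 0
  · rw [if_pos h, if_neg (by decide), if_neg]
    rw [decide_eq_true_eq]
    omega
  · rw [if_neg h]
    split_ifs <;> first | rfl | contradiction

theorem dB_fD (m : ℕ) (hm : 1 ≤ m) (s : Fin (m + 2)) :
    dB m true true (fD m s) = if (s : ℕ) = m + 1 then -1 else 1 := by
  have hs := s.2
  unfold dB
  rw [fD_val, fD_snd]
  simp only [decide_eq_true_eq]
  by_cases h : min (s : ℕ) m = 0
  · rw [if_pos h, if_neg (by decide), if_neg (by omega)]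
  · rw [if_neg h]
    by_cases h1 : min (s : ℕ) m = m
    · rw [if_pos h1, if_neg (by decide)]
    · rw [if_neg h1, if_neg (by omega)]

theorem alT_apply (m : ℕ) (hm : 1 ≤ m) (s k : Fin (m + 2)) :
    alT m s k = (if (k : ℕ) = min (s : ℕ) m then 1 else 0) -
      (if (s : ℕ) = m + 1 then -1 else 1) * (if (k : ℕ) = min (s : ℕ) m + 1 then 1 else 0) := by
  show alD m true true (fD m s) k = _
  unfold alD tv
  rw [dA_fD m hm, dB_fD m hm, one_mul]
  have e1 : (k = (fD m s).1.1.castSucc) ↔ (k : ℕ) = min (s : ℕ) m := by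
    rw [Fin.ext_iff, Fin.val_castSucc, fD_val]
  have e2 : (k = (fD m s).1.1.succ) ↔ (k : ℕ) = min (s : ℕ) m + 1 := by
    rw [Fin.ext_iff, Fin.val_succ, fD_val]
  simp only [e1, e2]

theorem alD_om (m : ℕ) (k : Fin (m + 2)) :
    alD m true true (om m) k = if (k : ℕ) = 0 ∨ (k : ℕ) = 1 then -1 else 0 := by
  unfold alD tv
  have h1 : dA m true true (om m) = -1 := by
    unfold dA
    rw [if_pos (show ((om m).1.1 : ℕ) = 0 from rfl), if_neg (by decide),
      if_pos (show (om m).1.2 = true from rfl)]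
  have h2 : dB m true true (om m) = 1 := by
    unfold dB
    rw [if_pos (show ((om m).1.1 : ℕ) = 0 from rfl), if_neg (by decide)]
  have e1 : (k = (om m).1.1.castSucc) ↔ (k : ℕ) = 0 := by
    rw [Fin.ext_iff, Fin.val_castSucc]
    rfl
  have e2 : (k = (om m).1.1.succ) ↔ (k : ℕ) = 1 := by
    rw [Fin.ext_iff, Fin.val_succ]
    rfl
  rw [h1, h2]
  simp only [e1, e2]
  by_cases h3 : (k : ℕ) = 0
  · rw [if_pos h3, if_neg (by omega), if_pos (Or.inl h3)]
    norm_num
  · by_cases h4 : (k : ℕ) = 1
    · rw [if_neg h3, if_pos h4, if_pos (Or.inr h4)]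
      norm_num
    · rw [if_neg h3, if_neg h4, if_neg (by omega)]
      norm_num

/-- the simple roots of type `D` are linearly independent -/
theorem alT_indep (m : ℕ) (hm : 1 ≤ m) (u : Fin (m + 2) → ℝ) (h : ∀ k, co (alT m) u k = 0) :
    u = 0 := by
  have h1 : ∀ j : ℕ, ∀ hj : j < m, u ⟨j, by omega⟩ = 0 := by
    intro j
    induction j using Nat.strong_induction_on with
    | _ j ih =>
      intro hj
      have h2 := h ⟨j, by omega⟩
      unfold co at h2
      rw [Finset.sum_eq_single (⟨j, by omega⟩ : Fin (m + 2))] at h2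
      · rw [alT_apply m hm] at h2
        simp only at h2
        rw [if_pos (by omega), if_neg (by omega), if_neg (by omega)] at h2
        linarith
      · intro s _ hs
        have hs' : (s : ℕ) ≠ j := fun h' => hs (Fin.ext h')
        by_cases h3 : (s : ℕ) < j
        · have h4 := ih s h3 (by omega)
          have h5 : u s = 0 := h4
          rw [h5, zero_mul]
        · rw [alT_apply m hm]
          simp only
          rw [if_neg (by omega), if_neg (c := j = min (s : ℕ) m + 1) (by omega)]
          ring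
      · intro h3
        exact absurd (Finset.mem_univ _) h3
  have h2 : ∀ k, u (Fin.last m).castSucc * alT m (Fin.last m).castSucc k +
      u (Fin.last (m + 1)) * alT m (Fin.last (m + 1)) k = 0 := by
    intro k
    have h3 := h k
    unfold co at h3
    rw [Fin.sum_univ_castSucc, Fin.sum_univ_castSucc, Finset.sum_eq_zero, zero_add] at h3
    · exact h3
    · intro s _
      have h4 : u s.castSucc.castSucc = 0 := h1 s s.2
      rw [h4, zero_mul]
  have h3 := h2 (Fin.last m).castSucc
  have h4 := h2 (Fin.last (m + 1))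
  have v1 : alT m (Fin.last m).castSucc (Fin.last m).castSucc = 1 := by
    simp [alT_apply m hm]
  have v2 : alT m (Fin.last (m + 1)) (Fin.last m).castSucc = 1 := by
    simp [alT_apply m hm]
  have v3 : alT m (Fin.last m).castSucc (Fin.last (m + 1)) = -1 := by
    simp [alT_apply m hm]
  have v4 : alT m (Fin.last (m + 1)) (Fin.last (m + 1)) = 1 := by
    simp [alT_apply m hm]
  rw [v1, v2] at h3
  rw [v3, v4] at h4
  funext s
  rw [Pi.zero_apply]
  by_cases h5 : (s : ℕ) < m
  · exact h1 s h5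
  · by_cases h6 : (s : ℕ) = m
    · have h7 : s = (Fin.last m).castSucc := Fin.ext h6
      rw [h7]
      linarith
    · have h7 : s = Fin.last (m + 1) := Fin.ext (by have := s.2; simp only [Fin.val_last]; omega)
      rw [h7]
      linarith

end Pool.Agent.H53.CL
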