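import Pool.Agent.H53.CL.TypeD

/-!
The affine diagram of type `D` as a configuration of roots of the finite type `D`.
-/

set_option autoImplicit false

namespace Pool.Agent.H53.CL

open Pool.Agent.Helper741 Pool.Agent.TH107 CoxeterSystem Pool.Agent.X201.AT
open Pool.Agent.H53.VA Pool.Agent.R665.She Pool.Agent.H53.VS

theorem cl2T (m : ℕ) (hm : 1 ≤ m) : Cl2 (typeD (m + 2)) (alT m) ∅ := by
  have h1 := clD (n := m) (a := true) (b := true) hm (Or.inl rfl)
  rw [shS_tt] at h1
  exact h1.par (fD m) (fD_lab m) (fD_inj m)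

section

variable {B I : Type} [Fintype B] [DecidableEq B] [Fintype I] {M : CoxeterMatrix B}
variable {al : B → I → ℝ} {S : Set B} {W : Type} [Group W] (cs : CoxeterSystem M W)

/-- an element of the Coxeter group acts on the coordinates by the permutation `σ` with signs `ε` -/
def Rz (al : B → I → ℝ) (σ : Equiv.Perm I) (ε : I → ℝ) : Prop :=
  ∃ w : W, ∀ (v : B → ℝ) k, co al (geo cs w v) k = ε k * co al v (σ k)

omit [Fintype I] in
theorem Rz.one : Rz cs al 1 fun _ => 1 := ⟨1, fun v k => by rw [map_one, one_mul]; rfl⟩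

omit [Fintype I] in
theorem Rz.mul {σ τ : Equiv.Perm I} {ε δ : I → ℝ} (h : Rz cs al σ ε) (h' : Rz cs al τ δ) :
    Rz cs al (σ.trans τ) fun k => ε k * δ (σ k) := by
  obtain ⟨w, hw⟩ := h
  obtain ⟨w', hw'⟩ := h'
  refine ⟨w * w', fun v k => ?_⟩
  rw [← geo_geo, hw, hw', Equiv.trans_apply]
  ring

theorem Rz.simple (h : Cl2 M al S) (s : B) {σ : Equiv.Perm I} {ε : I → ℝ}
    (hs : ∀ (u : I → ℝ) k, u k - (∑ m, u m * al s m) * al s k = ε k * u (σ k)) : Rz cs al σ ε :=
  ⟨cs.simple s, fun v k => by rw [geo_simple, h.sg, hs]⟩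

end

section

variable {m : ℕ} (hm : 2 ≤ m) {W : Type} [Group W] (cs : CoxeterSystem (typeD (m + 2)) W)

include hm

theorem rz_perm (σ : Equiv.Perm (Fin (m + 2))) : Rz cs (alT m) σ fun _ => 1 := by
  let P : Submonoid (Equiv.Perm (Fin (m + 2))) :=
    { carrier := {σ | Rz cs (alT m) σ fun _ => 1}
      one_mem' := Rz.one cs
      mul_mem' := fun {a b} ha hb => by
        have h := Rz.mul cs hb ha
        simp only [mul_one] at h
        exact h }
  have h1 : Submonoid.closure (Set.range fun i : Fin (m + 1) => Equiv.swap i.castSucc i.succ) ≤ P := by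
    rw [Submonoid.closure_le]
    rintro _ ⟨i, rfl⟩
    have hi := i.2
    refine Rz.simple cs (cl2T m (by omega)) i.castSucc fun u k => ?_
    have e1 : ∀ k, alT m i.castSucc k = tv 1 1 i.castSucc i.succ k := by
      intro k
      rw [alT_apply m (by omega)]
      unfold tv
      have e1 : (k = i.castSucc) ↔ (k : ℕ) = min (i.castSucc : ℕ) m := by
        rw [Fin.ext_iff, Fin.val_castSucc]
        omega
      have e2 : (k = i.succ) ↔ (k : ℕ) = min (i.castSucc : ℕ) m + 1 := by
        rw [Fin.ext_iff, Fin.val_succ, Fin.val_castSucc]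
        omega
      simp only [e1, e2]
      rw [if_neg (c := (i.castSucc : ℕ) = m + 1) (by rw [Fin.val_castSucc]; omega), one_mul, one_mul]
    simp only [e1]
    rw [tv_swap (Fin.castSucc_lt_succ.ne) u k]
  rw [Equiv.Perm.mclosure_swap_castSucc_succ] at h1
  exact h1 (Submonoid.mem_top σ)

/-- the sign change at the last two coordinates -/
noncomputable def e0 (m : ℕ) (k : Fin (m + 2)) : ℝ := if (k : ℕ) = m ∨ (k : ℕ) = m + 1 then -1 else 1

theorem rz_e0 : Rz cs (alT m) 1 (e0 m) := by
  have h1 := Rz.mul cs (Rz.simple cs (cl2T m (by omega)) (Fin.last (m + 1))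
    (σ := Equiv.swap (Fin.last m).castSucc (Fin.last (m + 1))) (ε := e0 m) fun u k => ?_)
    (rz_perm hm cs (Equiv.swap (Fin.last m).castSucc (Fin.last (m + 1))))
  · simp only [mul_one] at h1
    have e : (Equiv.swap (Fin.last m).castSucc (Fin.last (m + 1))).trans
        (Equiv.swap (Fin.last m).castSucc (Fin.last (m + 1))) = 1 := by
      ext k
      simp
    rw [e] at h1
    exact h1
  · have hne : (Fin.last m).castSucc ≠ Fin.last (m + 1) := fun h => by
      have := congrArg Fin.val h
      simp at this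
    have e1 : ∀ k, alT m (Fin.last (m + 1)) k =
        tv 1 (-1) (Fin.last m).castSucc (Fin.last (m + 1)) k := by
      intro k
      rw [alT_apply m (by omega)]
      unfold tv
      have e1 : (k = (Fin.last m).castSucc) ↔ (k : ℕ) = min (Fin.last (m + 1) : ℕ) m := by
        rw [Fin.ext_iff, Fin.val_castSucc, Fin.val_last, Fin.val_last]
        omega
      have e2 : (k = Fin.last (m + 1)) ↔ (k : ℕ) = min (Fin.last (m + 1) : ℕ) m + 1 := by
        rw [Fin.ext_iff, Fin.val_last]
        omega
      simp only [e1, e2]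
      rw [if_pos (c := (Fin.last (m + 1) : ℕ) = m + 1) (Fin.val_last _), one_mul]
    simp only [e1]
    rw [tv_swap' hne (by norm_num) (by norm_num) u k]
    unfold e0
    have e3 : (k = (Fin.last m).castSucc ∨ k = Fin.last (m + 1)) ↔ ((k : ℕ) = m ∨ (k : ℕ) = m + 1) := by
      rw [Fin.ext_iff, Fin.ext_iff, Fin.val_castSucc, Fin.val_last, Fin.val_last]
    simp only [e3]
    norm_num

theorem rz_conj (σ : Equiv.Perm (Fin (m + 2))) : Rz cs (alT m) σ fun k => e0 m (σ k) := by
  have h := Rz.mul cs (rz_perm hm cs σ) (rz_e0 hm cs)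
  simp only [one_mul] at h
  exact h

theorem rz_sign (σ : Equiv.Perm (Fin (m + 2))) : Rz cs (alT m) 1 fun k => e0 m (σ k) := by
  have h := Rz.mul cs (rz_conj hm cs σ) (rz_perm hm cs σ⁻¹)
  simp only [mul_one] at h
  have e : σ.trans σ⁻¹ = 1 := by
    ext k
    simp
  rwa [e] at h

theorem alT_zero (k : Fin (m + 2)) : alT m 0 k =
    (if (k : ℕ) = 0 then 1 else 0) - (if (k : ℕ) = 1 then 1 else 0) := by
  have e : ((0 : Fin (m + 2)) : ℕ) = 0 := rfl
  rw [alT_apply m (by omega), e, if_neg (c := 0 = m + 1) (by omega), one_mul, Nat.zero_min]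

theorem alT_m (k : Fin (m + 2)) : alT m (Fin.last m).castSucc k =
    (if (k : ℕ) = m then 1 else 0) - (if (k : ℕ) = m + 1 then 1 else 0) := by
  have e : ((Fin.last m).castSucc : ℕ) = m := rfl
  rw [alT_apply m (by omega), e, if_neg (c := m = m + 1) (by omega), one_mul, min_self]

theorem alT_last (k : Fin (m + 2)) : alT m (Fin.last (m + 1)) k =
    (if (k : ℕ) = m then 1 else 0) + (if (k : ℕ) = m + 1 then 1 else 0) := by
  have e : (Fin.last (m + 1) : ℕ) = m + 1 := rfl
  rw [alT_apply m (by omega), e, if_pos rfl, show min (m + 1) m = m by omega]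
  ring

/-- the sign change at the coordinates `0` and `m + 1` -/
theorem rz_D0 : Rz cs (alT m) 1 fun k => if (k : ℕ) = 0 ∨ (k : ℕ) = m + 1 then -1 else 1 := by
  have h := rz_sign hm cs (Equiv.swap 0 (Fin.last m).castSucc)
  have e : (fun k => e0 m (Equiv.swap 0 (Fin.last m).castSucc k)) =
      fun k : Fin (m + 2) => if (k : ℕ) = 0 ∨ (k : ℕ) = m + 1 then -1 else 1 := by
    funext k
    unfold e0
    by_cases h1 : k = 0
    · rw [h1, Equiv.swap_apply_left,
        if_pos (show ((Fin.last m).castSucc : ℕ) = m ∨ ((Fin.last m).castSucc : ℕ) = m + 1 from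
          Or.inl rfl),
        if_pos (show ((0 : Fin (m + 2)) : ℕ) = 0 ∨ ((0 : Fin (m + 2)) : ℕ) = m + 1 from Or.inl rfl)]
    · by_cases h2 : k = (Fin.last m).castSucc
      · have e2 : ((Fin.last m).castSucc : ℕ) = m := rfl
        rw [h2, Equiv.swap_apply_right, e2, if_neg, if_neg (by omega)]
        have e3 : ((0 : Fin (m + 2)) : ℕ) = 0 := rfl
        rw [e3]
        omega
      · rw [Equiv.swap_apply_of_ne_of_ne h1 h2]
        have h1' : (k : ℕ) ≠ 0 := fun h => h1 (Fin.ext h)
        have h2' : (k : ℕ) ≠ m := fun h => h2 (Fin.ext h)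
        by_cases h3 : (k : ℕ) = m + 1
        · rw [if_pos (Or.inr h3), if_pos (Or.inr h3)]
        · rw [if_neg (by omega), if_neg (by omega)]
  rwa [e] at h

/-- the pairs with the additional root -/
theorem pair_om (t : Fin (m + 2)) : ∃ (σ : Equiv.Perm (Fin (m + 2))) (ε : Fin (m + 2) → ℝ)
    (s t' : Fin (m + 2)), Rz cs (alT m) σ ε ∧ cla m true true (om m) (fD m t) = typeD (m + 2) s t' ∧
      (∀ k, alD m true true (om m) k = ε k * alT m s (σ k)) ∧
      ∀ k, alT m t k = ε k * alT m t' (σ k) := by
  have ht := t.2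
  by_cases h0 : t = 0
  · subst h0
    have e1 : (Fin.last (m + 1) : ℕ) = m + 1 := rfl
    have e2 : ((Fin.last m).castSucc : ℕ) = m := rfl
    have e3 : ((0 : Fin (m + 2)) : ℕ) = 0 := rfl
    have e4 : ((1 : Fin (m + 2)) : ℕ) = 1 := rfl
    let σ : Equiv.Perm (Fin (m + 2)) :=
      (Equiv.swap 1 (Fin.last m).castSucc).trans (Equiv.swap 0 (Fin.last (m + 1)))
    have hσ : ∀ k, σ k = Equiv.swap 0 (Fin.last (m + 1)) (Equiv.swap 1 (Fin.last m).castSucc k) :=
      fun k => rfl
    have s0 : σ 0 = Fin.last (m + 1) := by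
      have e : Equiv.swap 1 (Fin.last m).castSucc 0 = (0 : Fin (m + 2)) := by
        apply Equiv.swap_apply_of_ne_of_ne
        · intro h
          have := congrArg Fin.val h
          rw [e3, e4] at this
          omega
        · intro h
          have := congrArg Fin.val h
          rw [e3, e2] at this
          omega
      rw [hσ, e, Equiv.swap_apply_left]
    have s1 : σ 1 = (Fin.last m).castSucc := by
      rw [hσ, Equiv.swap_apply_left, Equiv.swap_apply_of_ne_of_ne]
      · intro h
        have := congrArg Fin.val h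
        rw [e3, e2] at this
        omega
      · intro h
        have := congrArg Fin.val h
        rw [e1, e2] at this
        omega
    have k0 : ∀ k, (σ k : ℕ) = m + 1 ↔ (k : ℕ) = 0 := by
      intro k
      constructor
      · intro h
        have h1 : σ k = σ 0 := by
          rw [s0]
          exact Fin.ext h
        rw [σ.injective h1, e3]
      · intro h
        have h1 : k = 0 := Fin.ext h
        rw [h1, s0, e1]
    have k1 : ∀ k, (σ k : ℕ) = m ↔ (k : ℕ) = 1 := by
      intro k
      constructor
      · intro h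
        have h1 : σ k = σ 1 := by
          rw [s1]
          exact Fin.ext h
        rw [σ.injective h1, e4]
      · intro h
        have h1 : k = 1 := Fin.ext h
        rw [h1, s1, e2]
    refine ⟨σ, fun k => e0 m (σ k), Fin.last (m + 1), (Fin.last m).castSucc, rz_conj hm cs σ, ?_,
      fun k => ?_, fun k => ?_⟩
    · rw [cla_om m (by omega), typeD_apply, e1, e2, e3, if_neg (by omega), if_neg, if_neg (by omega)]
      intro h
      have := congrArg Fin.val h
      rw [e1, e2] at this
      omega
    · rw [alD_om, alT_last hm]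
      unfold e0
      simp only [k0, k1]
      by_cases h1 : (k : ℕ) = 0
      · rw [if_pos (Or.inl h1), if_pos (Or.inr h1), if_neg (by omega), if_pos h1]
        norm_num
      · by_cases h2 : (k : ℕ) = 1
        · rw [if_pos (Or.inr h2), if_pos (Or.inl h2), if_pos h2, if_neg h1]
          norm_num
        · rw [if_neg (by omega), if_neg (by omega), if_neg h2, if_neg h1]
          norm_num
    · rw [alT_zero hm, alT_m hm]
      unfold e0
      simp only [k0, k1]
      by_cases h1 : (k : ℕ) = 0
      · rw [if_pos h1, if_neg (by omega), if_pos (Or.inr h1)]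
        norm_num
      · by_cases h2 : (k : ℕ) = 1
        · rw [if_neg h1, if_pos h2, if_pos (Or.inl h2)]
          norm_num
        · rw [if_neg h1, if_neg h2, if_neg (by omega)]
          norm_num
  · have h0' : (t : ℕ) ≠ 0 := fun h => h0 (Fin.ext h)
    let t' : Fin (m + 2) := if (t : ℕ) = m then Fin.last (m + 1) else
      if (t : ℕ) = m + 1 then (Fin.last m).castSucc else t
    refine ⟨1, _, 0, t', rz_D0 hm cs, ?_, fun k => ?_, fun k => ?_⟩
    · have e3 : ((0 : Fin (m + 2)) : ℕ) = 0 := rfl
      have ht' : (t' : ℕ) = if (t : ℕ) = m then m + 1 else if (t : ℕ) = m + 1 then m else t := by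
        show ((if (t : ℕ) = m then Fin.last (m + 1) else
          if (t : ℕ) = m + 1 then (Fin.last m).castSucc else t : Fin (m + 2)) : ℕ) = _
        split_ifs <;> rfl
      have hne : ¬ (0 : Fin (m + 2)) = t' := fun h => by
        have h5 := congrArg Fin.val h
        rw [e3, ht'] at h5
        split_ifs at h5 <;> omega
      rw [cla_om m (by omega), typeD_apply, if_neg hne, ht', e3]
      by_cases h1 : (t : ℕ) = m
      · rw [if_pos h1, if_neg (by omega), if_neg (by omega)]
      · rw [if_neg h1]
        by_cases h2 : (t : ℕ) = m + 1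
        · rw [if_pos h2, if_neg (by omega), if_neg (by omega)]
        · rw [if_neg h2]
          by_cases h3 : (t : ℕ) = 1
          · rw [if_pos (Or.inl h3), if_pos (by omega)]
          · rw [if_neg (by omega), if_neg (by omega)]
    · rw [alD_om, Equiv.Perm.one_apply, alT_zero hm]
      by_cases h1 : (k : ℕ) = 0
      · rw [if_pos (Or.inl h1), if_pos (Or.inl h1), if_pos h1, if_neg (by omega)]
        norm_num
      · by_cases h2 : (k : ℕ) = 1
        · rw [if_pos (Or.inr h2), if_neg (by omega), if_neg h1, if_pos h2]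
          norm_num
        · rw [if_neg (c := (k : ℕ) = 0 ∨ (k : ℕ) = 1) (by omega), if_neg h1, if_neg h2]
          norm_num
    · rw [Equiv.Perm.one_apply]
      show alT m t k = _ * alT m (if (t : ℕ) = m then Fin.last (m + 1) else
        if (t : ℕ) = m + 1 then (Fin.last m).castSucc else t) k
      by_cases h1 : (t : ℕ) = m
      · have h2 : t = (Fin.last m).castSucc := Fin.ext h1
        rw [if_pos h1, h2, alT_m hm, alT_last hm]
        by_cases h3 : (k : ℕ) = m
        · rw [if_pos h3, if_neg (by omega), if_neg (by omega)]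
          norm_num
        · by_cases h4 : (k : ℕ) = m + 1
          · rw [if_neg h3, if_pos h4, if_pos (Or.inr h4)]
            norm_num
          · rw [if_neg h3, if_neg h4]
            norm_num
      · rw [if_neg h1]
        by_cases h2 : (t : ℕ) = m + 1
        · have h2' : t = Fin.last (m + 1) := Fin.ext h2
          rw [if_pos h2, h2', alT_m hm, alT_last hm]
          by_cases h3 : (k : ℕ) = m
          · rw [if_pos h3, if_neg (by omega), if_neg (by omega)]
            norm_num
          · by_cases h4 : (k : ℕ) = m + 1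
            · rw [if_neg h3, if_pos h4, if_pos (Or.inr h4)]
              norm_num
            · rw [if_neg h3, if_neg h4]
              norm_num
        · rw [if_neg h2, alT_apply m (by omega), if_neg h2]
          by_cases h3 : (k : ℕ) = 0 ∨ (k : ℕ) = m + 1
          · rw [if_pos h3, if_neg (by omega), if_neg (by omega)]
            norm_num
          · rw [if_neg h3]
            norm_num

/-- the pairs of roots of the affine diagram -/
theorem pair_all (v v' : ClV m true true) : ∃ (σ : Equiv.Perm (Fin (m + 2)))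
    (ε : Fin (m + 2) → ℝ) (s t : Fin (m + 2)), Rz cs (alT m) σ ε ∧
      cla m true true v v' = typeD (m + 2) s t ∧
      (∀ k, alD m true true v k = ε k * alT m s (σ k)) ∧
      ∀ k, alD m true true v' k = ε k * alT m t (σ k) := by
  rcases om_or m v with rfl | ⟨s, rfl⟩
  · rcases om_or m v' with rfl | ⟨t, rfl⟩
    · obtain ⟨σ, ε, s, t', h1, -, h3, -⟩ := pair_om hm cs 0
      exact ⟨σ, ε, s, s, h1, by rw [(cla m true true).diagonal, (typeD (m + 2)).diagonal], h3, h3⟩
    · exact pair_om hm cs t
  · rcases om_or m v' with rfl | ⟨t, rfl⟩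
    · obtain ⟨σ, ε, s', t', h1, h2, h3, h4⟩ := pair_om hm cs s
      exact ⟨σ, ε, t', s', h1, by rw [(cla m true true).symmetric, h2, (typeD (m + 2)).symmetric],
        h4, h3⟩
    · exact ⟨1, fun _ => 1, s, t, Rz.one cs, fD_lab m s t, fun k => (one_mul _).symm,
        fun k => (one_mul _).symm⟩

/-- **the affine diagram of type `D` is a configuration of the finite type `D`** -/
theorem affD_conf (c : ℕ) : ∃ r : ClV m true true → (Fin (m + 2) → ℝ),
    ConfS cs (fun _ => c) (cla m true true) (fun _ => c) r := by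
  have hex : ∀ v : ClV m true true, ∃ u, ∀ k, co (alT m) u k = alD m true true v k := by
    intro v
    obtain ⟨σ, ε, s, t, ⟨w, hw⟩, -, h3, -⟩ := pair_all hm cs v v
    exact ⟨geo cs w (ee s), fun k => by rw [hw, co_ee, h3]⟩
  choose r hr using hex
  refine ⟨r, fun v v' => ?_⟩
  obtain ⟨σ, ε, s, t, ⟨w, hw⟩, h2, h3, h4⟩ := pair_all hm cs v v'
  have key : ∀ u u' : Fin (m + 2) → ℝ, (∀ k, co (alT m) u k = co (alT m) u' k) → u = u' := by
    intro u u' h
    rw [← sub_eq_zero]
    refine alT_indep m (by omega) _ fun k => ?_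
    have h5 := h k
    unfold co at h5 ⊢
    simp only [Pi.sub_apply, sub_mul, Finset.sum_sub_distrib]
    rw [h5, sub_self]
  refine ⟨w, s, t, h2, ?_, rfl, rfl, key _ _ fun k => ?_, key _ _ fun k => ?_⟩
  · rw [cla_apply]
    split_ifs <;> norm_num
  · rw [hr, hw, co_ee, h3]
  · rw [hr, hw, co_ee, h4]

end

end Pool.Agent.H53.CL
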